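import Mathlib

set_option autoImplicit false

namespace Pool.Agent.H565Z.Energy

open Polynomial

/-- the tree given by a parent function -/
def gr (p : Fin 14 → Fin 14) : SimpleGraph (Fin 14) where
  Adj i j := i ≠ j ∧ (p i = j ∨ p j = i)
  symm := ⟨fun _ _ h => ⟨h.1.symm, h.2.symm⟩⟩
  loopless := ⟨fun _ h => h.1 rfl⟩

instance (p : Fin 14 → Fin 14) : DecidableRel (gr p).Adj := fun i j =>
  inferInstanceAs (Decidable (i ≠ j ∧ (p i = j ∨ p j = i)))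

def pT : Fin 14 → Fin 14 := ![0, 0, 1, 2, 3, 2, 5, 2, 7, 2, 9, 2, 11, 2]

def pS : Fin 14 → Fin 14 := ![0, 0, 1, 2, 3, 4, 5, 6, 7, 8, 9, 5, 11, 12]

theorem conn (p : Fin 14 → Fin 14) (hp : ∀ i, i ≠ 0 → p i < i) : (gr p).Connected := by
  have h : ∀ k : ℕ, ∀ i : Fin 14, i.val = k → (gr p).Reachable 0 i := by
    intro k
    induction k using Nat.strong_induction_on with
    | _ k ih =>
      intro i hi
      by_cases h0 : i = 0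
      · subst h0; rfl
      · have h1 := hp i h0
        have h2 : (gr p).Adj (p i) i := ⟨h1.ne, Or.inr rfl⟩
        exact (ih (p i).val (by rw [← hi]; exact h1) (p i) rfl).trans h2.reachable
  exact ⟨fun u v => (h _ u rfl).symm.trans (h _ v rfl)⟩

theorem tree (p : Fin 14 → Fin 14) (hp : ∀ i, i ≠ 0 → p i < i)
    (hd : ∑ v, (gr p).degree v = 26) : (gr p).IsTree := by
  rw [SimpleGraph.isTree_iff_connected_and_card]
  refine ⟨conn p hp, ?_⟩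
  rw [SimpleGraph.sum_degrees_eq_twice_card_edges] at hd
  rw [Nat.card_eq_fintype_card, Nat.card_eq_fintype_card, ← SimpleGraph.edgeFinset_card]
  simp only [Fintype.card_fin]
  omega

theorem treeT : (gr pT).IsTree := tree pT (by decide) (by decide +kernel)

theorem treeS : (gr pS).IsTree := tree pS (by decide) (by decide +kernel)

def mT : Matrix (Fin 14) (Fin 14) ℤ :=
    !![0, 1, 0, 0, 0, 0, 0, 0, 0, 0, 0, 0, 0, 0;
      1, 0, 1, 0, 0, 0, 0, 0, 0, 0, 0, 0, 0, 0;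
      0, 1, 0, 1, 0, 1, 0, 1, 0, 1, 0, 1, 0, 1;
      0, 0, 1, 0, 1, 0, 0, 0, 0, 0, 0, 0, 0, 0;
      0, 0, 0, 1, 0, 0, 0, 0, 0, 0, 0, 0, 0, 0;
      0, 0, 1, 0, 0, 0, 1, 0, 0, 0, 0, 0, 0, 0;
      0, 0, 0, 0, 0, 1, 0, 0, 0, 0, 0, 0, 0, 0;
      0, 0, 1, 0, 0, 0, 0, 0, 1, 0, 0, 0, 0, 0;
      0, 0, 0, 0, 0, 0, 0, 1, 0, 0, 0, 0, 0, 0;
      0, 0, 1, 0, 0, 0, 0, 0, 0, 0, 1, 0, 0, 0;
      0, 0, 0, 0, 0, 0, 0, 0, 0, 1, 0, 0, 0, 0;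
      0, 0, 1, 0, 0, 0, 0, 0, 0, 0, 0, 0, 1, 0;
      0, 0, 0, 0, 0, 0, 0, 0, 0, 0, 0, 1, 0, 0;
      0, 0, 1, 0, 0, 0, 0, 0, 0, 0, 0, 0, 0, 0]

def mS : Matrix (Fin 14) (Fin 14) ℤ :=
    !![0, 1, 0, 0, 0, 0, 0, 0, 0, 0, 0, 0, 0, 0;
      1, 0, 1, 0, 0, 0, 0, 0, 0, 0, 0, 0, 0, 0;
      0, 1, 0, 1, 0, 0, 0, 0, 0, 0, 0, 0, 0, 0;
      0, 0, 1, 0, 1, 0, 0, 0, 0, 0, 0, 0, 0, 0;
      0, 0, 0, 1, 0, 1, 0, 0, 0, 0, 0, 0, 0, 0;
      0, 0, 0, 0, 1, 0, 1, 0, 0, 0, 0, 1, 0, 0;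
      0, 0, 0, 0, 0, 1, 0, 1, 0, 0, 0, 0, 0, 0;
      0, 0, 0, 0, 0, 0, 1, 0, 1, 0, 0, 0, 0, 0;
      0, 0, 0, 0, 0, 0, 0, 1, 0, 1, 0, 0, 0, 0;
      0, 0, 0, 0, 0, 0, 0, 0, 1, 0, 1, 0, 0, 0;
      0, 0, 0, 0, 0, 0, 0, 0, 0, 1, 0, 0, 0, 0;
      0, 0, 0, 0, 0, 1, 0, 0, 0, 0, 0, 0, 1, 0;
      0, 0, 0, 0, 0, 0, 0, 0, 0, 0, 0, 1, 0, 1;
      0, 0, 0, 0, 0, 0, 0, 0, 0, 0, 0, 0, 1, 0]

theorem adjT (i j : Fin 14) : (gr pT).adjMatrix ℝ i j = ((mT i j : ℤ) : ℝ) := by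
  have h : ∀ i j : Fin 14, @Eq ℤ (if (gr pT).Adj i j then (1 : ℤ) else 0) (mT i j) := by
    intro i j
    fin_cases i <;> fin_cases j <;> rfl
  rw [SimpleGraph.adjMatrix_apply, ← h]
  split_ifs <;> simp

theorem adjS (i j : Fin 14) : (gr pS).adjMatrix ℝ i j = ((mS i j : ℤ) : ℝ) := by
  have h : ∀ i j : Fin 14, @Eq ℤ (if (gr pS).Adj i j then (1 : ℤ) else 0) (mS i j) := by
    intro i j
    fin_cases i <;> fin_cases j <;> rfl
  rw [SimpleGraph.adjMatrix_apply, ← h]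
  split_ifs <;> simp

theorem matT (t : ℝ) : Matrix.scalar (Fin 14) t - (gr pT).adjMatrix ℝ =
    !![t, -1, 0, 0, 0, 0, 0, 0, 0, 0, 0, 0, 0, 0;
      -1, t, -1, 0, 0, 0, 0, 0, 0, 0, 0, 0, 0, 0;
      0, -1, t, -1, 0, -1, 0, -1, 0, -1, 0, -1, 0, -1;
      0, 0, -1, t, -1, 0, 0, 0, 0, 0, 0, 0, 0, 0;
      0, 0, 0, -1, t, 0, 0, 0, 0, 0, 0, 0, 0, 0;
      0, 0, -1, 0, 0, t, -1, 0, 0, 0, 0, 0, 0, 0;
      0, 0, 0, 0, 0, -1, t, 0, 0, 0, 0, 0, 0, 0;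
      0, 0, -1, 0, 0, 0, 0, t, -1, 0, 0, 0, 0, 0;
      0, 0, 0, 0, 0, 0, 0, -1, t, 0, 0, 0, 0, 0;
      0, 0, -1, 0, 0, 0, 0, 0, 0, t, -1, 0, 0, 0;
      0, 0, 0, 0, 0, 0, 0, 0, 0, -1, t, 0, 0, 0;
      0, 0, -1, 0, 0, 0, 0, 0, 0, 0, 0, t, -1, 0;
      0, 0, 0, 0, 0, 0, 0, 0, 0, 0, 0, -1, t, 0;
      0, 0, -1, 0, 0, 0, 0, 0, 0, 0, 0, 0, 0, t] := by
  ext i j
  rw [Matrix.sub_apply, adjT]
  fin_cases i <;> fin_cases j <;> simp [mT]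

theorem matS (t : ℝ) : Matrix.scalar (Fin 14) t - (gr pS).adjMatrix ℝ =
    !![t, -1, 0, 0, 0, 0, 0, 0, 0, 0, 0, 0, 0, 0;
      -1, t, -1, 0, 0, 0, 0, 0, 0, 0, 0, 0, 0, 0;
      0, -1, t, -1, 0, 0, 0, 0, 0, 0, 0, 0, 0, 0;
      0, 0, -1, t, -1, 0, 0, 0, 0, 0, 0, 0, 0, 0;
      0, 0, 0, -1, t, -1, 0, 0, 0, 0, 0, 0, 0, 0;
      0, 0, 0, 0, -1, t, -1, 0, 0, 0, 0, -1, 0, 0;
      0, 0, 0, 0, 0, -1, t, -1, 0, 0, 0, 0, 0, 0;
      0, 0, 0, 0, 0, 0, -1, t, -1, 0, 0, 0, 0, 0;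
      0, 0, 0, 0, 0, 0, 0, -1, t, -1, 0, 0, 0, 0;
      0, 0, 0, 0, 0, 0, 0, 0, -1, t, -1, 0, 0, 0;
      0, 0, 0, 0, 0, 0, 0, 0, 0, -1, t, 0, 0, 0;
      0, 0, 0, 0, 0, -1, 0, 0, 0, 0, 0, t, -1, 0;
      0, 0, 0, 0, 0, 0, 0, 0, 0, 0, 0, -1, t, -1;
      0, 0, 0, 0, 0, 0, 0, 0, 0, 0, 0, 0, -1, t] := by
  ext i j
  rw [Matrix.sub_apply, adjS]
  fin_cases i <;> fin_cases j <;> simp [mS]

theorem evT (t : ℝ) : ((gr pT).adjMatrix ℝ).charpoly.eval t =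
    (t ^ 2 - 1) ^ 5 * (t ^ 4 - 8 * t ^ 2 + 1) := by
  rw [Matrix.eval_charpoly, matT]
  eval_det
  ring

theorem evS (t : ℝ) : ((gr pS).adjMatrix ℝ).charpoly.eval t =
    t ^ 2 * (t ^ 2 - 1) * (t ^ 2 - 3) * (t ^ 4 - 3 * t ^ 2 + 1) * (t ^ 4 - 6 * t ^ 2 + 7) := by
  rw [Matrix.eval_charpoly, matS]
  eval_det
  ring

theorem roots_of_eval (p : ℝ[X]) (l : List ℝ)
    (h : ∀ t : ℝ, p.eval t = (l.map (fun r => t - r)).prod) : p.roots = (l : Multiset ℝ) := by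
  have hp : p = ((l : Multiset ℝ).map (fun r => X - C r)).prod := by
    apply Polynomial.funext
    intro t
    rw [h, Polynomial.eval_multiset_prod]
    simp [Function.comp_def]
  rw [hp, Polynomial.roots_multiset_prod_X_sub_C]

theorem rootsT (a b : ℝ) (h1 : a ^ 2 + b ^ 2 = 8) (h2 : a * b = 1) :
    ((gr pT).adjMatrix ℝ).charpoly.roots =
      (([1, 1, 1, 1, 1, -1, -1, -1, -1, -1, a, -a, b, -b] : List ℝ) : Multiset ℝ) := by
  apply roots_of_eval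
  intro t
  rw [evT]
  have h3 : t ^ 4 - 8 * t ^ 2 + 1 = (t - a) * ((t - -a) * ((t - b) * (t - -b))) := by
    linear_combination (t ^ 2) * h1 - (a * b + 1) * h2
  rw [h3]
  simp only [List.map_cons, List.map_nil, List.prod_cons, List.prod_nil]
  ring

theorem rootsS (c d e f g : ℝ) (h0 : c ^ 2 = 3) (h1 : d ^ 2 + e ^ 2 = 3) (h2 : d * e = 1)
    (h3 : f ^ 2 + g ^ 2 = 6) (h4 : f ^ 2 * g ^ 2 = 7) :
    ((gr pS).adjMatrix ℝ).charpoly.roots =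
      (([0, 0, 1, -1, c, -c, d, -d, e, -e, f, -f, g, -g] : List ℝ) : Multiset ℝ) := by
  apply roots_of_eval
  intro t
  rw [evS]
  have k1 : t ^ 2 - 3 = (t - c) * (t - -c) := by linear_combination h0
  have k2 : t ^ 4 - 3 * t ^ 2 + 1 = (t - d) * ((t - -d) * ((t - e) * (t - -e))) := by
    linear_combination (t ^ 2) * h1 - (d * e + 1) * h2
  have k3 : t ^ 4 - 6 * t ^ 2 + 7 = (t - f) * ((t - -f) * ((t - g) * (t - -g))) := by
    linear_combination (t ^ 2) * h3 - h4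
  rw [k1, k2, k3]
  simp only [List.map_cons, List.map_nil, List.prod_cons, List.prod_nil]
  ring

/-- two positive reals with prescribed sum of squares and product of squares -/
theorem exists_pair (s q : ℝ) (hq : 0 < q) (hs : 0 < s) (h : 4 * q ≤ s ^ 2) :
    ∃ a b : ℝ, 0 < a ∧ 0 < b ∧ a ^ 2 + b ^ 2 = s ∧ a ^ 2 * b ^ 2 = q := by
  set D := Real.sqrt (s ^ 2 - 4 * q) with hD
  have hD2 : D ^ 2 = s ^ 2 - 4 * q := Real.sq_sqrt (by linarith)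
  have hD0 : 0 ≤ D := Real.sqrt_nonneg _
  have hDs : D < s := by nlinarith
  have p1 : 0 < (s + D) / 2 := by linarith
  have p2 : 0 < (s - D) / 2 := by linarith
  refine ⟨Real.sqrt ((s + D) / 2), Real.sqrt ((s - D) / 2), Real.sqrt_pos.2 p1,
    Real.sqrt_pos.2 p2, ?_, ?_⟩
  · rw [Real.sq_sqrt p1.le, Real.sq_sqrt p2.le]; ring
  · rw [Real.sq_sqrt p1.le, Real.sq_sqrt p2.le]; nlinarith

theorem energyT :
    (((gr pT).adjMatrix ℝ).charpoly.roots.map (fun x : ℝ => |x|)).prod = 1 ∧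
    (((gr pT).adjMatrix ℝ).charpoly.roots.map (fun x : ℝ => |x|)).sum < 16.4 := by
  obtain ⟨a, b, ha, hb, h1, h2⟩ := exists_pair 8 1 (by norm_num) (by norm_num) (by norm_num)
  have hab : a * b = 1 := by
    have h3 : (a * b - 1) * (a * b + 1) = 0 := by linear_combination h2
    have h4 : 0 < a * b := mul_pos ha hb
    rcases mul_eq_zero.1 h3 with h | h <;> linarith
  rw [rootsT a b h1 hab]
  simp only [Multiset.map_coe, Multiset.prod_coe, Multiset.sum_coe, List.map_cons, List.map_nil,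
    List.prod_cons, List.prod_nil, List.sum_cons, List.sum_nil, abs_neg, abs_one, abs_of_pos ha,
    abs_of_pos hb]
  refine ⟨by linear_combination h2, ?_⟩
  have h5 : (a + b) ^ 2 = 10 := by linear_combination h1 + 2 * hab
  have h6 : a + b < 3.2 := by nlinarith
  linarith

theorem energyS :
    (((gr pS).adjMatrix ℝ).charpoly.roots.map (fun x : ℝ => |x|)).prod = 0 ∧
    16.4 < (((gr pS).adjMatrix ℝ).charpoly.roots.map (fun x : ℝ => |x|)).sum := by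
  obtain ⟨d, e, hd, he, h1, h2⟩ := exists_pair 3 1 (by norm_num) (by norm_num) (by norm_num)
  obtain ⟨f, g, hf, hg, h3, h4⟩ := exists_pair 6 7 (by norm_num) (by norm_num) (by norm_num)
  have hde : d * e = 1 := by
    have h3 : (d * e - 1) * (d * e + 1) = 0 := by linear_combination h2
    have h4 : 0 < d * e := mul_pos hd he
    rcases mul_eq_zero.1 h3 with h | h <;> linarith
  have hc : 0 < Real.sqrt 3 := Real.sqrt_pos.2 (by norm_num)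
  have hc2 : Real.sqrt 3 ^ 2 = 3 := Real.sq_sqrt (by norm_num)
  rw [rootsS (Real.sqrt 3) d e f g hc2 h1 hde h3 h4]
  simp only [Multiset.map_coe, Multiset.prod_coe, Multiset.sum_coe, List.map_cons, List.map_nil,
    List.prod_cons, List.prod_nil, List.sum_cons, List.sum_nil, abs_neg, abs_one, abs_zero,
    abs_of_pos hd, abs_of_pos he, abs_of_pos hf, abs_of_pos hg, abs_of_pos hc]
  refine ⟨by ring, ?_⟩
  have k1 : 1.7 < Real.sqrt 3 := by nlinarith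
  have k2 : (d + e) ^ 2 = 5 := by linear_combination h1 + 2 * hde
  have k3 : 2.2 < d + e := by nlinarith
  have k4 : 0 < f * g := mul_pos hf hg
  have k5 : 2.6 < f * g := by nlinarith
  have k6 : 11.2 < (f + g) ^ 2 := by nlinarith
  have k7 : 3.3 < f + g := by nlinarith
  linarith

end Pool.Agent.H565Z.Energy
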