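import Mathlib

set_option autoImplicit false

open scoped ComplexOrder ComplexConjugate
open Filter Topology

namespace Pool.Agent.H565Z.Fs

noncomputable section

/-- criterion for positive semidefiniteness -/
lemma psd_of {X : Type} (M : Matrix X X ℂ) (h1 : ∀ x y, conj (M x y) = M y x)
    (h2 : ∀ (s : Finset X) (a : X → ℂ), 0 ≤ (∑ x ∈ s, ∑ y ∈ s, conj (a x) * M x y * a y).re) :
    M.PosSemidef := by
  refine ⟨?_, fun v => ?_⟩
  · ext x y
    simp [Matrix.conjTranspose_apply, h1]
  · rw [Complex.nonneg_iff]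
    constructor
    · exact h2 v.support v
    · have : conj (∑ x ∈ v.support, ∑ y ∈ v.support, conj (v x) * M x y * v y)
          = ∑ x ∈ v.support, ∑ y ∈ v.support, conj (v x) * M x y * v y := by
        simp only [map_sum, map_mul, Complex.conj_conj, h1]
        rw [Finset.sum_comm]
        refine Finset.sum_congr rfl fun x _ => Finset.sum_congr rfl fun y _ => ?_
        ring
      exact (Complex.conj_eq_iff_im.1 this).symm

lemma psd_conj {X : Type} {M : Matrix X X ℂ} (h : M.PosSemidef) (x y : X) :
    conj (M x y) = M y x := by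
  have := h.isHermitian.apply y x
  simpa using this

lemma psd_re {X : Type} {M : Matrix X X ℂ} (h : M.PosSemidef) (s : Finset X) (a : X → ℂ) :
    0 ≤ (∑ x ∈ s, ∑ y ∈ s, conj (a x) * M x y * a y).re := by
  classical
  have h1 := (h.submatrix (fun x : s => (x : X))).dotProduct_mulVec_nonneg (fun x => a x)
  have h2 := (Complex.nonneg_iff.1 h1).1
  refine h2.trans_eq ?_
  congr 1
  simp only [dotProduct, Matrix.mulVec, Matrix.submatrix_apply, Pi.star_apply, RCLike.star_def,
    Finset.mul_sum]
  rw [← Finset.sum_coe_sort s]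
  refine Finset.sum_congr rfl fun x _ => ?_
  rw [← Finset.sum_coe_sort s]
  refine Finset.sum_congr rfl fun y _ => ?_
  ring

lemma psd_gram {X H : Type} [NormedAddCommGroup H] [InnerProductSpace ℂ H] (v : X → H) :
    (Matrix.of fun x y => inner ℂ (v x) (v y) : Matrix X X ℂ).PosSemidef := by
  refine psd_of _ (fun x y => by simp) fun s a => ?_
  have : (∑ x ∈ s, ∑ y ∈ s, conj (a x) * (Matrix.of fun x y => inner ℂ (v x) (v y) :
      Matrix X X ℂ) x y * a y) = inner ℂ (∑ x ∈ s, a x • v x) (∑ x ∈ s, a x • v x) := by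
    simp only [Matrix.of_apply, sum_inner, inner_sum, inner_smul_left, inner_smul_right,
      Finset.mul_sum]
    rw [Finset.sum_comm]
    refine Finset.sum_congr rfl fun x _ => Finset.sum_congr rfl fun y _ => ?_
    ring
  rw [this]
  exact inner_self_nonneg (𝕜 := ℂ)

lemma psd_rank_one {X : Type} (w : X → ℂ) :
    (Matrix.of fun x y => conj (w x) * w y : Matrix X X ℂ).PosSemidef := by
  convert psd_gram (H := ℂ) w using 3 with x y
  simp [mul_comm]

lemma psd_lim {X I : Type} {l : Filter I} [l.NeBot] (M : I → Matrix X X ℂ) (N : Matrix X X ℂ)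
    (h : ∀ᶠ i in l, (M i).PosSemidef) (hl : ∀ x y, Tendsto (fun i => M i x y) l (𝓝 (N x y))) :
    N.PosSemidef := by
  refine psd_of _ (fun x y => ?_) fun s a => ?_
  · have h1 : Tendsto (fun i => conj (M i x y)) l (𝓝 (conj (N x y))) :=
      (Complex.continuous_conj.tendsto _).comp (hl x y)
    refine tendsto_nhds_unique_of_eventuallyEq h1 (hl y x) ?_
    filter_upwards [h] with i hi using psd_conj hi x y
  · have h1 : Tendsto (fun i => (∑ x ∈ s, ∑ y ∈ s, conj (a x) * M i x y * a y).re) l
        (𝓝 (∑ x ∈ s, ∑ y ∈ s, conj (a x) * N x y * a y).re) := by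
      refine (Complex.continuous_re.tendsto _).comp ?_
      exact tendsto_finsetSum _ fun x _ => tendsto_finsetSum _ fun y _ =>
        ((hl x y).const_mul _).mul_const _
    refine ge_of_tendsto h1 ?_
    filter_upwards [h] with i hi using psd_re hi s a

lemma psd_tsum {X I : Type} (M : I → Matrix X X ℂ) (h : ∀ i, (M i).PosSemidef)
    (hs : ∀ x y, Summable fun i => M i x y) :
    (Matrix.of fun x y => ∑' i, M i x y : Matrix X X ℂ).PosSemidef := by
  refine psd_lim (l := (atTop : Filter (Finset I))) (fun s => ∑ i ∈ s, M i) _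
    (Eventually.of_forall fun s => Matrix.posSemidef_sum s fun i _ => h i) fun x y => ?_
  simp only [Matrix.sum_apply, Matrix.of_apply]
  exact (hs x y).hasSum

/-- Moore's theorem: a positive semidefinite kernel is a Gram kernel. -/
lemma exists_gram {X : Type} {M : Matrix X X ℂ} (h : M.PosSemidef) :
    ∃ (H : Type) (_ : NormedAddCommGroup H) (_ : InnerProductSpace ℂ H) (_ : CompleteSpace H)
      (v : X → H), (∀ x y, inner ℂ (v x) (v y) = M x y) ∧
        DenseRange (Finsupp.linearCombination ℂ v) := by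
  let K : Matrix X X (ℂ →L[ℂ] ℂ) := fun x y => M x y • ContinuousLinearMap.id ℂ ℂ
  have hK : K.PosSemidef := by
    have key : K.PosSemidef ↔ K.IsHermitian ∧ ∀ (vv : X →₀ ℂ),
      0 ≤ RCLike.re (vv.sum fun x w ↦ vv.sum fun x' w' ↦ inner ℂ (K x' x w) w') :=
      (RKHS.posSemidef_tfae (K := K)).out 0 2
    rw [key]
    constructor
    · refine Matrix.IsHermitian.ext fun m n => ?_
      have : star (ContinuousLinearMap.id ℂ ℂ) = ContinuousLinearMap.id ℂ ℂ := by
        rw [← ContinuousLinearMap.one_def, star_one]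
      change star (M n m • ContinuousLinearMap.id ℂ ℂ) = M m n • ContinuousLinearMap.id ℂ ℂ
      rw [star_smul, this, RCLike.star_def, psd_conj h]
    · intro vv
      have h1 := psd_re h vv.support vv
      simp only [Finsupp.sum]
      refine h1.trans_eq ?_
      change _ = Complex.re _
      congr 1
      refine Finset.sum_congr rfl fun m _ => Finset.sum_congr rfl fun n _ => ?_
      simp only [K, smul_apply, ContinuousLinearMap.id_apply, smul_eq_mul,
        RCLike.inner_apply, map_mul, psd_conj h]
      ring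
  have : Fact K.PosSemidef := ⟨hK⟩
  refine ⟨RKHS.OfKernel K, inferInstance, inferInstance, inferInstance,
    fun x => RKHS.kerFun (RKHS.OfKernel K) x (1 : ℂ), fun x y => ?_, ?_⟩
  · have h1 := RKHS.kernel_inner (H := RKHS.OfKernel K) y x (1 : ℂ) (1 : ℂ)
    rw [← h1, RKHS.OfKernel.kernel_ofKernel]
    simp [K, psd_conj h]
  · have h1 := RKHS.kerFun_dense (H := RKHS.OfKernel K)
    have h2 : Submodule.span ℂ {RKHS.kerFun (RKHS.OfKernel K) x v | (x : X) (v : ℂ)} ≤
        LinearMap.range (Finsupp.linearCombination ℂ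
          (fun x => RKHS.kerFun (RKHS.OfKernel K) x (1 : ℂ))) := by
      rw [Submodule.span_le]
      rintro _ ⟨x, v, rfl⟩
      refine ⟨Finsupp.single x v, ?_⟩
      rw [Finsupp.linearCombination_single, ← map_smul, smul_eq_mul, mul_one]
    have h3 : (LinearMap.range (Finsupp.linearCombination ℂ
          (fun x => RKHS.kerFun (RKHS.OfKernel K) x (1 : ℂ)))).topologicalClosure = ⊤ := by
      rw [eq_top_iff, ← h1]
      exact Submodule.topologicalClosure_mono h2
    intro x
    have : x ∈ (LinearMap.range (Finsupp.linearCombination ℂ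
          (fun x => RKHS.kerFun (RKHS.OfKernel K) x (1 : ℂ)))).topologicalClosure := by
      rw [h3]; trivial
    exact this

lemma psd_bound {X : Type} {M : Matrix X X ℂ} (h : M.PosSemidef) (x y : X) {r : ℝ}
    (hx : ‖M x x‖ ≤ r) (hy : ‖M y y‖ ≤ r) : ‖M x y‖ ≤ r := by
  obtain ⟨H, _, _, _, v, hv, -⟩ := exists_gram h
  rw [← hv] at hx hy ⊢
  rw [inner_self_eq_norm_sq_to_K] at hx hy
  simp only [Complex.coe_algebraMap, norm_pow, Complex.norm_real, norm_norm] at hx hy
  have h1 := norm_inner_le_norm (𝕜 := ℂ) (v x) (v y)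
  nlinarith [sq_nonneg (‖v x‖ - ‖v y‖)]

/-- GNS construction for an invariant kernel -/
lemma exists_rep {G Y : Type} [Group G] (F : Y → Y → G → ℂ)
    (h : (Matrix.of fun x y : G × Y => F x.2 y.2 (x.1⁻¹ * y.1)).PosSemidef) :
    ∃ (H : Type) (_ : NormedAddCommGroup H) (_ : InnerProductSpace ℂ H) (_ : CompleteSpace H)
      (π : G →* unitary (H →L[ℂ] H)) (ξ : Y → H),
      ∀ i j g, F i j g = inner ℂ (ξ i) ((π g : H →L[ℂ] H) (ξ j)) := by
  obtain ⟨H, _, _, _, v, hv, hd⟩ := exists_gram h
  let lc := Finsupp.linearCombination ℂ v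
  let e : G → (G × Y) ≃ (G × Y) := fun g => Equiv.prodCongr (Equiv.mulLeft g) (Equiv.refl Y)
  let shf : G → (G × Y →₀ ℂ) ≃ₗ[ℂ] (G × Y →₀ ℂ) := fun g => Finsupp.domLCongr (e g)
  have hsh : ∀ g x a, shf g (Finsupp.single x a) = Finsupp.single (g * x.1, x.2) a := by
    intro g x a
    simp [shf, e, Prod.map]
  have hin : ∀ g a b, inner ℂ (lc (shf g a)) (lc (shf g b)) = inner ℂ (lc a) (lc b) := by
    intro g a b
    induction a using Finsupp.induction_linear with
    | zero => simp
    | add a a' h h' => simp only [map_add, inner_add_left, h, h']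
    | single m x =>
      induction b using Finsupp.induction_linear with
      | zero => simp
      | add b b' h h' => simp only [map_add, inner_add_right, h, h']
      | single n y =>
        simp only [hsh, lc, Finsupp.linearCombination_single, inner_smul_left, inner_smul_right,
          hv, Matrix.of_apply]
        congr 3
        group
  have hn : ∀ g a, ‖lc (shf g a)‖ = ‖lc a‖ := by
    intro g a
    have h2 : ‖lc (shf g a)‖ ^ 2 = ‖lc a‖ ^ 2 := by
      rw [norm_sq_eq_re_inner (𝕜 := ℂ), norm_sq_eq_re_inner (𝕜 := ℂ), hin]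
    exact (sq_eq_sq₀ (norm_nonneg _) (norm_nonneg _)).1 h2
  let U : G → H ≃ₗᵢ[ℂ] H := fun g => LinearEquiv.extendOfIsometry (shf g) lc lc hd hd (hn g)
  have hU : ∀ g a, U g (lc a) = lc (shf g a) := fun g a =>
    LinearEquiv.extendOfIsometry_eq (shf g) lc lc hd hd (hn g) a
  have hUv : ∀ g x, U g (v x) = v (g * x.1, x.2) := by
    intro g x
    have := hU g (Finsupp.single x 1)
    simpa [hsh, lc] using this
  have hext : ∀ A B : H ≃ₗᵢ[ℂ] H, (∀ x, A (v x) = B (v x)) → A = B := by
    intro A B hAB
    ext y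
    refine hd.induction_on (p := fun y => A y = B y) y
      (isClosed_eq A.continuous B.continuous) fun a => ?_
    induction a using Finsupp.induction_linear with
    | zero => simp
    | add a a' h h' => simp only [map_add, h, h']
    | single m x => simp [hAB]
  let U' : G →* (H ≃ₗᵢ[ℂ] H) := MonoidHom.mk' U fun g g' => hext _ _ fun x => by
    simp [hUv, mul_assoc]
  refine ⟨H, inferInstance, inferInstance, inferInstance,
    (Unitary.linearIsometryEquiv.symm.toMonoidHom).comp U', fun i => v (1, i), fun i j g => ?_⟩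
  have : ((((Unitary.linearIsometryEquiv.symm.toMonoidHom).comp U') g :
      unitary (H →L[ℂ] H)) : H →L[ℂ] H) (v (1, j)) = U g (v (1, j)) := rfl
  rw [this, hUv, hv]
  simp

end

end Pool.Agent.H565Z.Fs
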