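import Mathlib
import Pool.Agent.H565Z.FsKer

set_option autoImplicit false

open scoped ComplexOrder ComplexConjugate
open Filter Topology

namespace Pool.Agent.H565Z.Fs

noncomputable section

variable {G : Type} [Group G]

def ker (F : Bool → Bool → G → ℂ) : Matrix (G × Bool) (G × Bool) ℂ :=
  Matrix.of fun x y => F x.2 y.2 (x.1⁻¹ * y.1)

def Ball2 (a b : ℝ) (f : G → ℂ) : Prop :=
  ∃ F : Bool → Bool → G → ℂ, (ker F).PosSemidef ∧ F false true = f ∧
    ‖F false false 1‖ ≤ a ∧ ‖F true true 1‖ ≤ b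

/-- the closed ball of radius `r` of the Fourier-Stieltjes algebra -/
def Ball (r : ℝ) (f : G → ℂ) : Prop := Ball2 r r f

lemma psd_bound2 {X : Type} {M : Matrix X X ℂ} (h : M.PosSemidef) (x y : X) {a b : ℝ}
    (ha : 0 ≤ a) (hb : 0 ≤ b) (hx : ‖M x x‖ ≤ a ^ 2) (hy : ‖M y y‖ ≤ b ^ 2) : ‖M x y‖ ≤ a * b := by
  obtain ⟨H, _, _, _, v, hv, -⟩ := exists_gram h
  rw [← hv] at hx hy ⊢
  rw [inner_self_eq_norm_sq_to_K] at hx hy
  simp only [Complex.coe_algebraMap, norm_pow, Complex.norm_real, norm_norm] at hx hy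
  have h1 := norm_inner_le_norm (𝕜 := ℂ) (v x) (v y)
  have h2 : ‖v x‖ ≤ a := (pow_le_pow_iff_left₀ (norm_nonneg _) ha two_ne_zero).1 hx
  have h3 : ‖v y‖ ≤ b := (pow_le_pow_iff_left₀ (norm_nonneg _) hb two_ne_zero).1 hy
  exact h1.trans (mul_le_mul h2 h3 (norm_nonneg _) ha)

lemma ker_entry_bound {F : Bool → Bool → G → ℂ} (h : (ker F).PosSemidef) {r : ℝ}
    (h1 : ‖F false false 1‖ ≤ r) (h2 : ‖F true true 1‖ ≤ r) (i j : Bool) (g : G) :
    ‖F i j g‖ ≤ r := by
  have hd : ∀ x : G × Bool, ‖ker F x x‖ ≤ r := by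
    rintro ⟨x, i⟩
    cases i <;> simpa [ker]
  have := psd_bound h (1, i) (g, j) (hd _) (hd _)
  simpa [ker] using this

lemma Ball.bound {r : ℝ} {f : G → ℂ} (h : Ball r f) (g : G) : ‖f g‖ ≤ r := by
  obtain ⟨F, h0, rfl, h1, h2⟩ := h
  exact ker_entry_bound h0 h1 h2 _ _ _

lemma Ball.nonneg {r : ℝ} {f : G → ℂ} (h : Ball r f) : 0 ≤ r := (norm_nonneg _).trans (h.bound 1)

lemma Ball.mono {r s : ℝ} {f : G → ℂ} (h : Ball r f) (hrs : r ≤ s) : Ball s f := by
  obtain ⟨F, h0, h3, h1, h2⟩ := h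
  exact ⟨F, h0, h3, h1.trans hrs, h2.trans hrs⟩

lemma ball_zero : Ball 0 (0 : G → ℂ) := by
  refine ⟨0, ?_, rfl, by simp, by simp⟩
  have : ker (0 : Bool → Bool → G → ℂ) = 0 := by ext; simp [ker]
  rw [this]
  exact Matrix.PosSemidef.zero

lemma Ball.add {r s : ℝ} {f g : G → ℂ} (h : Ball r f) (h' : Ball s g) : Ball (r + s) (f + g) := by
  obtain ⟨F, h0, rfl, h1, h2⟩ := h
  obtain ⟨F', h0', rfl, h1', h2'⟩ := h'
  refine ⟨F + F', ?_, rfl, ?_, ?_⟩
  · have : ker (F + F') = ker F + ker F' := by ext; simp [ker]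
    rw [this]
    exact h0.add h0'
  · exact (norm_add_le _ _).trans (add_le_add h1 h1')
  · exact (norm_add_le _ _).trans (add_le_add h2 h2')

lemma Ball2.mul {a b c d : ℝ} {f g : G → ℂ} (h : Ball2 a b f) (h' : Ball2 c d g) :
    Ball2 (a * c) (b * d) (f * g) := by
  obtain ⟨F, h0, rfl, h1, h2⟩ := h
  obtain ⟨F', h0', rfl, h1', h2'⟩ := h'
  refine ⟨F * F', ?_, rfl, ?_, ?_⟩
  · have : ker (F * F') = (ker F).hadamard (ker F') := by ext; simp [ker]
    rw [this]
    exact h0.hadamard h0'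
  · exact (norm_mul_le _ _).trans (mul_le_mul h1 h1' (norm_nonneg _) ((norm_nonneg _).trans h1))
  · exact (norm_mul_le _ _).trans (mul_le_mul h2 h2' (norm_nonneg _) ((norm_nonneg _).trans h2))

lemma Ball.mul {r s : ℝ} {f g : G → ℂ} (h : Ball r f) (h' : Ball s g) : Ball (r * s) (f * g) :=
  Ball2.mul h h'

lemma ball2_const (u v : ℂ) : Ball2 (‖u‖ ^ 2) (‖v‖ ^ 2) (fun _ : G => conj u * v) := by
  let w : Bool → ℂ := fun i => if i then v else u
  refine ⟨fun i j _ => conj (w i) * w j, psd_rank_one (fun x : G × Bool => w x.2), ?_, ?_, ?_⟩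
  · simp [w]
  · simp [w, sq]
  · simp [w, sq]

lemma Ball2.ball {a b : ℝ} {f : G → ℂ} (ha : 0 ≤ a) (hb : 0 ≤ b) (h : Ball2 (a ^ 2) (b ^ 2) f) :
    Ball (a * b) f := by
  by_cases h0 : a * b = 0
  · have : f = 0 := by
      obtain ⟨F, h1, rfl, h2, h3⟩ := h
      funext g
      have := psd_bound2 h1 (1, false) (g, true) ha hb (by simpa [ker] using h2)
        (by simpa [ker] using h3)
      rw [h0] at this
      simpa [ker] using this
    rw [this, h0]
    exact ball_zero
  · have ha' : 0 < a := lt_of_le_of_ne ha fun h => h0 (by rw [← h, zero_mul])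
    have hb' : 0 < b := lt_of_le_of_ne hb fun h => h0 (by rw [← h, mul_zero])
    set t : ℝ := √(b / a) with ht
    have ht0 : 0 < t := Real.sqrt_pos.2 (div_pos hb' ha')
    have ht2 : t ^ 2 = b / a := Real.sq_sqrt (div_pos hb' ha').le
    have h1 := h.mul (ball2_const (G := G) (t : ℂ) ((t⁻¹ : ℝ) : ℂ))
    have e1 : a ^ 2 * ‖(t : ℂ)‖ ^ 2 = a * b := by
      rw [Complex.norm_real, Real.norm_of_nonneg ht0.le, ht2]
      field_simp
    have e2 : b ^ 2 * ‖((t⁻¹ : ℝ) : ℂ)‖ ^ 2 = a * b := by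
      rw [Complex.norm_real, Real.norm_of_nonneg (inv_pos.2 ht0).le, inv_pow, ht2]
      field_simp
    have e3 : (f * fun _ : G => conj (t : ℂ) * ((t⁻¹ : ℝ) : ℂ)) = f := by
      funext g
      have : (t : ℂ) ≠ 0 := by exact_mod_cast ht0.ne'
      simp [this]
    rw [e1, e2, e3] at h1
    exact h1

lemma ball_const (c : ℂ) : Ball ‖c‖ (fun _ : G => c) := by
  have := (ball2_const (G := G) 1 c).ball (norm_nonneg _) (norm_nonneg _)
  simpa using this

lemma Ball.smul {r : ℝ} {f : G → ℂ} (h : Ball r f) (c : ℂ) : Ball (‖c‖ * r) (c • f) :=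
  (ball_const c).mul h

lemma Ball.neg {r : ℝ} {f : G → ℂ} (h : Ball r f) : Ball r (-f) := by
  have := h.smul (-1)
  simpa using this

lemma Ball.sub {r s : ℝ} {f g : G → ℂ} (h : Ball r f) (h' : Ball s g) : Ball (r + s) (f - g) := by
  rw [sub_eq_add_neg]
  exact h.add h'.neg

lemma ball_sum {I : Type} (s : Finset I) (r : I → ℝ) (f : I → G → ℂ)
    (h : ∀ i ∈ s, Ball (r i) (f i)) : Ball (∑ i ∈ s, r i) (∑ i ∈ s, f i) := by
  classical
  induction s using Finset.induction_on with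
  | empty => simpa using ball_zero
  | insert a s ha ih =>
    rw [Finset.sum_insert ha, Finset.sum_insert ha]
    exact (h a (Finset.mem_insert_self _ _)).add
      (ih fun i hi => h i (Finset.mem_insert_of_mem hi))

lemma ball_rep {H : Type} [NormedAddCommGroup H] [InnerProductSpace ℂ H] [CompleteSpace H]
    (π : G →* unitary (H →L[ℂ] H)) (ξ η : H) :
    Ball (‖η‖ * ‖ξ‖) (fun g => inner ℂ η ((π g : H →L[ℂ] H) ξ)) := by
  refine Ball2.ball (norm_nonneg _) (norm_nonneg _) ?_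
  let w : Bool → H := fun i => if i then ξ else η
  refine ⟨fun i j g => inner ℂ (w i) ((π g : H →L[ℂ] H) (w j)), ?_, ?_, ?_, ?_⟩
  · convert psd_gram (fun x : G × Bool => (π x.1 : H →L[ℂ] H) (w x.2)) using 1
    ext x y
    simp only [ker, Matrix.of_apply]
    rw [← Unitary.inner_map_map (π x.1)]
    congr 1
    rw [← mul_apply_eq_comp, ← Submonoid.coe_mul, ← map_mul]
    simp
  · simp [w]
  · simp [w]
  · simp [w]

lemma Ball.rep {r : ℝ} {f : G → ℂ} (h : Ball r f) :
    ∃ (H : Type) (_ : NormedAddCommGroup H) (_ : InnerProductSpace ℂ H) (_ : CompleteSpace H)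
      (π : G →* unitary (H →L[ℂ] H)) (ξ η : H), ∀ g, f g = inner ℂ η ((π g : H →L[ℂ] H) ξ) := by
  obtain ⟨F, h0, rfl, -, -⟩ := h
  obtain ⟨H, _, _, _, π, ξ, h⟩ := exists_rep F h0
  exact ⟨H, inferInstance, inferInstance, inferInstance, π, ξ true, ξ false, fun g => h _ _ _⟩

lemma Ball.shift {r : ℝ} {f : G → ℂ} (h : Ball r f) (m : G) : Ball r (fun g => f (m⁻¹ * g)) := by
  obtain ⟨F, h0, rfl, h1, h2⟩ := h
  let c : Bool → G := fun i => if i then 1 else m
  refine ⟨fun i j y => F i j ((c i)⁻¹ * y * c j), ?_, ?_, ?_, ?_⟩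
  · convert h0.submatrix (fun x : G × Bool => (x.1 * c x.2, x.2)) using 1
    ext x y
    simp [ker, mul_assoc]
  · simp [c]
  · simpa [c] using h1
  · simpa [c] using h2

lemma ball_L1 {H : Type} [NormedAddCommGroup H] [InnerProductSpace ℂ H] (a b : G → H)
    (E E' : Finset G) (ha : ∀ h ∉ E, a h = 0) (hb : ∀ h ∉ E', b h = 0) {α β : ℝ}
    (hα : 0 ≤ α) (hβ : 0 ≤ β) (h1 : ∑ h ∈ E, ‖a h‖ ^ 2 ≤ α ^ 2)
    (h2 : ∑ h ∈ E', ‖b h‖ ^ 2 ≤ β ^ 2) :
    Ball (α * β) (fun y => ∑ h ∈ E', inner ℂ (a (y * h)) (b h)) := by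
  classical
  refine Ball2.ball hα hβ ?_
  let c : Bool → G → H := fun i => if i then b else a
  let T : Bool → Finset G := fun i => if i then E' else E
  have hc : ∀ i, ∀ h ∉ T i, c i h = 0 := by
    intro i
    cases i
    · simpa [c, T] using ha
    · simpa [c, T] using hb
  have hF : ∀ i j y, ∑' h, inner ℂ (c i (y * h)) (c j h) = ∑ h ∈ T j, inner ℂ (c i (y * h)) (c j h) :=
    fun i j y => tsum_eq_sum fun h hh => by rw [hc j h hh, inner_zero_right]
  refine ⟨fun i j y => ∑ h ∈ T j, inner ℂ (c i (y * h)) (c j h), ?_, ?_, ?_, ?_⟩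
  · have := psd_tsum (fun h : G => (Matrix.of fun x y : G × Bool =>
      inner ℂ (c x.2 (x.1⁻¹ * h)) (c y.2 (y.1⁻¹ * h)) : Matrix _ _ ℂ))
      (fun h => psd_gram (fun x : G × Bool => c x.2 (x.1⁻¹ * h))) (fun x y => ?_)
    · convert this using 1
      ext x y
      simp only [ker, Matrix.of_apply]
      rw [← hF, eq_comm, ← (Equiv.mulLeft y.1).tsum_eq]
      simp [mul_assoc]
    · rw [← (Equiv.mulLeft y.1).summable_iff]
      refine summable_of_ne_finset_zero (s := T y.2) fun h hh => ?_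
      simp [hc _ h hh]
  · simp [c, T]
  · refine (norm_sum_le _ _).trans (le_trans (le_of_eq ?_) h1)
    simp [c, T]
  · refine (norm_sum_le _ _).trans (le_trans (le_of_eq ?_) h2)
    simp [c, T]

open Classical in
/-- point mass -/
def dl (m : G) : G → ℂ := fun g => if g = m then 1 else 0

lemma ball_dl (m : G) : Ball 1 (dl m) := by
  have := ball_L1 (H := ℂ) (dl m) (dl 1) {m} {1} (by simp +contextual [dl])
    (by simp +contextual [dl]) zero_le_one zero_le_one (by simp [dl]) (by simp [dl])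
  rw [one_mul] at this
  convert this using 1
  funext y
  rw [Finset.sum_singleton, mul_one]
  simp [dl]

lemma ball_l1 (u : G → ℂ) (E : Finset G) (hu : ∀ g ∉ E, u g = 0) :
    Ball (∑ g ∈ E, ‖u g‖) u := by
  classical
  have h := ball_sum E (fun g => ‖u g‖ * 1) (fun g => u g • dl g) fun g _ => (ball_dl g).smul _
  simp only [mul_one] at h
  convert h using 1
  funext y
  simp only [Finset.sum_apply, Pi.smul_apply, dl, smul_eq_mul, mul_ite, mul_one, mul_zero]
  rw [Finset.sum_ite_eq]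
  split_ifs with hy
  · rfl
  · exact hu y hy

lemma ball_lim {I : Type} {l : Filter I} [l.NeBot] {r : ℝ} (f : I → G → ℂ) (u : G → ℂ)
    (h : ∀ᶠ i in l, Ball r (f i)) (hl : ∀ g, Tendsto (fun i => f i g) l (𝓝 (u g))) :
    Ball r u := by
  classical
  let U := Ultrafilter.of l
  have hU : (U : Filter I) ≤ l := Ultrafilter.of_le l
  have h' : ∀ i, ∃ F : Bool → Bool → G → ℂ, Ball r (f i) → ((ker F).PosSemidef ∧
      F false true = f i ∧ ‖F false false 1‖ ≤ r ∧ ‖F true true 1‖ ≤ r) := by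
    intro i
    by_cases hi : Ball r (f i)
    · obtain ⟨F, hF⟩ := hi
      exact ⟨F, fun _ => hF⟩
    · exact ⟨0, fun h => absurd h hi⟩
  choose F hF using h'
  have hb : ∀ a b g, ∃ z ∈ Metric.closedBall (0 : ℂ) r,
      Tendsto (fun i => F i a b g) U (𝓝 z) := by
    intro a b g
    have := (isCompact_closedBall (0 : ℂ) r).ultrafilter_le_nhds (U.map fun i => F i a b g) (by
      rw [le_principal_iff, Ultrafilter.coe_map, mem_map]
      filter_upwards [hU h] with i hi
      obtain ⟨h0, -, h1, h2⟩ := hF i hi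
      simpa using ker_entry_bound h0 h1 h2 a b g)
    exact this
  choose z hz hzl using hb
  refine ⟨z, ?_, ?_, by simpa using hz _ _ _, by simpa using hz _ _ _⟩
  · refine psd_lim (l := (U : Filter I)) (fun i => ker (F i)) _ ?_ fun x y => hzl _ _ _
    filter_upwards [hU h] with i hi using (hF i hi).1
  · funext g
    refine tendsto_nhds_unique_of_eventuallyEq (hzl false true g) ((hl g).mono_left hU) ?_
    filter_upwards [hU h] with i hi
    rw [(hF i hi).2.1]

/-- extension by zero from a subgroup -/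
lemma Ball.extend {A : Type} [Group A] (ι : A →* G) (hι : Function.Injective ι) {r : ℝ}
    {u : A → ℂ} (h : Ball r u) : Ball r (Function.extend ι u 0) := by
  classical
  obtain ⟨F, h0, rfl, h1, h2⟩ := h
  have hs : ∀ g : G, ∃ a : A, g = (QuotientGroup.mk g : G ⧸ ι.range).out * ι a := by
    intro g
    obtain ⟨k, hk⟩ := QuotientGroup.mk_out_eq_mul ι.range g
    obtain ⟨a, ha⟩ := k.2
    refine ⟨a⁻¹, ?_⟩
    rw [hk, map_inv, ha]
    simp
  choose a ha using hs
  refine ⟨fun i j => Function.extend ι (F i j) 0, ?_, rfl, ?_, ?_⟩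
  · have h3 := (Matrix.PosSemidef.one (n := G ⧸ ι.range) (R := ℂ)).submatrix
      (fun x : G × Bool => (QuotientGroup.mk x.1 : G ⧸ ι.range))
    have h4 := h0.submatrix (fun x : G × Bool => (a x.1, x.2))
    have h5 := h3.hadamard h4
    suffices e : ker (fun i j => Function.extend ι (F i j) 0) = _ by rw [e]; exact h5
    ext x y
    simp only [ker, Matrix.of_apply, Matrix.hadamard_apply, Matrix.submatrix_apply,
      Matrix.one_apply]
    split_ifs with hxy
    · have : x.1⁻¹ * y.1 = ι ((a x.1)⁻¹ * a y.1) := by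
        conv_lhs => rw [ha x.1, ha y.1, hxy]
        simp [mul_assoc]
      rw [this, hι.extend_apply, one_mul]
    · rw [Function.extend_apply', zero_mul]
      · rfl
      · rintro ⟨b, hb⟩
        exact hxy (QuotientGroup.eq.2 ⟨b, hb⟩)
  · have : (1 : G) = ι 1 := (map_one ι).symm
    simpa only [this, hι.extend_apply] using h1
  · have : (1 : G) = ι 1 := (map_one ι).symm
    simpa only [this, hι.extend_apply] using h2

end

end Pool.Agent.H565Z.Fs
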