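import Mathlib
import Pool.Agent.H565Z.FsBall

set_option autoImplicit false

open scoped ComplexOrder ComplexConjugate
open Filter Topology

namespace Pool.Agent.H565Z.Fs

noncomputable section

variable {G : Type} [Group G]

def InB (f : G → ℂ) : Prop := ∃ r, Ball r f

lemma Ball.inB {r : ℝ} {f : G → ℂ} (h : Ball r f) : InB f := ⟨r, h⟩

lemma InB.add {f g : G → ℂ} (h : InB f) (h' : InB g) : InB (f + g) := by
  obtain ⟨r, h⟩ := h
  obtain ⟨s, h'⟩ := h'
  exact (h.add h').inB

lemma InB.mul {f g : G → ℂ} (h : InB f) (h' : InB g) : InB (f * g) := by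
  obtain ⟨r, h⟩ := h
  obtain ⟨s, h'⟩ := h'
  exact (h.mul h').inB

lemma InB.sub {f g : G → ℂ} (h : InB f) (h' : InB g) : InB (f - g) := by
  obtain ⟨r, h⟩ := h
  obtain ⟨s, h'⟩ := h'
  exact (h.sub h').inB

lemma InB.smul {f : G → ℂ} (h : InB f) (c : ℂ) : InB (c • f) := by
  obtain ⟨r, h⟩ := h
  exact (h.smul c).inB

lemma inB_sum {I : Type} (s : Finset I) (f : I → G → ℂ) (h : ∀ i ∈ s, InB (f i)) :
    InB (∑ i ∈ s, f i) :=
  Finset.sum_induction f InB (fun _ _ => InB.add) ball_zero.inB h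

def subB (G : Type) [Group G] : Subalgebra ℂ (G → ℂ) where
  carrier := {f | InB f}
  mul_mem' := InB.mul
  add_mem' := InB.add
  algebraMap_mem' := fun c => (ball_const c).inB

def nrm (f : G → ℂ) : ℝ := sInf {r | Ball r f}

lemma nrm_le {r : ℝ} {f : G → ℂ} (h : Ball r f) : nrm f ≤ r :=
  csInf_le ⟨0, fun _ hr => Ball.nonneg hr⟩ h

lemma ball_of_lt {s : ℝ} {f : G → ℂ} (h : InB f) (hs : nrm f < s) : Ball s f := by
  obtain ⟨r, hr, hrs⟩ := exists_lt_of_csInf_lt (s := {r | Ball r f}) h hs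
  exact Ball.mono hr hrs.le

lemma ball_nrm {f : G → ℂ} (h : InB f) : Ball (nrm f) f := by
  have h0 : 0 ≤ nrm f := le_csInf h fun _ hr => Ball.nonneg hr
  rcases h0.eq_or_lt with h1 | h1
  · have : f = 0 := by
      funext g
      have : ‖f g‖ ≤ 0 := le_of_forall_gt_imp_ge_of_dense fun s hs =>
        (ball_of_lt h (h1 ▸ hs)).bound g
      simpa using this
    rw [← h1, this]
    exact ball_zero
  · refine ball_lim (l := 𝓝[<] (1 : ℝ)) (fun t => (t : ℂ) • f) f ?_ fun g => ?_
    · filter_upwards [Ioo_mem_nhdsLT (zero_lt_one' ℝ)] with t ht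
      have h2 : nrm f < nrm f / t := by
        rw [lt_div_iff₀ ht.1]
        nlinarith [ht.2]
      have h3 := (ball_of_lt h h2).smul (t : ℂ)
      rwa [Complex.norm_real, Real.norm_of_nonneg ht.1.le, mul_div_cancel₀ _ ht.1.ne'] at h3
    · have : Tendsto (fun t : ℝ => (t : ℂ) * f g) (𝓝 1) (𝓝 (((1 : ℝ) : ℂ) * f g)) :=
        (Complex.continuous_ofReal.tendsto _).mul_const _
      simpa using this.mono_left nhdsWithin_le_nhds

/-- the Fourier-Stieltjes algebra as a type -/
def BG (G : Type) [Group G] : Type := subB G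

instance : CommRing (BG G) := inferInstanceAs (CommRing (subB G))

instance : Algebra ℂ (BG G) := inferInstanceAs (Algebra ℂ (subB G))

def BG.fn (a : BG G) : G → ℂ := (show subB G from a).1

lemma BG.inB (a : BG G) : InB a.fn := (show subB G from a).2

def BG.mk (f : G → ℂ) (h : InB f) : BG G := (⟨f, h⟩ : subB G)

lemma BG.ext {a b : BG G} (h : a.fn = b.fn) : a = b := Subtype.ext h

def rn (G : Type) [Group G] : RingNorm (BG G) where
  toFun a := nrm a.fn
  map_zero' := le_antisymm (nrm_le ball_zero) (ball_nrm (BG.inB 0)).nonneg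
  add_le' a b := nrm_le ((ball_nrm a.inB).add (ball_nrm b.inB))
  neg' a := le_antisymm (nrm_le (ball_nrm a.inB).neg) (by
    have := nrm_le (ball_nrm (-a).inB).neg
    change nrm (- - a.fn) ≤ _ at this
    rwa [neg_neg] at this)
  mul_le' a b := nrm_le ((ball_nrm a.inB).mul (ball_nrm b.inB))
  eq_zero_of_map_eq_zero' a h := by
    refine BG.ext (funext fun g => ?_)
    have := (ball_nrm a.inB).bound g
    rw [h] at this
    exact norm_le_zero_iff.1 this

instance : NormedCommRing (BG G) := { (rn G).toNormedRing with mul_comm := mul_comm }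

lemma BG.norm_def (a : BG G) : ‖a‖ = nrm a.fn := rfl

instance : NormedAlgebra ℂ (BG G) :=
  { (inferInstance : Algebra ℂ (BG G)) with
    norm_smul_le := fun c a => nrm_le ((ball_nrm a.inB).smul c) }

instance : CompleteSpace (BG G) := by
  refine Metric.complete_of_cauchySeq_tendsto fun u hu => ?_
  have hb : ∀ a b : BG G, Ball (dist a b) (a.fn - b.fn) := fun a b => by
    rw [dist_eq_norm]
    exact ball_nrm (a - b).inB
  have h1 : ∀ g, ∃ z, Tendsto (fun n => (u n).fn g) atTop (𝓝 z) := by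
    intro g
    refine cauchySeq_tendsto_of_complete ?_
    rw [Metric.cauchySeq_iff] at hu ⊢
    intro ε hε
    obtain ⟨N, hN⟩ := hu ε hε
    refine ⟨N, fun m hm n hn => lt_of_le_of_lt ?_ (hN m hm n hn)⟩
    rw [dist_eq_norm]
    exact (hb _ _).bound g
  choose z hz using h1
  have h2 : ∀ ε > 0, ∃ N, ∀ n ≥ N, Ball ε ((u n).fn - z) := by
    intro ε hε
    obtain ⟨N, hN⟩ := Metric.cauchySeq_iff.1 hu ε hε
    refine ⟨N, fun n hn => ball_lim (l := atTop) (fun m => (u n).fn - (u m).fn) _ ?_ fun g => ?_⟩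
    · filter_upwards [eventually_ge_atTop N] with m hm
      exact (hb _ _).mono (hN n hn m hm).le
    · exact (hz g).const_sub _
  have h3 : InB z := by
    obtain ⟨N, hN⟩ := h2 1 one_pos
    have := (u N).inB.sub (hN N le_rfl).inB
    rwa [sub_sub_cancel] at this
  refine ⟨BG.mk z h3, Metric.tendsto_atTop.2 fun ε hε => ?_⟩
  obtain ⟨N, hN⟩ := h2 (ε / 2) (half_pos hε)
  refine ⟨N, fun n hn => lt_of_le_of_lt ?_ (half_lt_self hε)⟩
  rw [dist_eq_norm]
  exact nrm_le (hN n hn)

/-- characters of the Fourier-Stieltjes algebra, as functions on all functions -/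
structure IsChar (φ : (G → ℂ) → ℂ) : Prop where
  add : ∀ {f g}, InB f → InB g → φ (f + g) = φ f + φ g
  mul : ∀ {f g}, InB f → InB g → φ (f * g) = φ f * φ g
  const : ∀ c : ℂ, φ (fun _ => c) = c
  bound : ∀ {r f}, Ball r f → ‖φ f‖ ≤ r

lemma IsChar.smul {φ : (G → ℂ) → ℂ} (h : IsChar φ) {f : G → ℂ} (hf : InB f) (c : ℂ) :
    φ (c • f) = c * φ f := by
  have := h.mul (ball_const c).inB hf
  rw [h.const] at this
  exact this

lemma IsChar.zero {φ : (G → ℂ) → ℂ} (h : IsChar φ) : φ 0 = 0 := h.const 0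

lemma IsChar.sub {φ : (G → ℂ) → ℂ} (h : IsChar φ) {f g : G → ℂ} (hf : InB f) (hg : InB g) :
    φ (f - g) = φ f - φ g := by
  have := h.add (hf.sub hg) hg
  rw [sub_add_cancel] at this
  rw [this, add_sub_cancel_right]

lemma IsChar.sum {φ : (G → ℂ) → ℂ} (h : IsChar φ) {I : Type} (s : Finset I) (f : I → G → ℂ)
    (hf : ∀ i ∈ s, InB (f i)) : φ (∑ i ∈ s, f i) = ∑ i ∈ s, φ (f i) := by
  classical
  induction s using Finset.induction_on with
  | empty => simpa using h.zero
  | insert a s ha ih =>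
    rw [Finset.sum_insert ha, Finset.sum_insert ha, h.add (hf a (Finset.mem_insert_self _ _))
      (inB_sum _ _ fun i hi => hf i (Finset.mem_insert_of_mem hi)),
      ih fun i hi => hf i (Finset.mem_insert_of_mem hi)]

lemma IsChar.eval {φ : (G → ℂ) → ℂ} (h : IsChar φ) {m : G} (hm : φ (dl m) ≠ 0) {f : G → ℂ}
    (hf : InB f) : φ f = f m := by
  have h1 : f * dl m = f m • dl m := by
    funext g
    by_cases hg : g = m <;> simp [dl, hg]
  have h2 := h.mul hf (ball_dl m).inB
  rw [h1, h.smul (ball_dl m).inB] at h2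
  exact (mul_right_cancel₀ hm h2).symm

/-- natural spectrum -/
def Natural (f : G → ℂ) : Prop :=
  {z : ℂ | ¬ ∃ h, InB h ∧ ∀ g : G, (f g - z) * h g = 1} = closure (Set.range f)

theorem natural_of_chars {f : G → ℂ} (hf : InB f)
    (h : ∀ φ : (G → ℂ) → ℂ, IsChar φ → φ f ∈ closure (Set.range f)) : Natural f := by
  classical
  ext z
  constructor
  · intro hz
    have h1 : z ∈ spectrum ℂ (BG.mk f hf) := by
      rw [spectrum.mem_iff]
      intro hu
      apply hz
      obtain ⟨b, hb⟩ := hu.exists_right_inv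
      refine ⟨(-b).fn, (-b).inB, fun g => ?_⟩
      have h2 := congrFun (congrArg BG.fn hb) g
      change (z - f g) * b.fn g = 1 at h2
      change (f g - z) * (- b.fn g) = 1
      rw [← h2]
      ring
    obtain ⟨ψ, hψ⟩ := WeakDual.CharacterSpace.mem_spectrum_iff_exists.1 h1
    have h2 := h (fun u => if hu : InB u then ψ (BG.mk u hu) else 0) ⟨?_, ?_, ?_, ?_⟩
    · simp only [hf, dif_pos, hψ] at h2
      exact h2
    · intro u v hu hv
      simp only [hu, hv, hu.add hv, dif_pos]
      exact map_add ψ (BG.mk u hu) (BG.mk v hv)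
    · intro u v hu hv
      simp only [hu, hv, hu.mul hv, dif_pos]
      exact map_mul ψ (BG.mk u hu) (BG.mk v hv)
    · intro c
      simp only [(ball_const (G := G) c).inB, dif_pos]
      exact AlgHomClass.commutes ψ c
    · intro r u hu
      simp only [hu.inB, dif_pos]
      have h3 := AlgHom.norm_apply_le_self_mul_norm_one ψ (BG.mk u hu.inB)
      have h4 : ‖(1 : BG G)‖ ≤ 1 := by
        have := nrm_le (ball_const (G := G) 1)
        rwa [norm_one] at this
      have h5 : ‖BG.mk u hu.inB‖ ≤ r := nrm_le hu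
      exact h3.trans (by nlinarith [norm_nonneg (BG.mk u hu.inB), norm_nonneg (1 : BG G)])
  · rintro hz ⟨u, ⟨r, hu⟩, h1⟩
    rw [Metric.mem_closure_iff] at hz
    obtain ⟨_, ⟨g, rfl⟩, hg⟩ := hz (1 / (r + 1)) (by have := hu.nonneg; positivity)
    have h2 := congrArg norm (h1 g)
    rw [norm_mul, norm_one, ← dist_eq_norm, dist_comm] at h2
    have h3 := hu.bound g
    have h4 := hu.nonneg
    rw [lt_div_iff₀ (by positivity)] at hg
    nlinarith [dist_nonneg (x := z) (y := f g)]

end

end Pool.Agent.H565Z.Fs
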