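import Mathlib
import Pool.Agent.H565Z.FsAlg

set_option autoImplicit false

open scoped ComplexOrder ComplexConjugate Pointwise Classical
open Filter Topology Finset

namespace Pool.Agent.H565Z.Fs

noncomputable section

variable {A : Type} [CommGroup A]

abbrev MA (A : Type) [CommGroup A] := MonoidAlgebra ℂ A

def sharp : MA A →+* MA A :=
  (MonoidAlgebra.mapRingHom A (starRingEnd ℂ)).comp
    (MonoidAlgebra.mapDomainRingEquiv ℂ (MulEquiv.inv A)).toRingHom

lemma coeff_sharp (x : MA A) (g : A) : (sharp x).coeff g = conj (x.coeff g⁻¹) := by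
  simp [sharp]

lemma coeff_mul_tsum (x y : MA A) (g : A) :
    (x * y).coeff g = ∑' h, x.coeff h * y.coeff (h⁻¹ * g) := by
  rw [MonoidAlgebra.coeff_mul_apply_left, tsum_eq_sum (s := x.coeff.support)]
  · rfl
  · intro h hh
    rw [Finsupp.notMem_support_iff.1 hh, zero_mul]

/-- supported in a finite set -/
def Supp (x : MA A) (E : Finset A) : Prop := ∀ h ∉ E, x.coeff h = 0

lemma coeff_mul_sum {x : MA A} (y : MA A) {E : Finset A} (hE : Supp x E) (g : A) :
    (x * y).coeff g = ∑ h ∈ E, x.coeff h * y.coeff (h⁻¹ * g) := by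
  rw [coeff_mul_tsum, tsum_eq_sum]
  intro h hh
  rw [hE h hh, zero_mul]

lemma coeff_sharp_mul {x : MA A} (y : MA A) {E : Finset A} (hE : Supp x E) (g : A) :
    (sharp x * y).coeff g = ∑ h ∈ E, conj (x.coeff h) * y.coeff (g * h) := by
  rw [coeff_mul_tsum, ← (Equiv.inv A).tsum_eq, tsum_eq_sum (s := E)]
  · refine sum_congr rfl fun h _ => ?_
    simp [coeff_sharp, mul_comm]
  · intro h hh
    simp [coeff_sharp, hE h hh]

lemma Supp.mul {x y : MA A} {E E' : Finset A} (hx : Supp x E) (hy : Supp y E') :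
    Supp (x * y) (E * E') := by
  intro g hg
  rw [coeff_mul_sum y hx]
  refine sum_eq_zero fun h hh => ?_
  rw [hy _ fun h' => hg ?_, mul_zero]
  simpa using mul_mem_mul hh h'

lemma coeff_mul_uniq {u v : MA A} {E E' : Finset A} (hu : Supp u E) (hv : Supp v E')
    (huniq : ∀ m ∈ E, ∀ m' ∈ E, ∀ x ∈ E', ∀ x' ∈ E', m * x = m' * x' → m = m')
    {m x : A} (hm : m ∈ E) (hx : x ∈ E') : (u * v).coeff (m * x) = u.coeff m * v.coeff x := by
  rw [coeff_mul_sum v hu, sum_eq_single_of_mem m hm]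
  · simp
  · intro m' hm' hne
    rw [hv _ fun h => hne (huniq m hm m' hm' x hx _ h (by simp)).symm, mul_zero]

/-- products of the level sets -/
def DD (S : ℕ → Finset A) (K n : ℕ) : Finset A := ∏ k ∈ range n, S (K + k)

/-- partial Riesz products -/
def pr (x : ℕ → MA A) (K n : ℕ) : MA A := ∏ k ∈ range n, x (K + k)

lemma DD_zero (S : ℕ → Finset A) (K : ℕ) : DD S K 0 = {1} := by
  simp [DD]; rfl

lemma DD_succ (S : ℕ → Finset A) (K n : ℕ) : DD S K (n + 1) = DD S K n * S (K + n) :=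
  prod_range_succ _ _

lemma DD_add (S : ℕ → Finset A) (K n : ℕ) : DD S 0 (K + n) = DD S 0 K * DD S K n := by
  simp [DD, prod_range_add]

lemma pr_succ (x : ℕ → MA A) (K n : ℕ) : pr x K (n + 1) = pr x K n * x (K + n) :=
  prod_range_succ _ _

lemma pr_add (x : ℕ → MA A) (K n : ℕ) : pr x 0 (K + n) = pr x 0 K * pr x K n := by
  simp [pr, prod_range_add]

lemma supp_pr {S : ℕ → Finset A} {x : ℕ → MA A} (h : ∀ k, Supp (x k) (S k)) (K n : ℕ) :
    Supp (pr x K n) (DD S K n) := by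
  induction n with
  | zero =>
    intro g hg
    rw [DD_zero, mem_singleton] at hg
    simp [pr, MonoidAlgebra.one_def, Ne.symm hg]
  | succ n ih =>
    rw [pr_succ, DD_succ]
    exact ih.mul (h _)

/-- dissociate level sets -/
structure Dis (S : ℕ → Finset A) : Prop where
  one : ∀ k, 1 ∈ S k
  dis : ∀ k, ∀ y ∈ DD S 0 k, ∀ y' ∈ DD S 0 k, ∀ g ∈ S k, ∀ g' ∈ S k, y * g = y' * g' → g = g'

variable {S : ℕ → Finset A}

lemma Dis.one_mem (h : Dis S) (K n : ℕ) : 1 ∈ DD S K n := by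
  induction n with
  | zero => simp [DD_zero]
  | succ n ih =>
    rw [DD_succ]
    simpa using mul_mem_mul ih (h.one (K + n))

lemma mul_mem_DD {K n : ℕ} {m x : A} (hm : m ∈ DD S 0 K) (hx : x ∈ DD S K n) :
    m * x ∈ DD S 0 (K + n) := by
  rw [DD_add]
  exact mul_mem_mul hm hx

lemma mul_mem_succ {K n : ℕ} {y g : A} (hy : y ∈ DD S K n) (hg : g ∈ S (K + n)) :
    y * g ∈ DD S K (n + 1) := by
  rw [DD_succ]
  exact mul_mem_mul hy hg

lemma Dis.mem_zero (h : Dis S) {K n : ℕ} {x : A} (hx : x ∈ DD S K n) : x ∈ DD S 0 (K + n) := by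
  simpa using mul_mem_DD (h.one_mem 0 K) hx

lemma Dis.mem_mono (h : Dis S) {K n n' : ℕ} (hn : n ≤ n') {x : A} (hx : x ∈ DD S K n) :
    x ∈ DD S K n' := by
  induction hn with
  | refl => exact hx
  | step _ ih => simpa using mul_mem_succ ih (h.one _)

lemma Dis.uniq (h : Dis S) {K : ℕ} {m m' : A} (hm : m ∈ DD S 0 K) (hm' : m' ∈ DD S 0 K) (n : ℕ) :
    ∀ x ∈ DD S K n, ∀ x' ∈ DD S K n, m * x = m' * x' → m = m' := by
  induction n with
  | zero => simp [DD_zero]
  | succ n ih =>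
    intro x hx x' hx' e
    rw [DD_succ, Finset.mem_mul] at hx hx'
    obtain ⟨y, hy, g, hg, rfl⟩ := hx
    obtain ⟨y', hy', g', hg', rfl⟩ := hx'
    rw [← mul_assoc, ← mul_assoc] at e
    have := h.dis (K + n) _ (mul_mem_DD hm hy) _ (mul_mem_DD hm' hy') g hg g' hg' e
    subst this
    exact ih y hy y' hy' (mul_right_cancel e)

/-- the factors -/
def PP (q : ℕ → MA A) (k : ℕ) : MA A := sharp (q k) * q k

/-- level data of a Riesz product -/
structure Lev (S : ℕ → Finset A) (q : ℕ → MA A) : Prop where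
  sq : ∀ k, Supp (q k) (S k)
  sP : ∀ k, Supp (PP q k) (S k)
  one : ∀ k, (PP q k).coeff 1 = 1

variable {q : ℕ → MA A}

lemma pr_PP (q : ℕ → MA A) (K n : ℕ) : pr (PP q) K n = sharp (pr q K n) * pr q K n := by
  simp [pr, PP, prod_mul_distrib]

lemma pr_value (h : Dis S) (hq : Lev S q) {K n : ℕ} {y g : A} (hy : y ∈ DD S K n)
    (hg : g ∈ S (K + n)) :
    (pr (PP q) K (n + 1)).coeff (y * g) = (pr (PP q) K n).coeff y * (PP q (K + n)).coeff g := by
  rw [pr_succ]
  refine coeff_mul_uniq (supp_pr hq.sP K n) (hq.sP _) ?_ hy hg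
  intro m hm m' hm' x hx x' hx' e
  have := h.dis (K + n) _ (h.mem_zero hm) _ (h.mem_zero hm') x hx x' hx' e
  subst this
  exact mul_right_cancel e

lemma pr_stable (h : Dis S) (hq : Lev S q) {K n n' : ℕ} (hn : n ≤ n') {y : A}
    (hy : y ∈ DD S K n) : (pr (PP q) K n').coeff y = (pr (PP q) K n).coeff y := by
  induction hn with
  | refl => rfl
  | @step n' hn ih =>
    have := pr_value h hq (h.mem_mono hn hy) (h.one (K + n'))
    rw [mul_one] at this
    rw [this, ih, hq.one, mul_one]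

lemma pr_one (h : Dis S) (hq : Lev S q) (K n : ℕ) : (pr (PP q) K n).coeff 1 = 1 := by
  rw [pr_stable h hq (Nat.zero_le n) (h.one_mem K 0)]
  simp [pr]

lemma sum_sq_pr (h : Dis S) (hq : Lev S q) (K n : ℕ) :
    ∑ g ∈ DD S K n, ‖(pr q K n).coeff g‖ ^ 2 = 1 := by
  have h1 := pr_one h hq K n
  rw [pr_PP, coeff_sharp_mul _ (supp_pr hq.sq K n)] at h1
  simp only [one_mul, Complex.conj_mul'] at h1
  exact_mod_cast h1

lemma ball_pr (h : Dis S) (hq : Lev S q) (K n : ℕ) : Ball 1 (pr (PP q) K n).coeff := by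
  have h1 := ball_L1 (H := ℂ) (fun g => conj ((pr q K n).coeff g))
    (fun g => conj ((pr q K n).coeff g)) (DD S K n) (DD S K n)
    (fun g hg => by simp [supp_pr hq.sq K n g hg]) (fun g hg => by simp [supp_pr hq.sq K n g hg])
    zero_le_one zero_le_one (by simp [sum_sq_pr h hq]) (by simp [sum_sq_pr h hq])
  rw [one_mul] at h1
  convert h1 using 1
  funext y
  rw [pr_PP, coeff_sharp_mul _ (supp_pr hq.sq K n)]
  simp

/-- the infinite Riesz product from level `K` on -/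
def sl (q : ℕ → MA A) (K : ℕ) (x : A) : ℂ := limUnder atTop fun n => (pr (PP q) K n).coeff x

lemma sl_eq (h : Dis S) (hq : Lev S q) {K n : ℕ} {x : A} (hx : x ∈ DD S K n) :
    sl q K x = (pr (PP q) K n).coeff x := by
  refine Tendsto.limUnder_eq (tendsto_const_nhds.congr' ?_)
  filter_upwards [eventually_ge_atTop n] with n' hn using (pr_stable h hq hn hx).symm

lemma sl_zero (hq : Lev S q) {K : ℕ} {x : A} (hx : ∀ n, x ∉ DD S K n) : sl q K x = 0 := by
  refine Tendsto.limUnder_eq (tendsto_const_nhds.congr fun n => ?_)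
  exact (supp_pr hq.sP K n x (hx n)).symm

lemma sl_tendsto (h : Dis S) (hq : Lev S q) (K : ℕ) (x : A) :
    Tendsto (fun n => (pr (PP q) K n).coeff x) atTop (𝓝 (sl q K x)) := by
  by_cases hx : ∃ n, x ∈ DD S K n
  · obtain ⟨n, hx⟩ := hx
    rw [sl_eq h hq hx]
    refine tendsto_const_nhds.congr' ?_
    filter_upwards [eventually_ge_atTop n] with n' hn using (pr_stable h hq hn hx).symm
  · push Not at hx
    rw [sl_zero hq hx]
    exact tendsto_const_nhds.congr fun n => (supp_pr hq.sP K n x (hx n)).symm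

lemma ball_sl (h : Dis S) (hq : Lev S q) (K : ℕ) : Ball 1 (sl q K) :=
  ball_lim (l := atTop) (fun n => (pr (PP q) K n).coeff) _
    (Eventually.of_forall fun n => ball_pr h hq K n) (sl_tendsto h hq K)

lemma sl_split (h : Dis S) (hq : Lev S q) (K : ℕ) (x : A) :
    sl q 0 x = ∑ m ∈ DD S 0 K, (pr (PP q) 0 K).coeff m * sl q K (m⁻¹ * x) := by
  have h1 := (sl_tendsto h hq 0 x).comp (tendsto_add_atTop_nat K)
  refine tendsto_nhds_unique h1 ?_
  refine (tendsto_finsetSum _ fun m _ => (sl_tendsto h hq K (m⁻¹ * x)).const_mul _).congr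
    fun n => ?_
  simp only [Function.comp_apply]
  rw [add_comm n K, pr_add, coeff_mul_sum _ (supp_pr hq.sP 0 K)]

lemma sl_disj (h : Dis S) (hq : Lev S q) {K : ℕ} {m m' : A} (hm : m ∈ DD S 0 K)
    (hm' : m' ∈ DD S 0 K) (hne : m ≠ m') (x : A) :
    sl q K (m⁻¹ * x) * sl q K (m'⁻¹ * x) = 0 := by
  by_contra h0
  obtain ⟨h1, h2⟩ := mul_ne_zero_iff.1 h0
  have h3 : ∃ n, m⁻¹ * x ∈ DD S K n := by
    by_contra h3
    push Not at h3
    exact h1 (sl_zero hq h3)
  have h4 : ∃ n, m'⁻¹ * x ∈ DD S K n := by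
    by_contra h3
    push Not at h3
    exact h2 (sl_zero hq h3)
  obtain ⟨n, h3⟩ := h3
  obtain ⟨n', h4⟩ := h4
  exact hne (h.uniq hm hm' (max n n') _ (h.mem_mono (le_max_left _ _) h3) _
    (h.mem_mono (le_max_right _ _) h4) (by simp))

lemma sl_one (h : Dis S) (hq : Lev S q) (K : ℕ) : sl q K 1 = 1 := by
  rw [sl_eq h hq (h.one_mem K 0), pr_one h hq]

lemma sl_level (h : Dis S) (hq : Lev S q) {K L : ℕ} (hL : K ≤ L) {g : A} (hg : g ∈ S L) :
    sl q K g = (PP q L).coeff g := by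
  obtain ⟨n, rfl⟩ := Nat.exists_eq_add_of_le hL
  have h1 := pr_value h hq (h.one_mem K n) hg
  have h2 := sl_eq h hq (mul_mem_succ (h.one_mem K n) hg)
  rw [one_mul] at h1 h2
  rw [h2, h1, pr_one h hq, one_mul]

lemma sl_congr {q q' : ℕ → MA A} {K : ℕ} (h : ∀ k, K ≤ k → q k = q' k) : sl q K = sl q' K := by
  funext x
  unfold sl
  congr 1
  funext n
  congr 2
  refine prod_congr rfl fun k _ => ?_
  simp [PP, h (K + k) (Nat.le_add_right _ _)]

/-! ### the key estimate -/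

section key

variable {H : Type} [NormedAddCommGroup H] [InnerProductSpace ℂ H] [CompleteSpace H]

/-- action of a unitary representation -/
def act (U : A →* unitary (H →L[ℂ] H)) (g : A) (v : H) : H := (U g : H →L[ℂ] H) v

variable (U : A →* unitary (H →L[ℂ] H))

lemma act_mul (g h : A) (v : H) : act U (g * h) v = act U g (act U h v) := by
  simp [act]

lemma act_one (v : H) : act U 1 v = v := by simp [act]

lemma norm_act (g : A) (v : H) : ‖act U g v‖ = ‖v‖ := Unitary.norm_map _ _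

lemma act_sub (g : A) (v w : H) : act U g (v - w) = act U g v - act U g w := map_sub _ _ _

lemma inner_act (g : A) (v w : H) : inner ℂ (act U g v) (act U g w) = inner ℂ v w :=
  Unitary.inner_map_map _ _ _

lemma inner_act_inv (g : A) (v w : H) : inner ℂ (act U g⁻¹ v) w = inner ℂ v (act U g w) := by
  rw [← inner_act U g, ← act_mul, mul_inv_cancel, act_one]

lemma norm_act_inv_sub (g : A) (v : H) : ‖act U g⁻¹ v - v‖ = ‖act U g v - v‖ := by
  rw [← norm_act U g, act_sub, ← act_mul, mul_inv_cancel, act_one, norm_sub_rev]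

lemma norm_act_mul_sub (g h : A) (v : H) :
    ‖act U (g * h) v - v‖ ≤ ‖act U g v - v‖ + ‖act U h v - v‖ := by
  have : act U (g * h) v - v = act U g (act U h v - v) + (act U g v - v) := by
    rw [act_sub, act_mul]
    abel
  rw [this, add_comm]
  refine (norm_add_le _ _).trans ?_
  rw [norm_act]

lemma almost_DD {ξ : H} {ε : ℕ → ℝ} (hε : ∀ k, ∀ g ∈ S k, ‖act U g ξ - ξ‖ ≤ ε k) (K n : ℕ) :
    ∀ g ∈ DD S K n, ‖act U g ξ - ξ‖ ≤ ∑ k ∈ range n, ε (K + k) := by
  induction n with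
  | zero => simp [DD_zero, act_one]
  | succ n ih =>
    intro x hx
    rw [DD_succ, Finset.mem_mul] at hx
    obtain ⟨y, hy, g, hg, rfl⟩ := hx
    rw [sum_range_succ]
    exact (norm_act_mul_sub U _ _ _).trans (add_le_add (ih y hy) (hε _ g hg))

lemma key_d (h : Dis S) (hq : Lev S q) (K n : ℕ) {ξ : H} (η : H) {δ : ℝ} (hδ0 : 0 ≤ δ)
    (hδ : ∀ g ∈ DD S K n, ‖act U g ξ - ξ‖ ≤ δ) :
    Ball (2 * ‖η‖ * δ) (fun x => (pr (PP q) K n).coeff x * inner ℂ η (act U x ξ - ξ)) := by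
  set ζ := (pr q K n).coeff with hζ
  have hs : ∀ g ∉ DD S K n, ζ g = 0 := supp_pr hq.sq K n
  have h1 : ∑ g ∈ DD S K n, ‖ζ g‖ ^ 2 = 1 := sum_sq_pr h hq K n
  have hb : ∀ (c : A → ℝ) (C : ℝ), (∀ g ∈ DD S K n, 0 ≤ c g ∧ c g ≤ C) →
      ∑ g ∈ DD S K n, (‖ζ g‖ * c g) ^ 2 ≤ C ^ 2 := by
    intro c C hc
    calc _ ≤ ∑ g ∈ DD S K n, ‖ζ g‖ ^ 2 * C ^ 2 := by
          refine sum_le_sum fun g hg => ?_
          rw [mul_pow]
          exact mul_le_mul_of_nonneg_left (pow_le_pow_left₀ (hc g hg).1 (hc g hg).2 2)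
            (sq_nonneg _)
      _ = C ^ 2 := by rw [← sum_mul, h1, one_mul]
  have t1 := ball_L1 (fun g => conj (ζ g) • act U g⁻¹ η)
    (fun g => conj (ζ g) • (act U g⁻¹ ξ - ξ)) (DD S K n) (DD S K n)
    (fun g hg => by simp [hs g hg]) (fun g hg => by simp [hs g hg]) (norm_nonneg η) hδ0
    (by
      simp only [norm_smul, RCLike.norm_conj]
      exact hb _ _ fun g _ => ⟨norm_nonneg _, (norm_act U _ _).le⟩)
    (by
      simp only [norm_smul, RCLike.norm_conj]
      exact hb _ _ fun g hg => ⟨norm_nonneg _, (norm_act_inv_sub U _ _).le.trans (hδ g hg)⟩)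
  have t2 := ball_L1 (H := ℂ) (fun g => conj (ζ g * inner ℂ η (act U g ξ - ξ)))
    (fun g => conj (ζ g)) (DD S K n) (DD S K n)
    (fun g hg => by simp [hs g hg]) (fun g hg => by simp [hs g hg])
    (mul_nonneg (norm_nonneg η) hδ0) zero_le_one
    (by
      simp only [norm_mul, RCLike.norm_conj]
      exact hb _ _ fun g hg => ⟨norm_nonneg _, (norm_inner_le_norm _ _).trans
        (mul_le_mul_of_nonneg_left (hδ g hg) (norm_nonneg _))⟩)
    (by simp [h1])
  have t3 := t1.add t2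
  have e : ‖η‖ * δ + ‖η‖ * δ * 1 = 2 * ‖η‖ * δ := by ring
  rw [e] at t3
  convert t3 using 1
  funext x
  rw [pr_PP, coeff_sharp_mul _ (supp_pr hq.sq K n), Pi.add_apply, ← sum_add_distrib, sum_mul]
  refine sum_congr rfl fun g _ => ?_
  rw [inner_smul_left, inner_smul_right, inner_act_inv, act_sub, ← act_mul, mul_inv_cancel_right]
  simp only [inner_sub_right, RCLike.inner_apply, Complex.conj_conj, ← hζ]
  ring

lemma sum_fc {fc : A → ℂ} {ε : ℕ → ℝ}
    (hε : ∀ k, ∑ y ∈ DD S 0 k, ∑ g ∈ (S k).erase 1, ‖fc (y * g)‖ ≤ ε k) {K : ℕ} {m : A}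
    (hm : m ∈ DD S 0 K) (n : ℕ) :
    ∑ x ∈ (DD S K n).erase 1, ‖fc (m * x)‖ ≤ ∑ k ∈ range n, ε (K + k) := by
  induction n with
  | zero => simp [DD_zero]
  | succ n ih =>
    rw [sum_range_succ]
    have hsub : (DD S K (n + 1)).erase 1 ⊆ (DD S K n).erase 1 ∪
        ((DD S K n) ×ˢ (S (K + n)).erase 1).image (fun p => p.1 * p.2) := by
      intro x hx
      rw [mem_erase, DD_succ, Finset.mem_mul] at hx
      obtain ⟨hx1, y, hy, g, hg, rfl⟩ := hx
      by_cases hg1 : g = 1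
      · subst hg1
        rw [mul_one] at hx1 ⊢
        exact mem_union_left _ (mem_erase.2 ⟨hx1, hy⟩)
      · exact mem_union_right _ (mem_image.2 ⟨(y, g), mem_product.2 ⟨hy, mem_erase.2 ⟨hg1, hg⟩⟩,
          rfl⟩)
    refine (sum_le_sum_of_subset_of_nonneg hsub fun _ _ _ => norm_nonneg _).trans ?_
    refine (le_of_add_le_of_nonneg_left (sum_union_inter.le)
      (sum_nonneg fun _ _ => norm_nonneg _)).trans (add_le_add ih ?_)
    refine (sum_image_le_of_nonneg fun _ _ => norm_nonneg _).trans (le_trans ?_ (hε (K + n)))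
    rw [sum_product]
    have : ∑ y ∈ DD S K n, ∑ g ∈ (S (K + n)).erase 1, ‖fc (m * (y * g))‖ =
        ∑ y ∈ (DD S K n).image (m * ·), ∑ g ∈ (S (K + n)).erase 1, ‖fc (y * g)‖ := by
      rw [sum_image fun a _ b _ e => mul_left_cancel e]
      simp only [mul_assoc]
    rw [this]
    refine sum_le_sum_of_subset_of_nonneg ?_ fun _ _ _ => sum_nonneg fun _ _ => norm_nonneg _
    intro x hx
    obtain ⟨y, hy, rfl⟩ := mem_image.1 hx
    exact mul_mem_DD hm hy

lemma key_c (h : Dis S) (hq : Lev S q) (K n : ℕ) (u : A → ℂ) :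
    Ball (∑ x ∈ (DD S K n).erase 1, ‖u x‖)
      (fun x => (pr (PP q) K n).coeff x * u x - u 1 * dl 1 x) := by
  refine (ball_l1 _ ((DD S K n).erase 1) fun g hg => ?_).mono (sum_le_sum fun g hg => ?_)
  · by_cases h1 : g = 1
    · simp [h1, pr_one h hq, dl]
    · have : g ∉ DD S K n := fun h2 => hg (mem_erase.2 ⟨h1, h2⟩)
      simp [supp_pr hq.sP K n g this, dl, h1]
  · have h1 := (mem_erase.1 hg).1
    have h2 := (ball_pr h hq K n).bound g
    simp only [dl, h1, if_false, mul_zero, sub_zero, norm_mul]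
    nlinarith [norm_nonneg (u g)]

lemma geom_le (K n : ℕ) : ∑ k ∈ range n, (1 / 2 : ℝ) ^ (K + k) ≤ 2 * (1 / 2) ^ K := by
  simp only [pow_add, ← mul_sum]
  rw [mul_comm]
  exact mul_le_mul_of_nonneg_right (sum_geometric_two_le n) (by positivity)

theorem key (h : Dis S) (hq : Lev S q) {ξ : H} (η : H) {fc : A → ℂ}
    (h1 : ∀ k, ∀ g ∈ S k, ‖act U g ξ - ξ‖ ≤ (1 / 2) ^ k)
    (h2 : ∀ k, ∑ y ∈ DD S 0 k, ∑ g ∈ (S k).erase 1, ‖fc (y * g)‖ ≤ (1 / 2) ^ k) {K : ℕ} {m : A}
    (hm : m ∈ DD S 0 K) :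
    Ball ((4 * ‖η‖ + 2) * (1 / 2) ^ K) (fun y => (inner ℂ η (act U y ξ) + fc y) * sl q K (m⁻¹ * y)
      - inner ℂ η (act U m ξ) * sl q K (m⁻¹ * y) - fc m * dl m y) := by
  have hn : ∀ n, Ball ((4 * ‖η‖ + 2) * (1 / 2) ^ K) (fun y => (inner ℂ η (act U y ξ) + fc y) *
      (pr (PP q) K n).coeff (m⁻¹ * y)
      - inner ℂ η (act U m ξ) * (pr (PP q) K n).coeff (m⁻¹ * y) - fc m * dl m y) := by
    intro n
    have t1 := key_d U h hq K n (ξ := ξ) (act U m⁻¹ η) (δ := 2 * (1 / 2) ^ K) (by positivity)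
      fun g hg => (almost_DD U h1 K n g hg).trans (geom_le K n)
    have t2 := (key_c h hq K n (fun x => fc (m * x))).mono
      ((sum_fc h2 hm n).trans (geom_le K n))
    have t3 := (t1.add t2).shift m
    rw [norm_act] at t3
    convert t3 using 1
    · ring
    · funext y
      simp only [Pi.add_apply, inner_act_inv, ← act_mul, mul_inv_cancel_left, mul_one,
        inner_sub_right, dl, inv_mul_eq_one, eq_comm (a := m)]
      ring
  refine ball_lim (l := atTop) _ _ (Eventually.of_forall hn) fun y => ?_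
  exact (((sl_tendsto h hq K _).const_mul _).sub ((sl_tendsto h hq K _).const_mul _)).sub_const _

end key

end

end Pool.Agent.H565Z.Fs
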