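import Mathlib
import Pool.Agent.H565Z.FsRiesz

set_option autoImplicit false

open scoped ComplexOrder ComplexConjugate Pointwise Classical
open Filter Topology Finset

namespace Pool.Agent.H565Z.Fs

noncomputable section

variable {G : Type} [Group G] {A : Type} [CommGroup A] {ι : A →* G}
  {S : ℕ → Finset A} {q : ℕ → MA A}

/-- extension by zero -/
def ex (ι : A →* G) (u : A → ℂ) : G → ℂ := Function.extend ι u 0

lemma ex_apply (hι : Function.Injective ι) (u : A → ℂ) (a : A) : ex ι u (ι a) = u a :=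
  hι.extend_apply _ _ _

lemma ex_not (u : A → ℂ) {g : G} (hg : ¬ ∃ a, ι a = g) : ex ι u g = 0 :=
  Function.extend_apply' _ _ _ hg

lemma fun_ext_range {u v : G → ℂ} (h1 : ∀ a, u (ι a) = v (ι a))
    (h2 : ∀ g, (¬ ∃ a, ι a = g) → u g = v g) : u = v := by
  funext g
  by_cases hg : ∃ a, ι a = g
  · obtain ⟨a, rfl⟩ := hg
    exact h1 a
  · exact h2 g hg

/-- shifted tails of the Riesz product, on the big group -/
def sg (ι : A →* G) (q : ℕ → MA A) (K : ℕ) (m : A) : G → ℂ := ex ι fun y => sl q K (m⁻¹ * y)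

lemma ball_sg (hι : Function.Injective ι) (h : Dis S) (hq : Lev S q) (K : ℕ) (m : A) :
    Ball 1 (sg ι q K m) := ((ball_sl h hq K).shift m).extend ι hι

lemma sg_disj (hι : Function.Injective ι) (h : Dis S) (hq : Lev S q) {K : ℕ} {m m' : A}
    (hm : m ∈ DD S 0 K) (hm' : m' ∈ DD S 0 K) (hne : m ≠ m') : sg ι q K m * sg ι q K m' = 0 := by
  refine fun_ext_range (ι := ι) (fun a => ?_) fun g hg => ?_
  · simp only [Pi.mul_apply, sg, ex_apply hι, Pi.zero_apply]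
    exact sl_disj h hq hm hm' hne a
  · simp [sg, ex_not _ hg]

lemma sum_sg_apply (hι : Function.Injective ι) (h : Dis S) (hq : Lev S q) {K n : ℕ} {m x : A}
    (hm : m ∈ DD S 0 K) (hx : x ∈ DD S K n) (b : A → ℂ) :
    (∑ m' ∈ DD S 0 K, b m' • sg ι q K m') (ι (m * x)) = b m * sl q K x := by
  rw [Finset.sum_apply, sum_eq_single_of_mem m hm]
  · simp only [Pi.smul_apply, sg, ex_apply hι, inv_mul_cancel_left, smul_eq_mul]
  · intro m' hm' hne
    simp only [Pi.smul_apply, sg, ex_apply hι, smul_eq_mul]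
    rw [sl_zero hq, mul_zero]
    intro n' hn'
    exact hne (h.uniq hm' hm (max n n') _ (h.mem_mono (le_max_right _ _) hn') _
      (h.mem_mono (le_max_left _ _) hx) (by simp))

/-- `β` is a limit of combinations of shifted tails -/
structure AP (ι : A →* G) (S : ℕ → Finset A) (q : ℕ → MA A) (β : G → ℂ) (b : ℕ → A → ℂ)
    (η : ℕ → ℝ) : Prop where
  inB : InB β
  ball : ∀ K, Ball (η K) (β - ∑ m ∈ DD S 0 K, b K m • sg ι q K m)
  lim : Tendsto η atTop (𝓝 0)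

/-- `f` is adapted to the levels -/
structure Dat (ι : A →* G) (S : ℕ → Finset A) (q : ℕ → MA A) (f : G → ℂ) (fd fc : A → ℂ)
    (C : ℝ) : Prop where
  inB : InB f
  pos : 0 ≤ C
  res : ∀ y, f (ι y) = fd y + fc y
  key : ∀ K, ∀ m ∈ DD S 0 K, Ball (C * (1 / 2) ^ K) (fun y => (fd y + fc y) * sl q K (m⁻¹ * y)
      - fd m * sl q K (m⁻¹ * y) - fc m * dl m y)
  lip : ∀ L m, ∀ x ∈ S L, ‖fd (m * x) - fd m‖ ≤ C * (1 / 2) ^ L
  small : ∀ L, ∀ m ∈ DD S 0 L, ∀ x ∈ S L, x ≠ 1 → ‖fc (m * x)‖ ≤ C * (1 / 2) ^ L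

lemma dat_zero (ι : A →* G) (S : ℕ → Finset A) (q : ℕ → MA A) : Dat ι S q 0 0 0 0 where
  inB := ball_zero.inB
  pos := le_rfl
  res := by simp
  key := by
    intro K m _
    simp only [Pi.zero_apply, add_zero, zero_mul, sub_zero]
    exact ball_zero
  lip := by simp
  small := by simp

lemma dat_of (h : Dis S) (hq : Lev S q) {H : Type} [NormedAddCommGroup H] [InnerProductSpace ℂ H]
    [CompleteSpace H] (U : A →* unitary (H →L[ℂ] H)) {f : G → ℂ} (hf : InB f) {ξ η : H}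
    {fc : A → ℂ} (hres : ∀ y, f (ι y) = inner ℂ η (act U y ξ) + fc y)
    (h1 : ∀ k, ∀ g ∈ S k, ‖act U g ξ - ξ‖ ≤ (1 / 2) ^ k)
    (h2 : ∀ k, ∑ y ∈ DD S 0 k, ∑ g ∈ (S k).erase 1, ‖fc (y * g)‖ ≤ (1 / 2) ^ k) :
    Dat ι S q f (fun y => inner ℂ η (act U y ξ)) fc (4 * ‖η‖ + 2) where
  inB := hf
  pos := by positivity
  res := hres
  key := fun K m hm => key U h hq η h1 h2 hm
  lip := by
    intro L m x hx
    rw [← inner_sub_right, act_mul, ← act_sub]
    refine (norm_inner_le_norm _ _).trans ?_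
    rw [norm_act]
    refine mul_le_mul (by linarith [norm_nonneg η]) (h1 L x hx) (norm_nonneg _) (by positivity)
  small := by
    intro L m hm x hx hx1
    have t1 : ‖fc (m * x)‖ ≤ ∑ g ∈ (S L).erase 1, ‖fc (m * g)‖ :=
      single_le_sum (f := fun g => ‖fc (m * g)‖) (fun _ _ => norm_nonneg _) (mem_erase.2 ⟨hx1, hx⟩)
    have t2 : ∑ g ∈ (S L).erase 1, ‖fc (m * g)‖ ≤ ∑ y ∈ DD S 0 L, ∑ g ∈ (S L).erase 1,
        ‖fc (y * g)‖ := single_le_sum (f := fun y => ∑ g ∈ (S L).erase 1, ‖fc (y * g)‖)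
      (fun _ _ => sum_nonneg fun _ _ => norm_nonneg _) hm
    have t3 := h2 L
    have t4 : (0 : ℝ) ≤ (1 / 2) ^ L := by positivity
    nlinarith [norm_nonneg η]

variable {β f : G → ℂ} {b : ℕ → A → ℂ} {η : ℕ → ℝ} {fd fc : A → ℂ} {C : ℝ}

lemma Dat.near (h : Dis S) (hf : Dat ι S q f fd fc C) {K L : ℕ} (hL : K ≤ L) {m x : A}
    (hm : m ∈ DD S 0 K) (hx : x ∈ S L) (hx1 : x ≠ 1) :
    ‖f (ι (m * x)) - fd m‖ ≤ 2 * C * (1 / 2) ^ L := by
  have t1 := hf.lip L m x hx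
  have t2 := hf.small L m (h.mem_mono hL hm) x hx hx1
  have : f (ι (m * x)) - fd m = (fd (m * x) - fd m) + fc (m * x) := by
    rw [hf.res]
    ring
  rw [this]
  linarith [norm_add_le (fd (m * x) - fd m) (fc (m * x))]

lemma Dis.level_mem (h : Dis S) {K L : ℕ} (hL : K ≤ L) {x : A} (hx : x ∈ S L) :
    x ∈ DD S K (L - K + 1) := by
  obtain ⟨n, rfl⟩ := Nat.exists_eq_add_of_le hL
  simpa using mul_mem_succ (h.one_mem K n) hx

lemma AP.near (hι : Function.Injective ι) (h : Dis S) (hq : Lev S q) (hβ : AP ι S q β b η)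
    {K L : ℕ} (hL : K ≤ L) {m x : A} (hm : m ∈ DD S 0 K) (hx : x ∈ S L) :
    ‖β (ι (m * x)) - b K m * (PP q L).coeff x‖ ≤ η K := by
  have := (hβ.ball K).bound (ι (m * x))
  rwa [Pi.sub_apply, sum_sg_apply hι h hq hm (h.level_mem hL hx), sl_level h hq hL hx] at this

lemma Dat.char (hι : Function.Injective ι) (h : Dis S) (hq : Lev S q) (hf : Dat ι S q f fd fc C)
    {φ : (G → ℂ) → ℂ} (hφ : IsChar φ) (h0 : ∀ g, φ (dl g) = 0) {K : ℕ} {m : A}
    (hm : m ∈ DD S 0 K) : ‖φ f - fd m‖ * ‖φ (sg ι q K m)‖ ≤ C * (1 / 2) ^ K := by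
  have t1 := (hf.key K m hm).extend ι hι
  have hs := (ball_sg hι h hq K m).inB
  have e : Function.extend ι (fun y => (fd y + fc y) * sl q K (m⁻¹ * y)
      - fd m * sl q K (m⁻¹ * y) - fc m * dl m y) 0 =
      f * sg ι q K m - fd m • sg ι q K m - fc m • dl (ι m) := by
    refine fun_ext_range (ι := ι) (fun a => ?_) fun g hg => ?_
    · rw [hι.extend_apply]
      simp [sg, ex_apply hι, hf.res, dl, hι.eq_iff]
    · rw [Function.extend_apply' _ _ _ hg]
      have : g ≠ ι m := fun e => hg ⟨m, e.symm⟩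
      simp [sg, ex_not _ hg, dl, this]
  rw [e] at t1
  have t2 := hφ.bound t1
  rw [hφ.sub ((hf.inB.mul hs).sub (hs.smul _)) ((ball_dl _).inB.smul _),
    hφ.sub (hf.inB.mul hs) (hs.smul _), hφ.mul hf.inB hs, hφ.smul hs, hφ.smul (ball_dl _).inB,
    h0, mul_zero, sub_zero, ← sub_mul, norm_mul] at t2
  exact t2

theorem char_mem (hι : Function.Injective ι) (h : Dis S) (hq : Lev S q)
    (hf : Dat ι S q f fd fc C) (hβ : AP ι S q β b η) {φ : (G → ℂ) → ℂ} (hφ : IsChar φ)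
    (hH : ∀ K, ∀ m ∈ DD S 0 K, φ (sg ι q K m) ≠ 0 → ∀ ε > 0, ∃ L, K ≤ L ∧ ∃ x ∈ S L, x ≠ 1 ∧
      ‖(PP q L).coeff x - φ (sg ι q K m)‖ < ε)
    (hne : φ β ≠ 0) : φ (f - β) ∈ closure (Set.range (f - β)) := by
  by_cases h0 : ∃ g, φ (dl g) ≠ 0
  · obtain ⟨g, hg⟩ := h0
    rw [hφ.eval hg (hf.inB.sub hβ.inB)]
    exact subset_closure ⟨g, rfl⟩
  push Not at h0
  obtain ⟨B, hB⟩ := hβ.inB
  set κ := ‖φ β‖ with hκ
  have hκ0 : 0 < κ := norm_pos_iff.2 hne
  have hB0 := hB.nonneg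
  rw [Metric.mem_closure_iff]
  intro ε hε
  have hδ : Tendsto (fun K : ℕ => C * (1 / 2 : ℝ) ^ K) atTop (𝓝 0) := by
    simpa using (tendsto_pow_atTop_nhds_zero_of_lt_one (r := (1 / 2 : ℝ)) (by norm_num)
      (by norm_num)).const_mul C
  have hT : Tendsto (fun K : ℕ => (2 * (B + κ) / κ + 2) * (C * (1 / 2 : ℝ) ^ K) + 2 * η K) atTop
      (𝓝 0) := by
    simpa using (hδ.const_mul (2 * (B + κ) / κ + 2)).add (hβ.lim.const_mul 2)
  obtain ⟨K, hK1, hK2⟩ := ((hT.eventually (gt_mem_nhds (half_pos hε))).and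
    (hβ.lim.eventually (gt_mem_nhds (half_pos hκ0)))).exists
  set δ := C * (1 / 2 : ℝ) ^ K with hδdef
  have hδ0 : 0 ≤ δ := mul_nonneg hf.pos (by positivity)
  have hs := fun m => (ball_sg hι h hq K m).inB
  have t1 := hφ.bound (hβ.ball K)
  rw [hφ.sub hβ.inB (inB_sum _ _ fun m _ => (hs m).smul _), hφ.sum _ _ fun m _ => (hs m).smul _]
    at t1
  simp only [hφ.smul (hs _)] at t1
  have hex : ∃ m ∈ DD S 0 K, φ (sg ι q K m) ≠ 0 := by
    by_contra hcon
    push Not at hcon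
    rw [sum_eq_zero fun m hm => by rw [hcon m hm, mul_zero], sub_zero] at t1
    linarith
  obtain ⟨m, hm, hm0⟩ := hex
  rw [sum_eq_single_of_mem m hm fun m' hm' hne' => by
    have := hφ.mul (hs m') (hs m)
    rw [sg_disj hι h hq hm' hm hne', hφ.zero] at this
    rw [(mul_eq_zero.1 this.symm).resolve_right hm0, mul_zero]] at t1
  set lam := φ (sg ι q K m) with hlam
  have t2 : ‖b K m‖ ≤ B + κ := by
    have u1 := hβ.near hι h hq le_rfl hm (h.one K)
    rw [hq.one, mul_one, mul_one] at u1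
    have u2 := hB.bound (ι m)
    have u3 := norm_sub_norm_le (b K m) (β (ι m))
    rw [norm_sub_rev] at u3
    linarith
  have t3 := hf.char hι h hq hφ h0 hm
  obtain ⟨L, hL, x, hx, hx1, t4⟩ := hH K m hm hm0 (ε / (2 * (B + κ))) (by positivity)
  have t5 := hβ.near hι h hq hL hm hx
  have t6 := hf.near h hL hm hx hx1
  have t7 : 2 * C * (1 / 2 : ℝ) ^ L ≤ 2 * δ := by
    rw [hδdef, mul_assoc]
    exact mul_le_mul_of_nonneg_left (mul_le_mul_of_nonneg_left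
      (pow_le_pow_of_le_one (by norm_num) (by norm_num) hL) hf.pos) (by norm_num)
  have t8 : κ / 2 ≤ (B + κ) * ‖lam‖ := by
    have u1 := norm_sub_norm_le (φ β) (b K m * lam)
    rw [norm_mul] at u1
    have u2 := mul_le_mul_of_nonneg_right t2 (norm_nonneg lam)
    linarith
  have t9 : ‖φ f - fd m‖ ≤ 2 * (B + κ) / κ * δ := by
    rw [div_mul_eq_mul_div, le_div_iff₀ hκ0]
    have u1 := mul_le_mul_of_nonneg_left t8 (norm_nonneg (φ f - fd m))
    have u2 := mul_le_mul_of_nonneg_left t3 (show 0 ≤ B + κ by positivity)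
    nlinarith
  have t10 : ‖b K m * ((PP q L).coeff x - lam)‖ ≤ ε / 2 := by
    rw [norm_mul]
    refine (mul_le_mul t2 t4.le (norm_nonneg _) (by positivity)).trans (le_of_eq ?_)
    field_simp
  refine ⟨_, ⟨ι (m * x), rfl⟩, ?_⟩
  rw [dist_eq_norm, hφ.sub hf.inB hβ.inB, Pi.sub_apply]
  have e : φ f - φ β - (f (ι (m * x)) - β (ι (m * x))) = (φ f - fd m) - (f (ι (m * x)) - fd m)
      - (φ β - b K m * lam) + (β (ι (m * x)) - b K m * (PP q L).coeff x)
      + b K m * ((PP q L).coeff x - lam) := by ring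
  rw [e]
  have u1 := norm_add_le ((φ f - fd m) - (f (ι (m * x)) - fd m)
      - (φ β - b K m * lam) + (β (ι (m * x)) - b K m * (PP q L).coeff x))
      (b K m * ((PP q L).coeff x - lam))
  have u2 := norm_add_le ((φ f - fd m) - (f (ι (m * x)) - fd m)
      - (φ β - b K m * lam)) (β (ι (m * x)) - b K m * (PP q L).coeff x)
  have u3 := norm_sub_le ((φ f - fd m) - (f (ι (m * x)) - fd m)) (φ β - b K m * lam)
  have u4 := norm_sub_le (φ f - fd m) (f (ι (m * x)) - fd m)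
  linarith

theorem decomp (hι : Function.Injective ι) (h : Dis S) (hq : Lev S q)
    (hf : Dat ι S q f fd fc C) (hβ : AP ι S q β b η)
    (hH : ∀ φ : (G → ℂ) → ℂ, IsChar φ → ∀ K, ∀ m ∈ DD S 0 K, φ (sg ι q K m) ≠ 0 → ∀ ε > 0,
      ∃ L, K ≤ L ∧ ∃ x ∈ S L, x ≠ 1 ∧ ‖(PP q L).coeff x - φ (sg ι q K m)‖ < ε)
    {R : ℝ} (hR : Ball R f) (h1 : ∀ z : ℂ, ‖z‖ ≤ R → z ∈ closure (Set.range (f - β)))
    (h2 : (0 : ℂ) ∈ closure (Set.range (0 - β))) :
    ∃ f₁ f₂, InB f₁ ∧ InB f₂ ∧ Natural f₁ ∧ Natural f₂ ∧ f = f₁ + f₂ := by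
  refine ⟨f - β, β, hf.inB.sub hβ.inB, hβ.inB, natural_of_chars (hf.inB.sub hβ.inB) fun φ hφ => ?_,
    natural_of_chars hβ.inB fun φ hφ => ?_, by simp⟩
  · by_cases h0 : φ β = 0
    · rw [hφ.sub hf.inB hβ.inB, h0, sub_zero]
      exact h1 _ (hφ.bound hR)
    · exact char_mem hι h hq hf hβ hφ (hH φ hφ) h0
  · have h3 : φ (0 - β) ∈ closure (Set.range (0 - β)) := by
      by_cases h0 : φ β = 0
      · rw [hφ.sub ball_zero.inB hβ.inB, h0, hφ.zero, sub_zero]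
        exact h2
      · exact char_mem hι h hq (dat_zero ι S q) hβ hφ (hH φ hφ) h0
    rw [hφ.sub ball_zero.inB hβ.inB, hφ.zero] at h3
    have h4 := map_mem_closure (f := fun z : ℂ => -z) (t := Set.range β) continuous_neg h3 (by
      rintro _ ⟨g, rfl⟩
      exact ⟨g, by simp⟩)
    simpa using h4

end

end Pool.Agent.H565Z.Fs
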