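import Mathlib

set_option autoImplicit false

namespace Pool.Agent.H565Z.Fs

/-- The coefficient function `g ↦ ⟪η, π g ξ⟫` of a unitary representation `π` (a homomorphism into
the group of surjective complex-linear isometries of `H`). -/
noncomputable def coefficient {G H : Type} [Group G] [NormedAddCommGroup H] [InnerProductSpace ℂ H]
    (π : G →* (H ≃ₗᵢ[ℂ] H)) (ξ η : H) : G → ℂ :=
  fun g => inner ℂ η (π g ξ)

/-- The Fourier-Stieltjes algebra `B(G)` as a set: all coefficient functions of unitary
representations of `G` on complex Hilbert spaces. -/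
def FourierStieltjes (G : Type) [Group G] : Set (G → ℂ) :=
  {f : G → ℂ | ∃ (H : Type) (_ : NormedAddCommGroup H) (_ : InnerProductSpace ℂ H)
    (_ : CompleteSpace H) (π : G →* (H ≃ₗᵢ[ℂ] H)) (ξ η : H), f = coefficient π ξ η}

/-- The spectrum of `f` in `B(G)`: the `z` such that `f - z` has no inverse in `B(G)`. -/
def fsSpectrum {G : Type} [Group G] (f : G → ℂ) : Set ℂ :=
  {z : ℂ | ¬ ∃ h ∈ FourierStieltjes G, ∀ g : G, (f g - z) * h g = 1}

/-- `NS(G)`: the elements of `B(G)` with natural spectrum. -/
def NaturalSpectrum (G : Type) [Group G] : Set (G → ℂ) :=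
  {f : G → ℂ | f ∈ FourierStieltjes G ∧ fsSpectrum f = closure (Set.range f)}

end Pool.Agent.H565Z.Fs
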