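import Mathlib
import Pool.Agent.H565Z.FsRiesz

set_option autoImplicit false

open scoped ComplexOrder ComplexConjugate Pointwise Classical
open Filter Topology

namespace Pool.Agent.H565Z.Fs

noncomputable section

variable {A : Type} [CommGroup A]

attribute [local instance] Ultrafilter.mul Ultrafilter.semigroup

lemma exists_idem [Infinite A] : ∃ p : Ultrafilter A, (∀ a : A, ∀ᶠ t in (p : Filter A), t ≠ a) ∧
    ∀ P : A → Prop, (∀ᶠ t in p, P t) ↔ ∀ᶠ s in p, ∀ᶠ t in p, P (s * t) := by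
  obtain ⟨p, hp, hpp⟩ := exists_idempotent_in_compact_subsemigroup
    (Ultrafilter.continuous_mul_left (M := A)) (⋂ a : A, {p : Ultrafilter A | ∀ᶠ t in p, t ≠ a})
    ⟨hyperfilter A, Set.mem_iInter.2 fun a =>
      le_cofinite_iff_eventually_ne.1 hyperfilter_le_cofinite a⟩
    (IsClosed.isCompact (isClosed_iInter fun a => ultrafilter_isClosed_basic _)) (by
      intro p _ q hq
      rw [Set.mem_iInter] at hq ⊢
      intro a
      rw [Set.mem_ofPred_eq, Ultrafilter.eventually_mul]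
      refine Eventually.of_forall fun m => ?_
      filter_upwards [hq (m⁻¹ * a)] with t ht e
      exact ht (by rw [← e]; simp))
  refine ⟨p, fun a => Set.mem_iInter.1 hp a, fun P => ?_⟩
  rw [← Ultrafilter.eventually_mul, hpp]

variable {H : Type} [NormedAddCommGroup H] [InnerProductSpace ℂ H] [CompleteSpace H]

lemma ultra_lim {I : Type} (p : Ultrafilter I) (g : I → ℂ) (r : ℝ) (hg : ∀ i, ‖g i‖ ≤ r) :
    ∃ z, Tendsto g p (𝓝 z) := by
  obtain ⟨z, -, hz⟩ := (isCompact_closedBall (0 : ℂ) r).ultrafilter_le_nhds (p.map g) (by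
    rw [le_principal_iff, Ultrafilter.coe_map, mem_map]
    exact Eventually.of_forall fun i => by simpa using hg i)
  exact ⟨z, hz⟩

lemma weak_lim {I : Type} (p : Ultrafilter I) (v : I → H) (r : ℝ) (hv : ∀ i, ‖v i‖ ≤ r) :
    ∃ w : H, ∀ η, Tendsto (fun i => inner ℂ η (v i)) p (𝓝 (inner ℂ η w)) := by
  have h1 : ∀ η : H, ∃ z, Tendsto (fun i => inner ℂ (v i) η) p (𝓝 z) := fun η =>
    ultra_lim p _ (r * ‖η‖) fun i => (norm_inner_le_norm _ _).trans
      (mul_le_mul_of_nonneg_right (hv i) (norm_nonneg _))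
  choose L hL using h1
  let L' : H →ₗ[ℂ] ℂ :=
    { toFun := L
      map_add' := fun a b => tendsto_nhds_unique (hL (a + b)) (by
        simpa only [inner_add_right] using (hL a).add (hL b))
      map_smul' := fun c a => tendsto_nhds_unique (hL (c • a)) (by
        simp only [inner_smul_right]
        exact (hL a).const_mul c) }
  let L'' : H →L[ℂ] ℂ := L'.mkContinuous r fun η => le_of_tendsto (hL η).norm
    (Eventually.of_forall fun i => (norm_inner_le_norm _ _).trans
      (mul_le_mul_of_nonneg_right (hv i) (norm_nonneg _)))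
  refine ⟨(InnerProductSpace.toDual ℂ H).symm L'', fun η => ?_⟩
  have h2 : inner ℂ ((InnerProductSpace.toDual ℂ H).symm L'') η = L η :=
    InnerProductSpace.toDual_symm_apply
  have h3 := (Complex.continuous_conj.tendsto _).comp (hL η)
  rw [← h2, inner_conj_symm] at h3
  refine h3.congr fun i => ?_
  simp

variable (U : A →* unitary (H →L[ℂ] H))

/-- weak mixing on the orthocomplement of the rigid vectors -/
lemma weak_zero (p : Ultrafilter A)
    (hp : ∀ P : A → Prop, (∀ᶠ t in p, P t) ↔ ∀ᶠ s in p, ∀ᶠ t in p, P (s * t)) (k : ℤ) (w : H)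
    (hw : ∀ v, Tendsto (fun t => act U (t ^ k) v) p (𝓝 v) → inner ℂ v w = 0) (η : H) :
    Tendsto (fun t => inner ℂ η (act U (t ^ k) w)) p (𝓝 0) := by
  obtain ⟨w', hw'⟩ := weak_lim p (fun t => act U (t ^ k) w) ‖w‖ fun t => (norm_act U _ _).le
  have h1 : Tendsto (fun s => inner ℂ w' (act U (s ^ k) w')) p (𝓝 (inner ℂ w' w')) := by
    rw [Metric.tendsto_nhds]
    intro ε hε
    have h2 := Metric.tendsto_nhds.1 (hw' w') (ε / 2) (half_pos hε)
    rw [hp] at h2
    filter_upwards [h2] with s hs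
    have h3 := hw' (act U (s ^ k)⁻¹ w')
    simp only [inner_act_inv, ← act_mul, ← mul_zpow] at h3
    have h4 := le_of_tendsto (h3.dist tendsto_const_nhds) (hs.mono fun t ht => ht.le)
    linarith
  have h2 : Tendsto (fun s => ‖act U (s ^ k) w' - w'‖ ^ 2) p (𝓝 0) := by
    have h3 := ((Complex.continuous_re.tendsto _).comp h1).const_mul 2
    have h4 := h3.const_sub (2 * ‖w'‖ ^ 2)
    have e : 2 * ‖w'‖ ^ 2 - 2 * (inner ℂ w' w').re = 0 := by
      rw [← inner_self_eq_norm_sq (𝕜 := ℂ)]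
      simp
    rw [e] at h4
    refine h4.congr fun s => ?_
    rw [norm_sub_rev, @norm_sub_sq ℂ, norm_act]
    simp only [Function.comp_apply, RCLike.re_to_complex]
    ring
  have h3 : Tendsto (fun s => ‖act U (s ^ k) w' - w'‖) p (𝓝 0) := by
    have := h2.sqrt
    simpa using this
  have h4 : inner ℂ w' w = 0 := hw w' (tendsto_iff_norm_sub_tendsto_zero.2 h3)
  have h5 : Tendsto (fun s => act U (s ^ k)⁻¹ w') p (𝓝 w') := by
    rw [tendsto_iff_norm_sub_tendsto_zero]
    simpa only [norm_act_inv_sub] using h3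
  have h6 : Tendsto (fun s => inner ℂ w' (act U (s ^ k) w)) p (𝓝 (inner ℂ w' w)) := by
    simpa only [inner_act_inv] using h5.inner (𝕜 := ℂ) (tendsto_const_nhds (x := w))
  have h7 : w' = 0 := by
    have := tendsto_nhds_unique (hw' w') h6
    rw [h4] at this
    exact inner_self_eq_zero.1 this
  simpa [h7] using hw' η

lemma norm_act_pow_sub (g : A) (v : H) (n : ℕ) :
    ‖act U (g ^ n) v - v‖ ≤ n * ‖act U g v - v‖ := by
  induction n with
  | zero => simp [act_one]
  | succ n ih =>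
    rw [pow_succ]
    refine (norm_act_mul_sub U _ _ _).trans ?_
    push_cast
    linarith

lemma norm_act_zpow_sub (g : A) (v : H) (j : ℤ) :
    ‖act U (g ^ j) v - v‖ ≤ j.natAbs * ‖act U g v - v‖ := by
  rcases Int.natAbs_eq j with h | h
  · conv_lhs => rw [h, zpow_natCast]
    exact norm_act_pow_sub U g v _
  · conv_lhs => rw [h, zpow_neg, zpow_natCast, norm_act_inv_sub]
    exact norm_act_pow_sub U g v _

lemma tendsto_act_zpow {I : Type} {l : Filter I} {g : I → A} {v : H}
    (h : Tendsto (fun i => act U (g i) v) l (𝓝 v)) (j : ℤ) :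
    Tendsto (fun i => act U (g i ^ j) v) l (𝓝 v) := by
  rw [tendsto_iff_norm_sub_tendsto_zero] at h ⊢
  refine squeeze_zero (fun _ => norm_nonneg _) (fun i => norm_act_zpow_sub U (g i) v j) ?_
  simpa using h.const_mul (j.natAbs : ℝ)

/-- exponents with finite torsion -/
def JJ (A : Type) [CommGroup A] : Submonoid ℤ where
  carrier := {k | Tendsto (fun t : A => t ^ k) cofinite cofinite}
  one_mem' := by
    simp only [Set.mem_ofPred_eq, zpow_one]
    exact tendsto_id
  mul_mem' := fun {a b} ha hb => by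
    simp only [Set.mem_ofPred_eq, zpow_mul]
    exact Tendsto.comp hb ha

/-- rigid vectors along a filter -/
def rig (l : Filter A) : Submodule ℂ H where
  carrier := {v | Tendsto (fun t => act U t v) l (𝓝 v)}
  zero_mem' := by simpa [act] using tendsto_const_nhds
  add_mem' := fun {a b} ha hb => by simpa [act] using Tendsto.add ha hb
  smul_mem' := fun c a ha => by simpa [act] using Tendsto.const_smul ha c

lemma isClosed_rig (l : Filter A) : IsClosed (rig U l : Set H) := by
  refine isClosed_of_closure_subset fun v hv => ?_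
  change Tendsto (fun t => act U t v) l (𝓝 v)
  rw [Metric.tendsto_nhds]
  intro ε hε
  obtain ⟨w, hw, hvw⟩ := Metric.mem_closure_iff.1 hv (ε / 3) (by positivity)
  filter_upwards [Metric.tendsto_nhds.1 hw (ε / 3) (by positivity)] with t ht
  have h1 : dist (act U t v) (act U t w) = dist v w := by
    rw [dist_eq_norm, dist_eq_norm, ← act_sub, norm_act]
  have h2 := dist_triangle4 (act U t v) (act U t w) w v
  rw [dist_comm w v] at h2
  linarith

theorem exists_filter [Infinite A] (ξ : H) : ∃ (ξd ξc : H) (l : Filter A), l.NeBot ∧ ξ = ξd + ξc ∧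
    (∀ j : ℤ, Tendsto (fun t => act U (t ^ j) ξd) l (𝓝 ξd)) ∧
    (∀ j ∈ JJ A, ∀ η, Tendsto (fun t => inner ℂ η (act U (t ^ j) ξc)) l (𝓝 0)) ∧
    (∀ j ∈ JJ A, ∀ a, ∀ᶠ t in l, t ^ j ≠ a) := by
  obtain ⟨p, hp1, hp2⟩ := exists_idem (A := A)
  let e : ℕ → ℤ := fun n => ∏ k ∈ (Finset.Icc (-n : ℤ) n).filter (· ∈ JJ A), k
  have he1 : ∀ n, e n ∈ JJ A := fun n => prod_mem fun k hk => (Finset.mem_filter.1 hk).2
  have he2 : ∀ k ∈ JJ A, ∀ᶠ n in atTop, k ∣ e n := by
    intro k hk
    filter_upwards [eventually_ge_atTop k.natAbs] with n hn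
    refine Finset.dvd_prod_of_mem _ (Finset.mem_filter.2 ⟨Finset.mem_Icc.2 ?_, hk⟩)
    omega
  let l : Filter A := atTop.bind fun n => map (· ^ e n) p
  have hl : ∀ P : A → Prop, (∀ᶠ n in atTop, ∀ᶠ t in p, P (t ^ e n)) ↔ ∀ᶠ t in l, P t :=
    fun P => Iff.rfl
  have hlt : ∀ {X : Type} [TopologicalSpace X] (g : A → X) (x : X),
      (∀ᶠ n in atTop, Tendsto (fun t => g (t ^ e n)) p (𝓝 x)) → Tendsto g l (𝓝 x) := by
    intro X _ g x h s hs
    refine (hl (fun t => g t ∈ s)).1 ?_
    filter_upwards [h] with n hn using hn hs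
  have : CompleteSpace (rig U l) := (isClosed_rig U l).completeSpace_coe
  obtain ⟨ξd, hd, ξc, hc, hξ⟩ := (rig U l).exists_add_mem_mem_orthogonal ξ
  refine ⟨ξd, ξc, l, ?_, hξ, fun j => tendsto_act_zpow U hd j, fun j hj η => ?_,
    fun j hj a => ?_⟩
  · rw [← eventually_false_iff_eq_bot.not.trans neBot_iff.symm, ← hl]
    intro h
    obtain ⟨n, hn⟩ := h.exists
    exact hn.exists.elim fun _ h => h
  · refine hlt _ _ (Eventually.of_forall fun n => ?_)
    simp only [← zpow_mul]
    refine weak_zero U p hp2 _ ξc (fun v hv => ?_) η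
    refine Submodule.inner_right_of_mem_orthogonal (K := rig U l) ?_ hc
    refine hlt (fun t => act U t v) v ?_
    filter_upwards [he2 _ (mul_mem (he1 n) hj)] with n' ⟨c, hc⟩
    simpa only [hc, zpow_mul] using tendsto_act_zpow U hv c
  · refine (hl _).1 (Eventually.of_forall fun n => ?_)
    simp only [← zpow_mul]
    have h1 : Tendsto (fun t : A => t ^ (e n * j)) cofinite cofinite := mul_mem (he1 n) hj
    exact (h1.mono_left (le_cofinite_iff_eventually_ne.2 hp1)).eventually
      (le_cofinite_iff_eventually_ne.1 le_rfl a)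

/-- level sets of powers -/
def SS (I : ℕ → Finset ℤ) (t : ℕ → A) (k : ℕ) : Finset A := (I k).image fun j => t k ^ j

theorem exists_levels [Infinite A] (ξ η : H) (I : ℕ → Finset ℤ) (hI0 : ∀ k, 0 ∈ I k)
    (hI : ∀ k, ∀ j ∈ I k, ∀ j' ∈ I k, j ≠ j' → j - j' ∈ JJ A) :
    ∃ (ξd ξc : H) (t : ℕ → A), ξ = ξd + ξc ∧ Dis (SS I t) ∧
      (∀ k, ∀ j ∈ I k, ∀ j' ∈ I k, t k ^ j = t k ^ j' → j = j') ∧
      (∀ k, ∀ g ∈ SS I t k, ‖act U g ξd - ξd‖ ≤ (1 / 2) ^ k) ∧
      ∀ k, ∑ y ∈ DD (SS I t) 0 k, ∑ g ∈ (SS I t k).erase 1,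
        ‖inner ℂ η (act U (y * g) ξc)‖ ≤ (1 / 2) ^ k := by
  obtain ⟨ξd, ξc, l, _, hξ, h1, h2, h3⟩ := exists_filter U ξ
  have key : ∀ (k : ℕ) (D : Finset A), ∃ t : A,
      (∀ y ∈ D, ∀ y' ∈ D, ∀ j ∈ I k, ∀ j' ∈ I k, y * t ^ j = y' * t ^ j' → j = j') ∧
      (∀ j ∈ I k, ‖act U (t ^ j) ξd - ξd‖ ≤ (1 / 2) ^ k) ∧
      ∑ y ∈ D, ∑ j ∈ (I k).erase 0, ‖inner ℂ η (act U (y * t ^ j) ξc)‖ ≤ (1 / 2) ^ k := by
    intro k D
    refine Eventually.exists (f := l) (Eventually.and ?_ (Eventually.and ?_ ?_))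
    · simp only [eventually_all_finset]
      intro y _ y' _ j hj j' hj'
      by_cases hne : j = j'
      · exact Eventually.of_forall fun _ _ => hne
      · filter_upwards [h3 _ (hI k j hj j' hj' hne) (y⁻¹ * y')] with t ht e
        refine absurd ?_ ht
        rw [zpow_sub, eq_inv_mul_iff_mul_eq, ← mul_assoc, e]
        simp
    · simp only [eventually_all_finset]
      intro j _
      have := tendsto_iff_norm_sub_tendsto_zero.1 (h1 j)
      exact this.eventually (ge_mem_nhds (by positivity))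
    · have : Tendsto (fun t => ∑ y ∈ D, ∑ j ∈ (I k).erase 0, ‖inner ℂ η (act U (y * t ^ j) ξc)‖) l
          (𝓝 (∑ y ∈ D, ∑ j ∈ (I k).erase 0, 0)) := by
        refine tendsto_finsetSum _ fun y _ => tendsto_finsetSum _ fun j hj => ?_
        have h4 := hI k j (Finset.mem_erase.1 hj).2 0 (hI0 k) (Finset.mem_erase.1 hj).1
        rw [sub_zero] at h4
        simpa only [inner_act_inv, ← act_mul, norm_zero] using (h2 j h4 (act U y⁻¹ η)).norm
      simp only [Finset.sum_const_zero] at this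
      exact this.eventually (ge_mem_nhds (by positivity))
  choose T hT using key
  let D : ℕ → Finset A := fun k => Nat.rec {1}
    (fun k D => D * (I k).image fun j => T k D ^ j) k
  let t : ℕ → A := fun k => T k (D k)
  have hD : ∀ k, DD (SS I t) 0 k = D k := by
    intro k
    induction k with
    | zero => exact DD_zero _ _
    | succ k ih =>
      rw [DD_succ, ih, zero_add]
      rfl
  have hone : ∀ k, 1 ∈ SS I t k := fun k => Finset.mem_image.2 ⟨0, hI0 k, zpow_zero _⟩
  have hDis : Dis (SS I t) := by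
    refine ⟨hone, fun k y hy y' hy' g hg g' hg' e => ?_⟩
    obtain ⟨j, hj, rfl⟩ := Finset.mem_image.1 hg
    obtain ⟨j', hj', rfl⟩ := Finset.mem_image.1 hg'
    rw [hD] at hy hy'
    rw [(hT k (D k)).1 y hy y' hy' j hj j' hj' e]
  refine ⟨ξd, ξc, t, hξ, hDis, fun k j hj j' hj' e => ?_, fun k g hg => ?_, fun k => ?_⟩
  · have h1 := hDis.one_mem 0 k
    rw [hD] at h1
    exact (hT k (D k)).1 1 h1 1 h1 j hj j' hj' (by rw [one_mul, one_mul]; exact e)
  · obtain ⟨j, hj, rfl⟩ := Finset.mem_image.1 hg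
    exact (hT k (D k)).2.1 j hj
  · rw [hD]
    refine le_trans (Finset.sum_le_sum fun y _ => ?_) (hT k (D k)).2.2
    have hsub : (SS I t k).erase 1 ⊆ ((I k).erase 0).image fun j => t k ^ j := by
      intro g hg
      obtain ⟨hg1, hg⟩ := Finset.mem_erase.1 hg
      obtain ⟨j, hj, rfl⟩ := Finset.mem_image.1 hg
      refine Finset.mem_image.2 ⟨j, Finset.mem_erase.2 ⟨?_, hj⟩, rfl⟩
      rintro rfl
      exact hg1 (zpow_zero _)
    refine (Finset.sum_le_sum_of_subset_of_nonneg hsub fun _ _ _ => norm_nonneg _).trans ?_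
    exact Finset.sum_image_le_of_nonneg fun _ _ => norm_nonneg _

end

end Pool.Agent.H565Z.Fs
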