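import Mathlib
import Pool.Agent.H565Z.FsChar
import Pool.Agent.H565Z.FsSel

set_option autoImplicit false

open scoped ComplexOrder ComplexConjugate Pointwise Classical
open Filter Topology Finset

namespace Pool.Agent.H565Z.Fs

noncomputable section

variable {G : Type} [Group G] {A : Type} [CommGroup A] {ι : A →* G}

lemma sharp_single (a : A) (r : ℂ) :
    sharp (MonoidAlgebra.single a r) = MonoidAlgebra.single a⁻¹ (conj r) := by
  simp [sharp]

/-- Fejer-type vector -/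
def fej (t : A) (d : ℕ) (z : ℂ) : MA A :=
  ∑ i ∈ range d, MonoidAlgebra.single (t ^ (i : ℤ)) (z ^ i / (√(d : ℝ) : ℝ))

lemma fej_coeff (t : A) (d : ℕ) (z : ℂ) (g : A) : (sharp (fej t d z) * fej t d z).coeff g =
    ∑ i ∈ range d, ∑ i' ∈ range d,
      if t ^ ((i' : ℤ) - i) = g then conj (z ^ i) * z ^ i' / d else 0 := by
  simp only [fej, map_sum, sharp_single, sum_mul_sum, MonoidAlgebra.single_mul_single,
    MonoidAlgebra.coeff_sum, Finsupp.coe_finsetSum, Finset.sum_apply, MonoidAlgebra.coeff_single,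
    Finsupp.single_apply]
  refine sum_congr rfl fun i _ => sum_congr rfl fun i' _ => ?_
  have e1 : (t ^ (i : ℤ))⁻¹ * t ^ (i' : ℤ) = t ^ ((i' : ℤ) - i) := by
    rw [zpow_sub, mul_comm]
  have e2 : conj (z ^ i / (√(d : ℝ) : ℝ)) * (z ^ i' / (√(d : ℝ) : ℝ)) =
      conj (z ^ i) * z ^ i' / d := by
    rw [map_div₀, Complex.conj_ofReal, div_mul_div_comm, ← Complex.ofReal_mul,
      Real.mul_self_sqrt (Nat.cast_nonneg d), Complex.ofReal_natCast]
  rw [e1, e2]

lemma fej_value {t : A} {d : ℕ} {z : ℂ} (hz : ‖z‖ = 1)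
    (hinj : ∀ j ∈ Ioo (-d : ℤ) d, ∀ j' ∈ Ioo (-d : ℤ) d, t ^ j = t ^ j' → j = j') {j : ℕ}
    (hj : j < d) : (sharp (fej t d z) * fej t d z).coeff (t ^ (j : ℤ)) =
      ((d - j : ℕ) : ℂ) / d * z ^ j := by
  rw [fej_coeff]
  have h1 : ∀ i ∈ range d, (∑ i' ∈ range d, if t ^ ((i' : ℤ) - i) = t ^ (j : ℤ) then
      conj (z ^ i) * z ^ i' / d else 0) = if i ∈ range (d - j) then z ^ j / d else 0 := by
    intro i hi
    rw [mem_range] at hi
    have h2 : ∀ i' ∈ range d, (if t ^ ((i' : ℤ) - i) = t ^ (j : ℤ) then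
        conj (z ^ i) * z ^ i' / d else 0) = if i + j = i' then z ^ j / d else 0 := by
      intro i' hi'
      rw [mem_range] at hi'
      by_cases h : i + j = i'
      · subst h
        rw [if_pos (by push_cast; ring_nf), if_pos rfl, pow_add, ← mul_assoc, Complex.conj_mul',
          norm_pow, hz]
        simp
      · rw [if_neg h, if_neg]
        intro e
        have := hinj _ (by rw [mem_Ioo]; omega) _ (by rw [mem_Ioo]; omega) e
        omega
    rw [sum_congr rfl h2, sum_ite_eq]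
    simp only [mem_range]
    congr 1
    exact propext (by omega)
  rw [sum_congr rfl h1, sum_ite_mem, inter_eq_right.2 (range_subset_range.2 (Nat.sub_le _ _)),
    sum_const, card_range, nsmul_eq_mul]
  ring

lemma approx (d : ℕ) (hd : 2 ≤ d) (w : ℂ) (hw : ‖w‖ ≤ 1) : ∃ (j : ℕ) (z : ℂ), 1 ≤ j ∧ j < d ∧
    ‖z‖ = 1 ∧ ‖((d - j : ℕ) : ℂ) / d * z ^ j - w‖ ≤ 1 / d := by
  have hd0 : (0 : ℝ) < d := by positivity
  have h1 : ∃ i : ℕ, 1 ≤ i ∧ i < d ∧ |(i : ℝ) - ‖w‖ * d| ≤ 1 := by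
    have h2 := Nat.floor_le (mul_nonneg (norm_nonneg w) hd0.le)
    have h3 := Nat.lt_floor_add_one (‖w‖ * d)
    have h4 : ‖w‖ * d ≤ d := by nlinarith
    set n := ⌊‖w‖ * d⌋₊
    rcases Nat.eq_zero_or_pos n with h0 | h0
    · refine ⟨1, le_rfl, hd, ?_⟩
      rw [h0] at h2 h3
      rw [abs_le]
      push_cast at *
      constructor <;> linarith
    · by_cases h5 : n < d
      · refine ⟨n, h0, h5, ?_⟩
        rw [abs_le]
        constructor <;> linarith
      · refine ⟨d - 1, by omega, by omega, ?_⟩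
        have h6 : (d : ℝ) ≤ n := by exact_mod_cast not_lt.1 h5
        rw [abs_le, Nat.cast_sub (by omega)]
        push_cast
        constructor <;> linarith
  obtain ⟨i, hi1, hi2, hi⟩ := h1
  refine ⟨d - i, Complex.exp (((w.arg / (d - i : ℕ) : ℝ) : ℂ) * Complex.I), by omega, by omega,
    Complex.norm_exp_ofReal_mul_I _, ?_⟩
  have h2 : ((d - i : ℕ) : ℂ) ≠ 0 := by
    rw [Nat.cast_ne_zero]
    omega
  have h3 : d - (d - i) = i := by omega
  rw [h3, ← Complex.exp_nat_mul]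
  have h4 : ((d - i : ℕ) : ℂ) * (((w.arg / (d - i : ℕ) : ℝ) : ℂ) * Complex.I) =
      w.arg * Complex.I := by
    push_cast [-Nat.cast_sub]
    field_simp
  rw [h4]
  have h5 : (i : ℂ) / d * Complex.exp (w.arg * Complex.I) - w =
      ((((i : ℝ) - ‖w‖ * d) / d : ℝ) : ℂ) * Complex.exp (w.arg * Complex.I) := by
    have h6 := Complex.norm_mul_exp_arg_mul_I w
    have h7 : (d : ℂ) ≠ 0 := by exact_mod_cast hd0.ne'
    push_cast
    rw [sub_div, mul_div_assoc, div_self h7, mul_one, sub_mul, h6]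
  rw [h5, norm_mul, Complex.norm_exp_ofReal_mul_I, mul_one, Complex.norm_real, Real.norm_eq_abs,
    abs_div, abs_of_pos hd0]
  exact div_le_div_of_nonneg_right hi hd0.le

lemma lev_fej {t : ℕ → A} {d : ℕ → ℕ} {z : ℕ → ℂ} (hd : ∀ k, 0 < d k) (hz : ∀ k, ‖z k‖ = 1)
    (hinj : ∀ k, ∀ j ∈ Ioo (-d k : ℤ) (d k), ∀ j' ∈ Ioo (-d k : ℤ) (d k),
      t k ^ j = t k ^ j' → j = j') :
    Lev (SS (fun k => Ioo (-d k : ℤ) (d k)) t) (fun k => fej (t k) (d k) (z k)) := by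
  refine ⟨fun k g hg => ?_, fun k g hg => ?_, fun k => ?_⟩
  · simp only [fej, MonoidAlgebra.coeff_sum, Finsupp.coe_finsetSum, Finset.sum_apply,
      MonoidAlgebra.coeff_single, Finsupp.single_apply]
    refine sum_eq_zero fun i hi => if_neg fun e => hg (mem_image.2 ⟨i, ?_, e⟩)
    rw [mem_range] at hi
    rw [mem_Ioo]
    omega
  · rw [PP, fej_coeff]
    refine sum_eq_zero fun i hi => sum_eq_zero fun i' hi' =>
      if_neg fun e => hg (mem_image.2 ⟨_, ?_, e⟩)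
    rw [mem_range] at hi hi'
    rw [mem_Ioo]
    omega
  · have := fej_value (hz k) (hinj k) (hd k)
    have h1 : ((d k : ℕ) : ℂ) ≠ 0 := by
      rw [Nat.cast_ne_zero]
      exact (hd k).ne'
    rw [PP]
    simpa [h1] using this

variable {S : ℕ → Finset A} {q : ℕ → MA A}

lemma ex_sl_split (hι : Function.Injective ι) (h : Dis S) (hq : Lev S q) (K : ℕ) :
    ex ι (sl q 0) = ∑ m ∈ DD S 0 K, (pr (PP q) 0 K).coeff m • sg ι q K m := by
  refine fun_ext_range (ι := ι) (fun a => ?_) fun g hg => ?_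
  · simp only [Finset.sum_apply, Pi.smul_apply, sg, ex_apply hι, smul_eq_mul]
    exact sl_split h hq K a
  · simp [Finset.sum_apply, sg, ex_not _ hg]

theorem decomp_dense (hι : Function.Injective ι) (h : Dis S) (hq : Lev S q)
    (hH : ∀ w : ℂ, ‖w‖ ≤ 1 → ∀ ε > 0, ∀ K, ∃ L, K ≤ L ∧ ∃ x ∈ S L, x ≠ 1 ∧
      ‖(PP q L).coeff x - w‖ < ε) {f : G → ℂ} {fd fc : A → ℂ} {C : ℝ}
    (hf : Dat ι S q f fd fc C) :
    ∃ f₁ f₂, InB f₁ ∧ InB f₂ ∧ Natural f₁ ∧ Natural f₂ ∧ f = f₁ + f₂ := by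
  obtain ⟨R₀, hR₀⟩ := hf.inB
  set R : ℝ := R₀ + ‖fd 1‖ + 1 with hR
  have hR0 : 0 < R := by linarith [hR₀.nonneg, norm_nonneg (fd 1)]
  have hβ : AP ι S q ((R : ℂ) • ex ι (sl q 0)) (fun K m => R * (pr (PP q) 0 K).coeff m)
      (fun _ => 0) := by
    refine ⟨((ball_sl h hq 0).extend ι hι).inB.smul _, fun K => ?_, tendsto_const_nhds⟩
    rw [ex_sl_split hι h hq K, smul_sum]
    simp only [mul_smul, sub_self]
    exact ball_zero
  have hdisc : ∀ {f : G → ℂ} {fd fc : A → ℂ} {C : ℝ}, Dat ι S q f fd fc C → ∀ z : ℂ,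
      ‖z - fd 1‖ ≤ R → z ∈ closure (Set.range (f - (R : ℂ) • ex ι (sl q 0))) := by
    intro f fd fc C hf z hz
    rw [Metric.mem_closure_iff]
    intro ε hε
    have hδ : Tendsto (fun K : ℕ => 2 * C * (1 / 2 : ℝ) ^ K) atTop (𝓝 0) := by
      simpa using (tendsto_pow_atTop_nhds_zero_of_lt_one (r := (1 / 2 : ℝ)) (by norm_num)
        (by norm_num)).const_mul (2 * C)
    obtain ⟨K, hK⟩ := eventually_atTop.1 (hδ.eventually (gt_mem_nhds (half_pos hε)))
    have hR1 : (R : ℂ) ≠ 0 := by exact_mod_cast hR0.ne'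
    obtain ⟨L, hL, x, hx, hx1, t1⟩ := hH ((fd 1 - z) / R) (by
      rw [norm_div, Complex.norm_real, Real.norm_of_nonneg hR0.le, div_le_one hR0, norm_sub_rev]
      exact hz) (ε / (2 * R)) (by positivity) K
    have t2 := hf.near h hL (h.one_mem 0 K) hx hx1
    have t3 := hβ.near hι h hq hL (h.one_mem 0 K) hx
    rw [pr_one h hq, mul_one, norm_le_zero_iff, sub_eq_zero] at t3
    refine ⟨_, ⟨ι (1 * x), rfl⟩, ?_⟩
    rw [dist_eq_norm, Pi.sub_apply, t3]
    have e : z - (f (ι (1 * x)) - R * (PP q L).coeff x) =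
        R * ((PP q L).coeff x - (fd 1 - z) / R) - (f (ι (1 * x)) - fd 1) := by
      field_simp
      ring
    rw [e]
    refine (norm_sub_le _ _).trans_lt ?_
    have t4 : ‖R * ((PP q L).coeff x - (fd 1 - z) / R)‖ ≤ ε / 2 := by
      rw [norm_mul, Complex.norm_real, Real.norm_of_nonneg hR0.le]
      refine (mul_le_mul_of_nonneg_left t1.le hR0.le).trans (le_of_eq ?_)
      field_simp
    linarith [hK L hL]
  refine decomp hι h hq hf hβ (fun φ hφ K m _ _ ε hε => hH _ (hφ.bound (ball_sg hι h hq K m)) ε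
    hε K) hR₀ (fun z hz => hdisc hf z ?_) (hdisc (dat_zero ι S q) 0 (by simpa using hR0.le))
  linarith [norm_sub_le z (fd 1)]

lemma dat_rep [Infinite A] {H : Type} [NormedAddCommGroup H] [InnerProductSpace ℂ H]
    [CompleteSpace H] (ι : A →* G) (π : G →* unitary (H →L[ℂ] H)) (ξ η : H) (I : ℕ → Finset ℤ)
    (hI0 : ∀ k, 0 ∈ I k) (hI : ∀ k, ∀ j ∈ I k, ∀ j' ∈ I k, j ≠ j' → j - j' ∈ JJ A) :
    ∃ (t : ℕ → A) (fd fc : A → ℂ) (C : ℝ), Dis (SS I t) ∧
      (∀ k, ∀ j ∈ I k, ∀ j' ∈ I k, t k ^ j = t k ^ j' → j = j') ∧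
      ∀ q, Lev (SS I t) q →
        Dat ι (SS I t) q (fun g => inner ℂ η ((π g : H →L[ℂ] H) ξ)) fd fc C := by
  obtain ⟨ξd, ξc, t, hξ, h, hinj, h1, h2⟩ := exists_levels (π.comp ι) ξ η I hI0 hI
  refine ⟨t, fun y => inner ℂ η (act (π.comp ι) y ξd), fun y => inner ℂ η (act (π.comp ι) y ξc),
    4 * ‖η‖ + 2, h, hinj, fun q hq => ?_⟩
  refine dat_of (fc := fun y => inner ℂ η (act (π.comp ι) y ξc)) h hq (π.comp ι)
    (ball_rep π ξ η).inB (fun y => ?_) h1 h2
  rw [← inner_add_right, hξ, map_add]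
  rfl

theorem case_one [Infinite A] (hι : Function.Injective ι) (hJ : ∀ j : ℤ, j ≠ 0 → j ∈ JJ A)
    {f : G → ℂ} (hf : InB f) :
    ∃ f₁ f₂, InB f₁ ∧ InB f₂ ∧ Natural f₁ ∧ Natural f₂ ∧ f = f₁ + f₂ := by
  obtain ⟨r, hr⟩ := hf
  obtain ⟨H, _, _, _, π, ξ, η, hf⟩ := hr.rep
  obtain rfl : f = fun g => inner ℂ η ((π g : H →L[ℂ] H) ξ) := funext hf
  let d : ℕ → ℕ := fun k => k + 2
  obtain ⟨t, fd, fc, C, h, hinj, hD⟩ := dat_rep ι π ξ η (fun k => Ioo (-d k : ℤ) (d k))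
    (fun k => by simp [d]; omega) (fun k j _ j' _ hne => hJ _ (sub_ne_zero.2 hne))
  let w : ℕ → Metric.closedBall (0 : ℂ) 1 := TopologicalSpace.denseSeq _
  have hw : ∀ n, ‖(w n : ℂ)‖ ≤ 1 := fun n => mem_closedBall_zero_iff.1 (w n).2
  choose j z hj1 hj2 hz hjz using fun k => approx (d k) (by simp [d]) _ (hw k.unpair.1)
  have hq := lev_fej (fun k => by simp [d]) hz hinj
  refine decomp_dense hι h hq (fun v hv ε hε K => ?_) (hD _ hq)
  obtain ⟨n, hn⟩ := Metric.denseRange_iff.1 (TopologicalSpace.denseRange_denseSeq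
    (Metric.closedBall (0 : ℂ) 1)) ⟨v, by simpa using hv⟩ (ε / 2) (half_pos hε)
  obtain ⟨N, hN⟩ := exists_nat_one_div_lt (half_pos hε)
  set L := Nat.pair n (max K N) with hL
  have hL1 : max K N ≤ L := Nat.right_le_pair _ _
  have hmem : ((j L : ℕ) : ℤ) ∈ Ioo (-d L : ℤ) (d L) := by
    have := hj2 L
    rw [mem_Ioo]
    omega
  refine ⟨L, (le_max_left _ _).trans hL1, t L ^ ((j L : ℕ) : ℤ), mem_image.2 ⟨_, hmem, rfl⟩,
    fun e => ?_, ?_⟩
  · have := hinj L _ hmem 0 (by simp [d]; omega) (by rw [e, zpow_zero])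
    have := hj1 L
    omega
  · rw [PP, fej_value (hz L) (hinj L) (hj2 L)]
    have t1 := hjz L
    rw [hL, Nat.unpair_pair, ← hL] at t1
    have t2 : ‖(w n : ℂ) - v‖ < ε / 2 := by
      rw [← dist_eq_norm, dist_comm]
      exact hn
    have t3 : (1 : ℝ) / d L ≤ 1 / (N + 1) := by
      refine one_div_le_one_div_of_le (by positivity) ?_
      have : N + 1 ≤ d L := by
        have := (le_max_right _ _).trans hL1
        simp only [d]
        omega
      exact_mod_cast this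
    have t4 := norm_sub_le_norm_sub_add_norm_sub (((d L - j L : ℕ) : ℂ) / d L * z L ^ j L)
      (w n : ℂ) v
    linarith

end

end Pool.Agent.H565Z.Fs
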