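import Mathlib
import Pool.Agent.H565Z.FsOne

set_option autoImplicit false

open scoped ComplexOrder ComplexConjugate Pointwise Classical
open Filter Topology Finset

namespace Pool.Agent.H565Z.Fs

noncomputable section

variable {G : Type} [Group G] {A : Type} [CommGroup A] {ι : A →* G}

lemma ball_tsum {r : ℕ → ℝ} {u : ℕ → G → ℂ} (h : ∀ i, Ball (r i) (u i)) (hr : Summable r) :
    Ball (∑' i, r i) (fun g => ∑' i, u i g) := by
  refine ball_lim (l := atTop) (fun n => ∑ i ∈ range n, u i) _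
    (Eventually.of_forall fun n => ?_) fun g => ?_
  · exact (ball_sum _ _ _ fun i _ => h i).mono
      (hr.sum_le_tsum _ fun i _ => (h i).nonneg)
  · simp only [Finset.sum_apply]
    exact (Summable.of_norm_bounded hr fun i => (h i).bound g).hasSum.tendsto_sum_nat

/-- normalised indicator of a finite set -/
def unif (E : Finset A) : MA A := ∑ h ∈ E, MonoidAlgebra.single h ((√(E.card : ℝ) : ℝ) : ℂ)⁻¹

lemma unif_coeff (E : Finset A) (g : A) :
    (unif E).coeff g = if g ∈ E then ((√(E.card : ℝ) : ℝ) : ℂ)⁻¹ else 0 := by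
  simp only [unif, MonoidAlgebra.coeff_sum, Finsupp.coe_finsetSum, Finset.sum_apply,
    MonoidAlgebra.coeff_single, Finsupp.single_apply, sum_ite_eq']

lemma supp_unif (E : Finset A) : Supp (unif E) E := fun g hg => by rw [unif_coeff, if_neg hg]

lemma unif_PP {E : Finset A} (h1 : 1 ∈ E) (hE : ∀ g, ∀ h ∈ E, g * h ∈ E ↔ g ∈ E) (g : A) :
    (sharp (unif E) * unif E).coeff g = if g ∈ E then 1 else 0 := by
  rw [coeff_sharp_mul _ (supp_unif E)]
  have h2 : ∀ h ∈ E, conj ((unif E).coeff h) * (unif E).coeff (g * h) =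
      if g ∈ E then ((E.card : ℂ))⁻¹ else 0 := by
    intro h hh
    simp only [unif_coeff, hh, if_true, hE g h hh]
    split_ifs
    · rw [map_inv₀, Complex.conj_ofReal, ← mul_inv, ← Complex.ofReal_mul,
        Real.mul_self_sqrt (Nat.cast_nonneg _), Complex.ofReal_natCast]
    · simp
  rw [sum_congr rfl h2, sum_const, nsmul_eq_mul]
  have h3 : (E.card : ℂ) ≠ 0 := by
    rw [Nat.cast_ne_zero]
    exact card_ne_zero_of_mem h1
  split_ifs
  · exact mul_inv_cancel₀ h3
  · simp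

variable {S : ℕ → Finset A} {q : ℕ → MA A}

/-- remove level `i` -/
def drop (q : ℕ → MA A) (i : ℕ) : ℕ → MA A := fun k => if k = i then 1 else q k

lemma PP_drop (q : ℕ → MA A) (i k : ℕ) : PP (drop q i) k = if k = i then 1 else PP q k := by
  unfold PP drop
  split_ifs <;> simp

lemma lev_drop (h : Dis S) (hq : Lev S q) (i : ℕ) : Lev S (drop q i) := by
  have h1 : ∀ k, Supp (1 : MA A) (S k) := by
    intro k g hg
    have : (1 : A) ≠ g := fun e => hg (e ▸ h.one k)
    simp [MonoidAlgebra.one_def, this]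
  refine ⟨fun k => ?_, fun k => ?_, fun k => ?_⟩
  · unfold drop
    split_ifs
    · exact h1 k
    · exact hq.sq k
  · rw [PP_drop]
    split_ifs
    · exact h1 k
    · exact hq.sP k
  · rw [PP_drop]
    split_ifs
    · simp
    · exact hq.one k

lemma pr_drop {i K : ℕ} (hi : K ≤ i) : pr (PP (drop q i)) 0 K = pr (PP q) 0 K := by
  refine prod_congr rfl fun k hk => ?_
  rw [PP_drop, if_neg]
  rw [mem_range] at hk
  omega

lemma pr_eq_one (h : Dis S) (hq : Lev S q) (hP : ∀ k, ∀ g ∈ S k, (PP q k).coeff g = 1) (K n : ℕ) :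
    ∀ x ∈ DD S K n, (pr (PP q) K n).coeff x = 1 := by
  induction n with
  | zero =>
    intro x hx
    rw [DD_zero, mem_singleton] at hx
    rw [hx, pr_one h hq]
  | succ n ih =>
    intro x hx
    rw [DD_succ, Finset.mem_mul] at hx
    obtain ⟨y, hy, g, hg, rfl⟩ := hx
    rw [pr_value h hq hy hg, ih y hy, hP _ g hg, mul_one]

lemma sg_idem (hι : Function.Injective ι) (h : Dis S) (hq : Lev S q)
    (hP : ∀ k, ∀ g ∈ S k, (PP q k).coeff g = 1) (K : ℕ) (m : A) :
    sg ι q K m * sg ι q K m = sg ι q K m := by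
  refine fun_ext_range (ι := ι) (fun a => ?_) fun g hg => ?_
  · simp only [Pi.mul_apply, sg, ex_apply hι]
    by_cases h1 : ∃ n, m⁻¹ * a ∈ DD S K n
    · obtain ⟨n, h1⟩ := h1
      rw [sl_eq h hq h1, pr_eq_one h hq hP K n _ h1, mul_one]
    · push Not at h1
      rw [sl_zero hq h1, mul_zero]
  · simp [sg, ex_not _ hg]

/-- the digits -/
def gam (a : ℝ) (k : ℕ) : ℂ := (a * (9 / 10) ^ k : ℝ) * Complex.I ^ k

lemma norm_gam {a : ℝ} (ha : 0 ≤ a) (k : ℕ) : ‖gam a k‖ = a * (9 / 10) ^ k := by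
  rw [gam, norm_mul, norm_pow, Complex.norm_I, one_pow, mul_one, Complex.norm_real,
    Real.norm_of_nonneg (by positivity)]

def uu (ι : A →* G) (q : ℕ → MA A) (i : ℕ) : G → ℂ :=
  ex ι (sl q 0) - (2 : ℂ) • ex ι (sl (drop q i) 0)

def bet (ι : A →* G) (q : ℕ → MA A) (a : ℝ) : G → ℂ := fun g => ∑' i, (gam a i • uu ι q i) g

def bb (q : ℕ → MA A) (a : ℝ) (K : ℕ) (m : A) : ℂ :=
  ∑ i ∈ range K, gam a i * ((pr (PP q) 0 K).coeff m - 2 * (pr (PP (drop q i)) 0 K).coeff m)

lemma ball_uu (hι : Function.Injective ι) (h : Dis S) (hq : Lev S q) {a : ℝ} (ha : 0 ≤ a)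
    (i : ℕ) : Ball (3 * a * (9 / 10) ^ i) (gam a i • uu ι q i) := by
  have h1 := (((ball_sl h hq 0).extend ι hι).sub
    (((ball_sl h (lev_drop h hq i) 0).extend ι hι).smul 2)).smul (gam a i)
  rw [norm_gam ha] at h1
  refine Ball.mono h1 (le_of_eq ?_)
  simp
  ring

lemma ap_bet (hι : Function.Injective ι) (h : Dis S) (hq : Lev S q) {a : ℝ} (ha : 0 ≤ a) :
    AP ι S q (bet ι q a) (bb q a) (fun K => ∑' i, 3 * a * (9 / 10) ^ (i + K)) := by
  have hs : Summable fun i : ℕ => 3 * a * (9 / 10 : ℝ) ^ i :=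
    (summable_geometric_of_lt_one (by norm_num) (by norm_num)).mul_left _
  refine ⟨(ball_tsum (ball_uu hι h hq ha) hs).inB, fun K => ?_,
    tendsto_sum_nat_add fun i => 3 * a * (9 / 10 : ℝ) ^ i⟩
  have h1 := ball_tsum (fun i => ball_uu hι h hq ha (i + K)) ((summable_nat_add_iff K).2 hs)
  convert h1 using 1
  have h2 : ∑ m ∈ DD S 0 K, bb q a K m • sg ι q K m = ∑ i ∈ range K, gam a i • uu ι q i := by
    simp only [bb, sum_smul]
    rw [sum_comm]
    refine sum_congr rfl fun i hi => ?_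
    rw [mem_range] at hi
    have h3 : ∀ m, sg ι (drop q i) K m = sg ι q K m := by
      intro m
      unfold sg
      rw [sl_congr (q' := q)]
      intro k hk
      rw [drop, if_neg (by omega)]
    rw [uu, ex_sl_split hι h hq K, ex_sl_split hι h (lev_drop h hq i) K, smul_sum,
      ← sum_sub_distrib, smul_sum]
    refine sum_congr rfl fun m _ => ?_
    rw [h3, mul_smul, sub_smul, mul_smul]
  rw [h2]
  funext g
  have h4 := (Summable.of_norm_bounded hs fun i => (ball_uu hι h hq ha i).bound g).sum_add_tsum_nat_add K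
  rw [Pi.sub_apply, Finset.sum_apply, bet, ← h4, add_sub_cancel_left]

lemma bb_succ (h : Dis S) (hq : Lev S q) (hP : ∀ k, ∀ g ∈ S k, (PP q k).coeff g = 1) (a : ℝ)
    {K : ℕ} {m g : A} (hm : m ∈ DD S 0 K) (hg : g ∈ S K) :
    bb q a (K + 1) (m * g) = bb q a K m + gam a K * (if g = 1 then -1 else 1) := by
  have hg' : g ∈ S (0 + K) := by rwa [zero_add]
  rw [bb, sum_range_succ, bb]
  congr 1
  · refine sum_congr rfl fun i hi => ?_
    rw [mem_range] at hi
    rw [pr_value h hq hm hg', pr_value h (lev_drop h hq i) hm hg', PP_drop, if_neg (by omega),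
      hP _ g hg', mul_one, mul_one]
  · rw [pr_value h hq hm hg', pr_value h (lev_drop h hq K) hm hg', PP_drop, if_pos (by omega),
      hP _ g hg', pr_drop le_rfl, pr_eq_one h hq hP 0 K m hm]
    congr 1
    split_ifs with h1
    · rw [h1, MonoidAlgebra.coeff_one_one]
      norm_num
    · simp [MonoidAlgebra.one_def, Ne.symm h1]

lemma greedy (h : Dis S) (hq : Lev S q) (hP : ∀ k, ∀ g ∈ S k, (PP q k).coeff g = 1)
    (ht : ∀ k, ∃ g ∈ S k, g ≠ 1) {f : G → ℂ} {fd fc : A → ℂ} {C : ℝ}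
    (hf : Dat ι S q f fd fc C) {a : ℝ} (ha : 5 * C ≤ a) {z : ℂ} (hz : ‖z - fd 1‖ ≤ a) (K : ℕ) :
    ∃ m ∈ DD S 0 K, |((z - fd m + bb q a K m) * (-Complex.I) ^ K).re| ≤ 2 * (a * (9 / 10) ^ K) ∧
      |((z - fd m + bb q a K m) * (-Complex.I) ^ K).im| ≤ 7 / 5 * (a * (9 / 10) ^ K) := by
  have ha0 : 0 ≤ a := (norm_nonneg _).trans hz
  induction K with
  | zero =>
    refine ⟨1, h.one_mem 0 0, ?_, ?_⟩
    · simp only [bb, range_zero, sum_empty, add_zero, pow_zero, mul_one]
      linarith [Complex.abs_re_le_norm (z - fd 1)]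
    · simp only [bb, range_zero, sum_empty, add_zero, pow_zero, mul_one]
      linarith [Complex.abs_im_le_norm (z - fd 1)]
  | succ K ih =>
    obtain ⟨m, hm, h1, h2⟩ := ih
    set v := (z - fd m + bb q a K m) * (-Complex.I) ^ K with hv
    set ρ := a * (9 / 10 : ℝ) ^ K with hρ
    have hstep : ∀ g ∈ S K, ∃ e : ℂ, |e.re| ≤ ρ / 5 ∧ |e.im| ≤ ρ / 5 ∧
        (z - fd (m * g) + bb q a (K + 1) (m * g)) * (-Complex.I) ^ (K + 1) =
          (v + ρ * (if g = 1 then -1 else 1) - e) * (-Complex.I) := by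
      intro g hg
      have t1 : ‖(fd (m * g) - fd m) * (-Complex.I) ^ K‖ ≤ ρ / 5 := by
        rw [norm_mul, norm_pow, norm_neg, Complex.norm_I, one_pow, mul_one]
        refine (hf.lip K m g hg).trans ?_
        have t2 : (1 / 2 : ℝ) ^ K ≤ (9 / 10) ^ K := pow_le_pow_left₀ (by norm_num) (by norm_num) K
        have t3 : (0 : ℝ) ≤ (1 / 2) ^ K := by positivity
        rw [hρ]
        nlinarith [hf.pos]
      refine ⟨_, (Complex.abs_re_le_norm _).trans t1, (Complex.abs_im_le_norm _).trans t1, ?_⟩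
      have t4 : Complex.I ^ K * (-Complex.I) ^ K = 1 := by
        rw [← mul_pow]
        simp
      rw [bb_succ h hq hP a hm hg, hv, gam, ← hρ, pow_succ]
      linear_combination (ρ * (if g = 1 then -1 else 1) * (-Complex.I)) * t4
    have hρ' : a * (9 / 10 : ℝ) ^ (K + 1) = 9 / 10 * ρ := by
      rw [hρ, pow_succ]
      ring
    have hρ0 : 0 ≤ ρ := by positivity
    rw [hρ']
    rw [abs_le] at h1 h2
    by_cases hre : 0 ≤ v.re
    · obtain ⟨e, e1, e2, e3⟩ := hstep 1 (h.one K)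
      refine ⟨m * 1, mul_mem_succ hm (by rw [zero_add]; exact h.one K), ?_⟩
      rw [e3, abs_le, abs_le]
      rw [abs_le] at e1 e2
      simp only [if_true, mul_neg, mul_one, Complex.neg_re, Complex.neg_im, Complex.mul_re,
        Complex.mul_im, Complex.I_re, Complex.I_im, Complex.sub_re, Complex.sub_im, Complex.add_re,
        Complex.add_im, Complex.ofReal_re, Complex.ofReal_im]
      refine ⟨⟨?_, ?_⟩, ?_, ?_⟩ <;> linarith
    · obtain ⟨g, hg, hg1⟩ := ht K
      obtain ⟨e, e1, e2, e3⟩ := hstep g hg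
      refine ⟨m * g, mul_mem_succ hm (by rw [zero_add]; exact hg), ?_⟩
      rw [e3, abs_le, abs_le]
      rw [abs_le] at e1 e2
      simp only [hg1, if_false, mul_neg, mul_one, Complex.neg_re, Complex.neg_im, Complex.mul_re,
        Complex.mul_im, Complex.I_re, Complex.I_im, Complex.sub_re, Complex.sub_im, Complex.add_re,
        Complex.add_im, Complex.ofReal_re, Complex.ofReal_im]
      refine ⟨⟨?_, ?_⟩, ?_, ?_⟩ <;> linarith

theorem decomp_sub (hι : Function.Injective ι) (h : Dis S) (hq : Lev S q)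
    (hP : ∀ k, ∀ g ∈ S k, (PP q k).coeff g = 1) (ht : ∀ k, ∃ g ∈ S k, g ≠ 1)
    {f : G → ℂ} {fd fc : A → ℂ} {C : ℝ} (hf : Dat ι S q f fd fc C) :
    ∃ f₁ f₂, InB f₁ ∧ InB f₂ ∧ Natural f₁ ∧ Natural f₂ ∧ f = f₁ + f₂ := by
  obtain ⟨R₀, hR₀⟩ := hf.inB
  set a : ℝ := 5 * C + R₀ + ‖fd 1‖ with ha
  have ha0 : 0 ≤ a := by linarith [hR₀.nonneg, norm_nonneg (fd 1), hf.pos]
  have hβ := ap_bet hι h hq ha0
  have hdisc : ∀ {f : G → ℂ} {fd fc : A → ℂ} {C : ℝ}, Dat ι S q f fd fc C → 5 * C ≤ a → ∀ z : ℂ,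
      ‖z - fd 1‖ ≤ a → z ∈ closure (Set.range (f - bet ι q a)) := by
    intro f fd fc C hf hC z hz
    rw [Metric.mem_closure_iff]
    intro ε hε
    have hδ : Tendsto (fun K : ℕ => 2 * C * (1 / 2 : ℝ) ^ K + 4 * (a * (9 / 10 : ℝ) ^ K) +
        ∑' i, 3 * a * (9 / 10) ^ (i + K)) atTop (𝓝 0) := by
      simpa using (((tendsto_pow_atTop_nhds_zero_of_lt_one (r := (1 / 2 : ℝ)) (by norm_num)
        (by norm_num)).const_mul (2 * C)).add
        (((tendsto_pow_atTop_nhds_zero_of_lt_one (r := (9 / 10 : ℝ)) (by norm_num)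
        (by norm_num)).const_mul a).const_mul 4)).add hβ.lim
    obtain ⟨K, hK⟩ := (hδ.eventually (gt_mem_nhds hε)).exists
    obtain ⟨m, hm, h1, h2⟩ := greedy h hq hP ht hf hC hz K
    obtain ⟨x, hx, hx1⟩ := ht K
    have t1 := Complex.norm_le_abs_re_add_abs_im ((z - fd m + bb q a K m) * (-Complex.I) ^ K)
    rw [norm_mul, norm_pow, norm_neg, Complex.norm_I, one_pow, mul_one] at t1
    have t2 := hf.near h le_rfl hm hx hx1
    have t3 := hβ.near hι h hq le_rfl hm hx
    rw [hP K x hx, mul_one] at t3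
    refine ⟨_, ⟨ι (m * x), rfl⟩, ?_⟩
    rw [dist_eq_norm, Pi.sub_apply]
    have e : z - (f (ι (m * x)) - bet ι q a (ι (m * x))) = (z - fd m + bb q a K m)
        - (f (ι (m * x)) - fd m) + (bet ι q a (ι (m * x)) - bb q a K m) := by ring
    rw [e]
    have u1 := norm_add_le ((z - fd m + bb q a K m) - (f (ι (m * x)) - fd m))
      (bet ι q a (ι (m * x)) - bb q a K m)
    have u2 := norm_sub_le (z - fd m + bb q a K m) (f (ι (m * x)) - fd m)
    have u3 : 0 ≤ a * (9 / 10 : ℝ) ^ K := by positivity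
    linarith
  refine decomp hι h hq hf hβ (fun φ hφ K m _ hm ε hε => ?_) hR₀
    (fun z hz => hdisc hf (by linarith [hR₀.nonneg, norm_nonneg (fd 1)]) z ?_)
    (hdisc (dat_zero ι S q) (by simpa using ha0) 0 (by simpa using ha0))
  · obtain ⟨x, hx, hx1⟩ := ht K
    have hs := (ball_sg hι h hq K m).inB
    have h1 := hφ.mul hs hs
    rw [sg_idem hι h hq hP] at h1
    have h2 : φ (sg ι q K m) = 1 := (mul_eq_left₀ hm).1 h1.symm
    exact ⟨K, le_rfl, x, hx, hx1, by simpa [hP K x hx, h2] using hε⟩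
  · linarith [norm_sub_le z (fd 1), hf.pos]

theorem case_two [Infinite A] (hι : Function.Injective ι) {p : ℕ} (hp : p.Prime)
    (hA : ∀ t : A, t ^ (p : ℤ) = 1) {f : G → ℂ} (hf : InB f) :
    ∃ f₁ f₂, InB f₁ ∧ InB f₂ ∧ Natural f₁ ∧ Natural f₂ ∧ f = f₁ + f₂ := by
  obtain ⟨r, hr⟩ := hf
  obtain ⟨H, _, _, _, π, ξ, η, hf⟩ := hr.rep
  obtain rfl : f = fun g => inner ℂ η ((π g : H →L[ℂ] H) ξ) := funext hf
  have hp2 := hp.two_le
  have hJ : ∀ j : ℤ, ¬ (p : ℤ) ∣ j → j ∈ JJ A := by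
    intro j hj
    refine Function.Injective.tendsto_cofinite fun s t e => ?_
    obtain ⟨u, v, huv⟩ := (Nat.prime_iff_prime_int.1 hp).coprime_iff_not_dvd.2 hj
    have key : ∀ x : A, x = (x ^ j) ^ v := by
      intro x
      conv_lhs => rw [← zpow_one x, ← huv, zpow_add, mul_comm u, zpow_mul, hA, one_zpow, one_mul,
        mul_comm v, zpow_mul]
    rw [key s, key t]
    exact congrArg (· ^ v) e
  obtain ⟨t, fd, fc, C, h, hinj, hD⟩ := dat_rep ι π ξ η (fun _ => Ico (0 : ℤ) p)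
    (fun k => by rw [mem_Ico]; omega) (fun k j hj j' hj' hne => hJ _ fun hd => by
      rw [mem_Ico] at hj hj'
      have := Int.eq_zero_of_abs_lt_dvd hd (by rw [abs_lt]; omega)
      omega)
  have hmem : ∀ k g, g ∈ SS (fun _ => Ico (0 : ℤ) p) t k ↔ g ∈ Subgroup.zpowers (t k) := by
    intro k g
    constructor
    · intro hg
      obtain ⟨j, -, rfl⟩ := mem_image.1 hg
      exact ⟨j, rfl⟩
    · rintro ⟨j, rfl⟩
      refine mem_image.2 ⟨j % p, mem_Ico.2 ⟨Int.emod_nonneg _ (by omega),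
        Int.emod_lt_of_pos _ (by omega)⟩, ?_⟩
      exact (zpow_eq_zpow_emod j (hA _)).symm
  have hPP : ∀ k g, (PP (fun k => unif (SS (fun _ => Ico (0 : ℤ) p) t k)) k).coeff g =
      if g ∈ SS (fun _ => Ico (0 : ℤ) p) t k then 1 else 0 := fun k g =>
    unif_PP (h.one k) (fun g x hx => by
      rw [hmem] at hx
      rw [hmem, hmem]
      exact Subgroup.mul_mem_cancel_right _ hx) g
  have hq : Lev (SS (fun _ => Ico (0 : ℤ) p) t) (fun k => unif (SS (fun _ => Ico (0 : ℤ) p) t k)) :=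
    ⟨fun k => supp_unif _, fun k g hg => by rw [hPP, if_neg hg],
      fun k => by rw [hPP, if_pos (h.one k)]⟩
  refine decomp_sub hι h hq (fun k g hg => by rw [hPP, if_pos hg]) (fun k => ?_) (hD _ hq)
  refine ⟨t k, (hmem _ _).2 (Subgroup.mem_zpowers _), fun e => ?_⟩
  have := hinj k 1 (by rw [mem_Ico]; omega) 0 (by rw [mem_Ico]; omega) (by simp [e])
  omega

theorem case_finite [Finite G] (f : G → ℂ) (hf : InB f) : Natural f := by
  have := Fintype.ofFinite G
  refine natural_of_chars hf fun φ hφ => ?_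
  have h1 : (fun _ : G => (1 : ℂ)) = ∑ g : G, dl g := by
    funext x
    simp [Finset.sum_apply, dl]
  have h2 := hφ.const 1
  rw [h1, hφ.sum _ _ fun g _ => (ball_dl g).inB] at h2
  obtain ⟨g, -, hg⟩ := exists_ne_zero_of_sum_ne_zero (h2 ▸ one_ne_zero)
  rw [hφ.eval hg hf]
  exact subset_closure ⟨g, rfl⟩

theorem case_comm [Infinite A] (hι : Function.Injective ι) {f : G → ℂ} (hf : InB f) :
    ∃ f₁ f₂, InB f₁ ∧ InB f₂ ∧ Natural f₁ ∧ Natural f₂ ∧ f = f₁ + f₂ := by
  by_cases h : ∀ p : ℕ, p.Prime → (p : ℤ) ∈ JJ A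
  · refine case_one hι (fun j hj => ?_) hf
    have h1 : ∀ n : ℕ, n ≠ 0 → (n : ℤ) ∈ JJ A := by
      intro n
      induction n using induction_on_primes with
      | zero => exact fun h => absurd rfl h
      | one => exact fun _ => one_mem _
      | prime_mul p a hp ih =>
        intro h2
        rw [Nat.cast_mul]
        exact mul_mem (h p hp) (ih (right_ne_zero_of_mul h2))
    have h2 : (-1 : ℤ) ∈ JJ A := Function.Injective.tendsto_cofinite fun s t e => by simpa using e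
    have h3 := h1 j.natAbs (Int.natAbs_ne_zero.2 hj)
    rcases Int.natAbs_eq j with e | e
    · rwa [e]
    · rw [e, neg_eq_neg_one_mul]
      exact mul_mem h2 h3
  · push Not at h
    obtain ⟨p, hp, h⟩ := h
    let K : Subgroup A := (zpowGroupHom (p : ℤ) : A →* A).ker
    have : Infinite K := by
      by_contra hK
      rw [not_infinite_iff_finite] at hK
      apply h
      refine Tendsto.cofinite_of_finite_preimage_singleton fun a => ?_
      rcases ((fun t : A => t ^ (p : ℤ)) ⁻¹' {a}).eq_empty_or_nonempty with h1 | ⟨b, hb⟩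
      · rw [h1]
        infer_instance
      · refine Set.Finite.subset ((Set.toFinite (K : Set A)).image (b * ·)) fun x hx => ?_
        refine ⟨b⁻¹ * x, ?_, by simp⟩
        change (b⁻¹ * x) ^ (p : ℤ) = 1
        rw [mul_zpow, inv_zpow, show x ^ (p : ℤ) = a from hx, show b ^ (p : ℤ) = a from hb,
          inv_mul_cancel]
    exact case_two (ι := ι.comp K.subtype) (hι.comp K.subtype_injective) hp
      (fun t => Subtype.ext t.2) hf

theorem main (hG : Infinite G → ∃ A : Subgroup G, (A : Set G).Infinite ∧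
      ∀ a ∈ A, ∀ b ∈ A, a * b = b * a) {f : G → ℂ} (hf : InB f) :
    ∃ f₁ f₂, InB f₁ ∧ InB f₂ ∧ Natural f₁ ∧ Natural f₂ ∧ f = f₁ + f₂ := by
  rcases finite_or_infinite G with h | h
  · exact ⟨f, 0, hf, ball_zero.inB, case_finite f hf, case_finite 0 ball_zero.inB, by simp⟩
  · obtain ⟨A, hA, hc⟩ := hG h
    have : Infinite A := hA.to_subtype
    let _ : CommGroup A := { (inferInstance : Group A) with
      mul_comm := fun a b => Subtype.ext (hc a a.2 b b.2) }
    exact case_comm (ι := A.subtype) A.subtype_injective hf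

lemma inB_iff {f : G → ℂ} : InB f ↔ ∃ (H : Type) (_ : NormedAddCommGroup H)
    (_ : InnerProductSpace ℂ H) (_ : CompleteSpace H) (π : G →* unitary (H →L[ℂ] H)) (ξ η : H),
    ∀ g : G, f g = inner ℂ η ((π g : H →L[ℂ] H) ξ) := by
  constructor
  · rintro ⟨r, hr⟩
    exact hr.rep
  · rintro ⟨H, _, _, _, π, ξ, η, hf⟩
    rw [funext hf]
    exact (ball_rep π ξ η).inB

end

end Pool.Agent.H565Z.Fs
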