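import Mathlib
import Pool.Agent.H565Z.FsDefs
import Pool.Agent.H565Z.FsTwo

set_option autoImplicit false

namespace Pool.Agent.H565Z.Fs

variable {G : Type} [Group G]

lemma mem_fs_iff (u : G → ℂ) : u ∈ FourierStieltjes G ↔ InB u := by
  rw [inB_iff]
  constructor
  · rintro ⟨H, _, _, _, π, ξ, η, rfl⟩
    exact ⟨H, inferInstance, inferInstance, inferInstance,
      (Unitary.linearIsometryEquiv.symm.toMonoidHom).comp π, ξ, η, fun g => rfl⟩
  · rintro ⟨H, _, _, _, π, ξ, η, h⟩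
    exact ⟨H, inferInstance, inferInstance, inferInstance,
      (Unitary.linearIsometryEquiv.toMonoidHom).comp π, ξ, η, funext h⟩

theorem final (hG : Infinite G → ∃ A : Subgroup G, (A : Set G).Infinite ∧
      ∀ a ∈ A, ∀ b ∈ A, a * b = b * a) :
    ∀ f ∈ FourierStieltjes G, ∃ f₁ ∈ NaturalSpectrum G, ∃ f₂ ∈ NaturalSpectrum G,
      f = f₁ + f₂ := by
  intro f hf
  obtain ⟨f₁, f₂, h1, h2, h3, h4, h5⟩ := main hG ((mem_fs_iff f).1 hf)
  simp only [NaturalSpectrum, fsSpectrum, mem_fs_iff]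
  exact ⟨f₁, ⟨h1, h3⟩, f₂, ⟨h2, h4⟩, h5⟩

end Pool.Agent.H565Z.Fs
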