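import Mathlib
import Pool.Agent.H565Z.FsSel
import Pool.Agent.H565Z.FsChar

set_option autoImplicit false

open scoped ComplexOrder ComplexConjugate Pointwise Classical
open Filter Topology

namespace Pool.Agent.H565Z.Fs

noncomputable section

section gelfand

variable {A : Type} [CommGroup A] {H : Type} [NormedAddCommGroup H] [InnerProductSpace ℂ H]
  [CompleteSpace H]

/-- bicommutant of a commutative group of unitaries -/
def bic (U : A →* unitary (H →L[ℂ] H)) : StarSubalgebra ℂ (H →L[ℂ] H) where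
  toSubalgebra := Algebra.adjoin ℂ (Set.range fun a => (U a : H →L[ℂ] H))
  star_mem' := by
    intro x hx
    change x ∈ Algebra.adjoin ℂ (Set.range fun a => (U a : H →L[ℂ] H)) at hx
    change star x ∈ Algebra.adjoin ℂ (Set.range fun a => (U a : H →L[ℂ] H))
    induction hx using Algebra.adjoin_induction with
    | mem x hx =>
      obtain ⟨a, rfl⟩ := hx
      refine Algebra.subset_adjoin ⟨a⁻¹, ?_⟩
      simp only [map_inv, ← Unitary.star_eq_inv, Unitary.coe_star]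
    | algebraMap r => rw [← algebraMap_star_comm]; exact Subalgebra.algebraMap_mem _ _
    | add x y _ _ hx hy => rw [star_add]; exact add_mem hx hy
    | mul x y _ _ hx hy => rw [star_mul]; exact mul_mem hy hx

theorem gelfand (U : A →* unitary (H →L[ℂ] H)) (c : A →₀ ℂ) {M : ℝ} (hM0 : 0 ≤ M)
    (hM : ∀ χ : A →* Circle, ‖c.sum fun a z => z * (χ a : ℂ)‖ ≤ M) :
    ‖c.sum fun a z => z • (U a : H →L[ℂ] H)‖ ≤ M := by
  have hcomm : ∀ x y : bic U, x * y = y * x := by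
    intro x y
    refine Subtype.ext ?_
    have h := Algebra.adjoin_le_centralizer_centralizer ℂ (Set.range fun a => (U a : H →L[ℂ] H))
    refine Set.centralizer_centralizer_comm_of_comm ?_ _ (h x.2) _ (h y.2)
    rintro _ ⟨a, rfl⟩ _ ⟨b, rfl⟩
    simp only [← Submonoid.coe_mul, ← map_mul, mul_comm]
  let S := (bic U).topologicalClosure
  have hcl : IsClosed (S : Set (H →L[ℂ] H)) := (bic U).isClosed_topologicalClosure
  let _ : CommCStarAlgebra S := { (inferInstance : CStarAlgebra S) with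
    mul_comm := ((bic U).commRingTopologicalClosure hcomm).mul_comm }
  let V : A → S := fun a => ⟨U a, (bic U).le_topologicalClosure (Algebra.subset_adjoin ⟨a, rfl⟩)⟩
  have hVm : ∀ a b, V (a * b) = V a * V b := fun a b => Subtype.ext (by simp [V])
  have hV1 : V 1 = 1 := Subtype.ext (by simp [V])
  have hVs : ∀ a, star (V a) * V a = 1 := fun a => Subtype.ext (by simp [V])
  let x : S := c.sum fun a z => z • V a
  have hx : (x : H →L[ℂ] H) = c.sum fun a z => z • (U a : H →L[ℂ] H) := by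
    simp only [x, Finsupp.sum, AddSubmonoidClass.coe_finsetSum]
    rfl
  rw [← hx]
  change ‖x‖ ≤ M
  rw [← (gelfandTransform_isometry S).norm_map_of_map_zero (map_zero _) x,
    ContinuousMap.norm_le _ hM0]
  intro φ
  have hn : ∀ a, ‖φ (V a)‖ = 1 := by
    intro a
    have h1 := congrArg φ (hVs a)
    rw [map_mul, map_star, map_one, RCLike.star_def, Complex.conj_mul'] at h1
    have h2 : ‖φ (V a)‖ ^ 2 = 1 := by exact_mod_cast h1
    nlinarith [norm_nonneg (φ (V a))]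
  let χ : A →* Circle := MonoidHom.mk'
    (fun a => ⟨φ (V a), mem_sphere_zero_iff_norm.2 (hn a)⟩)
    (fun a b => Subtype.ext (by
      change φ (V (a * b)) = φ (V a) * φ (V b)
      rw [hVm, map_mul]))
  have e : φ x = c.sum fun a z => z * (χ a : ℂ) := by
    simp only [x, Finsupp.sum, map_sum, map_smul, smul_eq_mul]
    rfl
  change ‖φ x‖ ≤ M
  rw [e]
  exact hM χ

end gelfand

variable {G : Type} [Group G]

lemma Ball.rep' {r : ℝ} {f : G → ℂ} (h : Ball r f) :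
    ∃ (H : Type) (_ : NormedAddCommGroup H) (_ : InnerProductSpace ℂ H) (_ : CompleteSpace H)
      (π : G →* unitary (H →L[ℂ] H)) (ξ η : H), ‖η‖ * ‖ξ‖ ≤ r ∧
      ∀ g, f g = inner ℂ η ((π g : H →L[ℂ] H) ξ) := by
  obtain ⟨F, h0, rfl, h1, h2⟩ := h
  obtain ⟨H, _, _, _, π, ξ, h⟩ := exists_rep F h0
  refine ⟨H, inferInstance, inferInstance, inferInstance, π, ξ true, ξ false, ?_, fun g => h _ _ _⟩
  rw [h] at h1 h2
  simp only [map_one, OneMemClass.coe_one, one_apply_eq_self,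
    inner_self_eq_norm_sq_to_K, Complex.coe_algebraMap, norm_pow, Complex.norm_real,
    norm_norm] at h1 h2
  nlinarith [sq_nonneg (‖ξ true‖ - ‖ξ false‖)]

lemma Ball.comp {A : Type} [Group A] (ι : A →* G) {r : ℝ} {f : G → ℂ} (h : Ball r f) :
    Ball r (fun a => f (ι a)) := by
  obtain ⟨F, h0, rfl, h1, h2⟩ := h
  refine ⟨fun i j a => F i j (ι a), ?_, rfl, by simpa using h1, by simpa using h2⟩
  convert h0.submatrix (fun x : A × Bool => (ι x.1, x.2)) using 1
  ext x y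
  simp [ker]

lemma ball_char (χ : G →* Circle) : Ball 1 (fun g => (χ g : ℂ)) := by
  refine ⟨fun _ _ g => (χ g : ℂ), ?_, rfl, by simp, by simp⟩
  convert psd_rank_one (fun x : G × Bool => (χ x.1 : ℂ)) using 1
  ext x y
  simp only [ker, Matrix.of_apply, map_mul, map_inv, Circle.coe_mul, Circle.coe_inv_eq_conj]

lemma summable_l2 {a b : G → ℂ} (ha : Summable fun h => ‖a h‖ ^ 2)
    (hb : Summable fun h => ‖b h‖ ^ 2) (y : G) : Summable fun h => conj (a (y * h)) * b h := by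
  have h1 : Summable fun h => ‖a (y * h)‖ ^ 2 := (Equiv.mulLeft y).summable_iff.2 ha
  refine Summable.of_norm_bounded (h1.add hb) fun h => ?_
  rw [norm_mul, RCLike.norm_conj]
  nlinarith [sq_nonneg (‖a (y * h)‖ - ‖b h‖), norm_nonneg (a (y * h)), norm_nonneg (b h)]

lemma ball_L2 {a b : G → ℂ} (ha : Summable fun h => ‖a h‖ ^ 2) (hb : Summable fun h => ‖b h‖ ^ 2)
    {α β : ℝ} (hα : 0 ≤ α) (hβ : 0 ≤ β) (h1 : ∑' h, ‖a h‖ ^ 2 ≤ α ^ 2)
    (h2 : ∑' h, ‖b h‖ ^ 2 ≤ β ^ 2) :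
    Ball (α * β) (fun y => ∑' h, conj (a (y * h)) * b h) := by
  refine Ball2.ball hα hβ ?_
  let c : Bool → G → ℂ := fun i => if i then b else a
  have hc : ∀ i, Summable fun h => ‖c i h‖ ^ 2 := by
    intro i
    cases i
    · exact ha
    · exact hb
  have hn : ∀ i, ‖∑' h, conj (c i (1 * h)) * c i h‖ ≤ ∑' h, ‖c i h‖ ^ 2 := fun i =>
    tsum_of_norm_bounded (hc i).hasSum fun h => by simp [sq]
  refine ⟨fun i j y => ∑' h, conj (c i (y * h)) * c j h, ?_, rfl, (hn false).trans h1,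
    (hn true).trans h2⟩
  have := psd_tsum (fun h : G => (Matrix.of fun x y : G × Bool =>
    conj (c x.2 (x.1⁻¹ * h)) * c y.2 (y.1⁻¹ * h) : Matrix _ _ ℂ))
    (fun h => psd_rank_one (fun x : G × Bool => c x.2 (x.1⁻¹ * h))) (fun x y => ?_)
  · convert this using 1
    ext x y
    simp only [ker, Matrix.of_apply]
    rw [eq_comm, ← (Equiv.mulLeft y.1).tsum_eq]
    simp [mul_assoc]
  · rw [← (Equiv.mulLeft y.1).summable_iff]
    refine (summable_l2 (hc x.2) (hc y.2) (x.1⁻¹ * y.1)).congr fun h => ?_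
    simp [mul_assoc]

lemma l2_trunc {a : G → ℂ} (ha : Summable fun h => ‖a h‖ ^ 2) {δ : ℝ} (hδ : 0 < δ) :
    ∃ (E : Finset G) (a₁ a₂ : G → ℂ), a = a₁ + a₂ ∧ (∀ g ∉ E, a₁ g = 0) ∧
      (Summable fun h => ‖a₁ h‖ ^ 2) ∧ (Summable fun h => ‖a₂ h‖ ^ 2) ∧
      ∑' h, ‖a₁ h‖ ^ 2 ≤ ∑' h, ‖a h‖ ^ 2 ∧ ∑' h, ‖a₂ h‖ ^ 2 ≤ δ ^ 2 := by
  obtain ⟨E, hE⟩ := ((tendsto_tsum_compl_atTop_zero fun h => ‖a h‖ ^ 2).eventually
    (ge_mem_nhds (show (0 : ℝ) < δ ^ 2 by positivity))).exists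
  have h1 : ∀ (s : Set G) h, ‖s.indicator a h‖ ^ 2 ≤ ‖a h‖ ^ 2 := fun s h =>
    pow_le_pow_left₀ (norm_nonneg _) (norm_indicator_le_norm_self _ _) 2
  have h2 : ∀ s : Set G, Summable fun h => ‖s.indicator a h‖ ^ 2 := fun s =>
    Summable.of_nonneg_of_le (fun _ => sq_nonneg _) (h1 s) ha
  refine ⟨E, (E : Set G).indicator a, (E : Set G)ᶜ.indicator a,
    (Set.indicator_self_add_compl _ _).symm, fun g hg => Set.indicator_of_notMem hg _, h2 _, h2 _,
    (h2 _).tsum_le_tsum (h1 _) ha, le_trans (le_of_eq ?_) hE⟩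
  have h3 := tsum_subtype (E : Set G)ᶜ fun h => ‖a h‖ ^ 2
  refine Eq.trans ?_ h3.symm
  refine tsum_congr fun h => ?_
  by_cases hh : h ∈ (E : Set G)ᶜ <;> simp [hh]

lemma fa_approx {a b : G → ℂ} (ha : Summable fun h => ‖a h‖ ^ 2)
    (hb : Summable fun h => ‖b h‖ ^ 2) {ε : ℝ} (hε : 0 < ε) :
    ∃ (E : Finset G) (v : G → ℂ), (∀ g ∉ E, v g = 0) ∧
      Ball ε ((fun y => ∑' h, conj (a (y * h)) * b h) - v) := by
  set α := √(∑' h, ‖a h‖ ^ 2) with hα
  set β := √(∑' h, ‖b h‖ ^ 2) with hβ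
  have hα0 : 0 ≤ α := Real.sqrt_nonneg _
  have hβ0 : 0 ≤ β := Real.sqrt_nonneg _
  have hα2 : α ^ 2 = ∑' h, ‖a h‖ ^ 2 := Real.sq_sqrt (tsum_nonneg fun _ => sq_nonneg _)
  have hβ2 : β ^ 2 = ∑' h, ‖b h‖ ^ 2 := Real.sq_sqrt (tsum_nonneg fun _ => sq_nonneg _)
  have hδ : 0 < ε / (α + β + 1) := by positivity
  obtain ⟨E, a₁, a₂, rfl, hE, s1, s2, n1, n2⟩ := l2_trunc ha hδ
  obtain ⟨E', b₁, b₂, rfl, hE', s1', s2', n1', n2'⟩ := l2_trunc hb hδ
  refine ⟨E * E'⁻¹, fun y => ∑' h, conj (a₁ (y * h)) * b₁ h, fun g hg => ?_, ?_⟩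
  · refine (tsum_congr fun h => ?_).trans tsum_zero
    by_cases h1 : h ∈ E'
    · rw [hE _ fun h2 => hg ?_, map_zero, zero_mul]
      simpa using Finset.mul_mem_mul h2 (Finset.inv_mem_inv h1)
    · rw [hE' h h1, mul_zero]
  · have t1 := (ball_L2 s2 hb hδ.le hβ0 n2 hβ2.ge).add
      (ball_L2 s1 s2' hα0 hδ.le (n1.trans hα2.ge) n2')
    have e : ((fun y => ∑' h, conj ((a₁ + a₂) (y * h)) * (b₁ + b₂) h) -
        fun y => ∑' h, conj (a₁ (y * h)) * b₁ h) = (fun y => ∑' h, conj (a₂ (y * h)) * (b₁ + b₂) h)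
        + fun y => ∑' h, conj (a₁ (y * h)) * b₂ h := by
      funext y
      rw [Pi.sub_apply, Pi.add_apply, ← (summable_l2 ha hb y).tsum_sub (summable_l2 s1 s1' y),
        ← (summable_l2 s2 hb y).tsum_add (summable_l2 s1 s2' y)]
      refine tsum_congr fun h => ?_
      simp only [Pi.add_apply, map_add]
      ring
    rw [e]
    refine t1.mono ?_
    have : ε / (α + β + 1) * (α + β + 1) = ε := by field_simp
    nlinarith

lemma IsChar.finsupp {φ : (G → ℂ) → ℂ} (hφ : IsChar φ) (h0 : ∀ g, φ (dl g) = 0) {u : G → ℂ}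
    {E : Finset G} (hu : ∀ g ∉ E, u g = 0) : φ u = 0 := by
  have e : u = ∑ g ∈ E, u g • dl g := by
    funext y
    simp only [Finset.sum_apply, Pi.smul_apply, dl, smul_eq_mul, mul_ite, mul_one, mul_zero]
    rw [Finset.sum_ite_eq]
    split_ifs with hy
    · rfl
    · exact hu y hy
  rw [e, hφ.sum _ _ fun g _ => (ball_dl g).inB.smul _]
  exact Finset.sum_eq_zero fun g _ => by rw [hφ.smul (ball_dl g).inB, h0, mul_zero]

lemma isChar_ultra (p : Ultrafilter G) : ∃ φ : (G → ℂ) → ℂ, IsChar φ ∧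
    ∀ u, InB u → Tendsto u p (𝓝 (φ u)) := by
  have h : ∀ u : G → ℂ, InB u → Tendsto u p (𝓝 (limUnder p u)) := by
    rintro u ⟨r, hr⟩
    exact tendsto_nhds_limUnder (ultra_lim p u r hr.bound)
  refine ⟨fun u => limUnder p u, ⟨fun hf hg => ?_, fun hf hg => ?_, fun c => ?_, fun hr => ?_⟩, h⟩
  · exact tendsto_nhds_unique (h _ (hf.add hg)) ((h _ hf).add (h _ hg))
  · exact tendsto_nhds_unique (h _ (hf.mul hg)) ((h _ hf).mul (h _ hg))
  · exact tendsto_nhds_unique (h _ (ball_const c).inB) tendsto_const_nhds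
  · exact le_of_tendsto (h _ hr.inB).norm (Eventually.of_forall hr.bound)

/-- elements of the radical of the Fourier algebra vanish at infinity and are natural -/
theorem zafran [Infinite G] {f : G → ℂ} (hf : InB f)
    (h : ∀ φ : (G → ℂ) → ℂ, IsChar φ → (∀ g, φ (dl g) = 0) → φ f = 0) :
    Tendsto f cofinite (𝓝 0) ∧ Natural f := by
  have h1 : Tendsto f cofinite (𝓝 0) := by
    rw [tendsto_iff_ultrafilter]
    intro p hp
    obtain ⟨φ, hφ, hl⟩ := isChar_ultra p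
    rw [← h φ hφ fun g => ?_]
    · exact hl f hf
    · refine tendsto_nhds_unique (hl _ (ball_dl g).inB) (tendsto_const_nhds.congr' ?_)
      filter_upwards [le_cofinite_iff_eventually_ne.1 hp g] with x hx
      simp [dl, hx]
  refine ⟨h1, natural_of_chars hf fun φ hφ => ?_⟩
  by_cases h0 : ∃ g, φ (dl g) ≠ 0
  · obtain ⟨g, hg⟩ := h0
    rw [hφ.eval hg hf]
    exact subset_closure ⟨g, rfl⟩
  · push Not at h0
    rw [h φ hφ h0]
    exact mem_closure_of_tendsto h1 (Eventually.of_forall fun g => ⟨g, rfl⟩)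

end

end Pool.Agent.H565Z.Fs
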