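import Mathlib
import Pool.Agent.H565Z.FsDefs

set_option autoImplicit false

namespace Pool.Agent.H565Z.Fs

/-- The vector `π g v`. -/
noncomputable def repApply {G H : Type} [Group G] [NormedAddCommGroup H] [InnerProductSpace ℂ H]
    (π : G →* (H ≃ₗᵢ[ℂ] H)) (g : G) (v : H) : H :=
  π g v

/-- The element `c` of the group algebra has norm at most one in the full group `C⋆`-algebra:
`‖π(c)‖ ≤ 1` for every unitary representation `π`. -/
def CstarUnitBall {G : Type} [Group G] (c : G →₀ ℂ) : Prop :=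
  ∀ (H : Type) (_ : NormedAddCommGroup H) (_ : InnerProductSpace ℂ H) (_ : CompleteSpace H)
    (π : G →* (H ≃ₗᵢ[ℂ] H)) (v : H), ‖∑ g ∈ c.support, c g • repApply π g v‖ ≤ ‖v‖

/-- The norm of `B(G)`, dual to the norm of the full group `C⋆`-algebra. -/
noncomputable def fsNorm {G : Type} [Group G] (f : G → ℂ) : ℝ :=
  sSup {x : ℝ | ∃ c : G →₀ ℂ, CstarUnitBall c ∧ x = ‖∑ g ∈ c.support, c g * f g‖}

/-- The Fourier algebra `A(G)`: the coefficient functions `g ↦ ⟪η, λ(g) ξ⟫` of the left regular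
representation on `ℓ²(G)`. -/
def FourierAlgebra (G : Type) [Group G] : Set (G → ℂ) :=
  {u : G → ℂ | ∃ ξ η : G → ℂ, Summable (fun h => ‖ξ h‖ ^ 2) ∧ Summable (fun h => ‖η h‖ ^ 2) ∧
    ∀ g : G, u g = ∑' h : G, (starRingEnd ℂ) (η h) * ξ (g⁻¹ * h)}

/-- `r(A(G))`: the elements of `B(G)` some positive power of which lies in `A(G)`. -/
def FourierRadical (G : Type) [Group G] : Set (G → ℂ) :=
  {f : G → ℂ | f ∈ FourierStieltjes G ∧ ∃ n : ℕ, 1 ≤ n ∧ f ^ n ∈ FourierAlgebra G}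

end Pool.Agent.H565Z.Fs
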