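import Mathlib
import Pool.Agent.H565Z.ZafA
import Pool.Agent.H565Z.ZafDefs
import Pool.Agent.H565Z.FsFinal
import Pool.Agent.Helper550.RadC

set_option autoImplicit false

open scoped ComplexOrder ComplexConjugate Pointwise Classical ZeroAtInfty
open Filter Topology MeasureTheory
open Pool.Agent.Helper550

namespace Pool.Agent.H565Z.Fs

noncomputable section

variable {A : Type} [CommGroup A] [TopologicalSpace A] [DiscreteTopology A]

/-- the compact dual group, written additively -/
abbrev KK (A : Type) [CommGroup A] [TopologicalSpace A] : Type := Additive (PontryaginDual A)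

instance : T2Space (KK A) := inferInstanceAs (T2Space (PontryaginDual A))

def ec (a : A) : C(KK A, ℂ) :=
  ⟨fun χ => ((Additive.toMul χ) a : ℂ), by
    refine continuous_subtype_val.comp ?_
    have h : Continuous fun χ : A →ₜ* Circle => χ a :=
      (continuous_eval_const (F := C(A, Circle)) a).comp
        (ContinuousMonoidHom.isInducing_toContinuousMap A Circle).continuous
    exact h⟩

def ev (a : A) : C₀(KK A, ℂ) := ZeroAtInftyContinuousMap.ContinuousMap.liftZeroAtInfty (ec a)

lemma ev_apply (a : A) (χ : KK A) : ev a χ = ((Additive.toMul χ) a : ℂ) := rfl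

lemma ev_add (a : A) (x y : KK A) : ev a (x + y) = ev a x * ev a y := rfl

lemma ev_mul (a b : A) (x : KK A) : ev (a * b) x = ev a x * ev b x := by
  simp [ev_apply]

lemma ev_one (x : KK A) : ev (1 : A) x = 1 := by simp [ev_apply]

lemma norm_ev (a : A) (x : KK A) : ‖ev a x‖ = 1 := Circle.norm_coe _

def lc : (A →₀ ℂ) →ₗ[ℂ] C₀(KK A, ℂ) := Finsupp.linearCombination ℂ ev

lemma lc_apply (c : A →₀ ℂ) (x : KK A) : lc c x = c.sum fun a z => z * ev a x := by
  simp only [lc, Finsupp.linearCombination_apply, Finsupp.sum, Rad.c0_sum_apply]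
  rfl

lemma span_ec : (Submodule.span ℂ (Set.range (ec (A := A)))).topologicalClosure = ⊤ := by
  let S : StarSubalgebra ℂ C(KK A, ℂ) :=
    { toSubalgebra := Algebra.adjoin ℂ (Set.range ec)
      star_mem' := by
        change Algebra.adjoin ℂ (Set.range (ec (A := A))) ≤
          star (Algebra.adjoin ℂ (Set.range (ec (A := A))))
        refine Algebra.adjoin_le ?_
        rintro - ⟨n, rfl⟩
        refine Algebra.subset_adjoin ⟨n⁻¹, ContinuousMap.ext fun x => ?_⟩
        change (((Additive.toMul x) n⁻¹ : Circle) : ℂ) = conj ((Additive.toMul x) n : ℂ)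
        rw [map_inv, Circle.coe_inv_eq_conj] }
  have h1 : Subalgebra.toSubmodule S.toSubalgebra = Submodule.span ℂ (Set.range ec) := by
    apply Algebra.adjoin_eq_span_of_subset
    refine Set.Subset.trans ?_ Submodule.subset_span
    intro x hx
    refine Submonoid.closure_induction (fun _ => id) ⟨1, ?_⟩ ?_ hx
    · ext1 z
      exact ev_one z
    · rintro - - - - ⟨m, rfl⟩ ⟨n, rfl⟩
      refine ⟨m * n, ?_⟩
      ext1 z
      exact ev_mul m n z
  have h2 : S.SeparatesPoints := by
    intro x y hxy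
    by_contra hcon
    apply hxy
    refine Additive.toMul.injective (PontryaginDual.ext fun a => Subtype.ext ?_)
    by_contra h
    exact hcon ⟨_, ⟨ec a, Algebra.subset_adjoin ⟨a, rfl⟩, rfl⟩, h⟩
  rw [← h1]
  exact congr_arg (Subalgebra.toSubmodule <| StarSubalgebra.toSubalgebra ·)
    (ContinuousMap.starSubalgebra_topologicalClosure_eq_top_of_separatesPoints S h2)

lemma lc_dense : DenseRange (lc (A := A)) := by
  rw [Metric.denseRange_iff]
  intro g ε hε
  have h1 : (g : C(KK A, ℂ)) ∈ (Submodule.span ℂ (Set.range (ec (A := A)))).topologicalClosure := by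
    rw [span_ec]
    trivial
  obtain ⟨h, hh, hd⟩ := Metric.mem_closure_iff.1 h1 (ε / 2) (half_pos hε)
  obtain ⟨c, rfl⟩ := Finsupp.mem_span_range_iff_exists_finsupp.1 hh
  refine ⟨c, lt_of_le_of_lt ?_ (half_lt_self hε)⟩
  rw [dist_eq_norm, Rad.c0_norm_le (half_pos hε).le]
  intro x
  have h2 := (ContinuousMap.dist_apply_le_dist x).trans hd.le
  rw [dist_eq_norm] at h2
  refine le_trans (le_of_eq ?_) h2
  rw [ZeroAtInftyContinuousMap.sub_apply, lc_apply]
  simp only [Finsupp.sum, ContinuousMap.coe_sum, Finset.sum_apply]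
  rfl

/-- Fourier-Stieltjes transform -/
def ft (μ : Rad.Meas (KK A)) : A → ℂ := fun a => μ (ev a)

lemma ft_mul (μ ν : Rad.Meas (KK A)) : ft (μ * ν) = ft μ * ft ν := by
  funext a
  have h : Rad.cv ν (ev a) = ν (ev a) • ev a := by
    ext x
    have h1 : Rad.tr x (ev a) = ev a x • ev a := by
      ext y
      rfl
    rw [Rad.cv_apply, h1, map_smul]
    simp [mul_comm]
  simp only [ft, Pi.mul_apply]
  rw [Rad.Meas.mul_apply, h, map_smul, smul_eq_mul, mul_comm]

lemma ft_one : ft (1 : Rad.Meas (KK A)) = 1 := by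
  funext a
  simp [ft, Rad.Meas.one_apply, ev_apply]

lemma ft_pow (μ : Rad.Meas (KK A)) (n : ℕ) : ft (μ ^ n) = ft μ ^ n := by
  induction n with
  | zero => simp [ft_one]
  | succ n ih => rw [pow_succ, pow_succ, ft_mul, ih]

lemma apply_lc (μ : Rad.Meas (KK A)) (c : A →₀ ℂ) : μ (lc c) = c.sum fun a z => z * ft μ a := by
  simp only [lc, Finsupp.linearCombination_apply, Finsupp.sum, map_sum, map_smul, smul_eq_mul, ft]

lemma ft_inj {μ ν : Rad.Meas (KK A)} (h : ft μ = ft ν) : μ = ν := by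
  ext g
  refine lc_dense.induction_on (p := fun g => μ g = ν g) g
    (isClosed_eq (map_continuous μ) (map_continuous ν)) fun c => ?_
  rw [apply_lc, apply_lc, h]

lemma gelfand' {H : Type} [NormedAddCommGroup H] [InnerProductSpace ℂ H] [CompleteSpace H]
    (U : A →* unitary (H →L[ℂ] H)) (c : A →₀ ℂ) (v : H) :
    ‖c.sum fun a z => z • (U a : H →L[ℂ] H) v‖ ≤ ‖lc c‖ * ‖v‖ := by
  have h1 := gelfand U c (norm_nonneg (lc c)) fun χ => by
    have := Rad.c0_apply_le (lc c) (Additive.ofMul ⟨χ, continuous_of_discreteTopology⟩)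
    rwa [lc_apply] at this
  have h2 := (c.sum fun a z => z • (U a : H →L[ℂ] H)).le_of_opNorm_le h1 v
  refine le_trans (le_of_eq ?_) h2
  simp [Finsupp.sum]

lemma exists_meas {r : ℝ} {u : A → ℂ} (h : Ball r u) :
    ∃ m : Rad.Meas (KK A), ‖m‖ ≤ r ∧ ft m = u := by
  obtain ⟨H, _, _, _, π, ξ, η, hr, hu⟩ := h.rep'
  let f : (A →₀ ℂ) →ₗ[ℂ] ℂ := Finsupp.linearCombination ℂ u
  have hb : ∀ c, ‖f c‖ ≤ r * ‖lc c‖ := by
    intro c
    have e : f c = inner ℂ η (c.sum fun a z => z • (π a : H →L[ℂ] H) ξ) := by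
      simp only [f, Finsupp.linearCombination_apply, Finsupp.sum, inner_sum, inner_smul_right, hu,
        smul_eq_mul]
    rw [e]
    refine (norm_inner_le_norm _ _).trans ?_
    have h1 := mul_le_mul_of_nonneg_left (gelfand' π c ξ) (norm_nonneg η)
    have h2 := mul_le_mul_of_nonneg_right hr (norm_nonneg (lc c))
    nlinarith
  refine ⟨f.extendOfNorm lc, LinearMap.opNorm_extendOfNorm_le lc_dense h.nonneg hb, ?_⟩
  funext a
  have h1 := LinearMap.extendOfNorm_eq (f := f) lc_dense ⟨r, hb⟩ (Finsupp.single a 1)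
  simp only [f, lc, Finsupp.linearCombination_single, one_smul] at h1
  exact h1

lemma ball_ft (μ : Rad.Meas (KK A)) : Ball ‖μ‖ (ft μ) := by
  have h : ∀ V : Set (KK A), ∃ (n : ℕ) (x : Fin n → KK A) (u : Fin n → C₀(KK A, ℂ)),
      V ∈ 𝓝 (0 : KK A) → ((∀ i, Rad.Cut (u i)) ∧ (∀ i y, u i y ≠ 0 → y - x i ∈ V) ∧
        ∀ y ∈ (Set.univ : Set (KK A)), ∑ i, u i y = 1) := by
    intro V
    by_cases hV : V ∈ 𝓝 (0 : KK A)
    · obtain ⟨n, x, u, h1, h2, h3, -⟩ := Rad.exists_parts isCompact_univ hV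
      exact ⟨n, x, u, fun _ => ⟨h1, h2, h3⟩⟩
    · exact ⟨0, Fin.elim0, Fin.elim0, fun h => absurd h hV⟩
  choose n x u hu using h
  have hsupp : Rad.Supp Set.univ μ := fun f hf => by
    have : f = 0 := by
      ext y
      exact hf y trivial
    rw [this, map_zero]
  have hV : ∀ᶠ V in (𝓝 (0 : KK A)).smallSets ⊓ 𝓟 (𝓝 (0 : KK A)).sets, V ∈ 𝓝 (0 : KK A) :=
    mem_inf_of_right (mem_principal_self _)
  have : ((𝓝 (0 : KK A)).smallSets ⊓ 𝓟 (𝓝 (0 : KK A)).sets).NeBot := by
    rw [inf_principal_neBot_iff]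
    intro T hT
    obtain ⟨W, hW, hWT⟩ := (hasBasis_smallSets _).mem_iff.1 hT
    exact ⟨W, hWT (Set.Subset.refl W), hW⟩
  refine ball_lim (l := (𝓝 (0 : KK A)).smallSets ⊓ 𝓟 (𝓝 (0 : KK A)).sets)
    (fun V => ∑ i, μ (u V i) • fun a => ev a (x V i)) _ ?_ fun a => ?_
  · filter_upwards [hV] with V hV
    obtain ⟨h1, -, h3⟩ := hu V hV
    refine (ball_sum _ _ _ fun i _ => (ball_char
      (Additive.toMul (x V i)).toMonoidHom).smul (μ (u V i))).mono ?_
    have hc : ∀ i, ∃ c : ℂ, ‖c‖ = 1 ∧ c * μ (u V i) = ‖μ (u V i)‖ := fun i => by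
      obtain ⟨c, hc1, hc2⟩ := Complex.exists_norm_eq_mul_self (μ (u V i))
      exact ⟨c, hc1, hc2.symm⟩
    choose c hc1 hc2 using hc
    have e : μ (∑ i, c i • u V i) = ((∑ i, ‖μ (u V i)‖ * 1 : ℝ) : ℂ) := by
      simp [hc2]
    have hn : ‖∑ i, c i • u V i‖ ≤ 1 := by
      rw [Rad.c0_norm_le zero_le_one]
      intro y
      rw [Rad.c0_sum_apply]
      refine (norm_sum_le _ _).trans (le_of_eq ?_)
      have h4 := h3 y trivial
      rw [← Finset.sum_congr rfl fun i _ => (h1 i).norm_eq y] at h4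
      simp only [ZeroAtInftyContinuousMap.smul_apply, norm_smul, hc1, one_mul]
      exact_mod_cast h4
    have h5 := Rad.Meas.le_of (le_refl ‖μ‖) hn
    rw [e, Complex.norm_real, mul_one] at h5
    exact (le_abs_self _).trans h5
  · rw [Metric.tendsto_nhds]
    intro ε hε
    obtain ⟨W, hW, hW2⟩ := Rad.tr_equi (ev a) (show 0 < ε / (‖μ‖ + 1) by positivity)
    filter_upwards [hV, mem_inf_of_left (eventually_smallSets_subset.2 hW)] with V hV hVW
    obtain ⟨h1, h2, h3⟩ := hu V hV
    have h4 := Rad.parts_bound hsupp (x := x V) h1 h3 (g := ev a)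
      (show 0 ≤ ε / (‖μ‖ + 1) by positivity) fun i z hz => by
        simpa using hW2 _ (hVW (h2 i z hz)) (x V i)
    rw [dist_comm, dist_eq_norm]
    simp only [Finset.sum_apply, Pi.smul_apply, smul_eq_mul, mul_comm (μ _)]
    refine h4.trans_lt ?_
    rw [mul_div_assoc', div_lt_iff₀ (by positivity)]
    nlinarith

section haar

variable [MeasurableSpace (KK A)] [BorelSpace (KK A)]

lemma int_c0 (f : C₀(KK A, ℂ)) : Integrable (fun x => f x) (Measure.addHaar : Measure (KK A)) :=
  Rad.cs_int (HasCompactSupport.of_compactSpace _)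

/-- total mass of the Haar measure -/
def mass (A : Type) [CommGroup A] [TopologicalSpace A] [DiscreteTopology A]
    [MeasurableSpace (KK A)] [BorelSpace (KK A)] : ℝ :=
  (Measure.addHaar : Measure (KK A)).real Set.univ

lemma mass_pos : 0 < mass A := by
  rw [mass, measureReal_def, ENNReal.toReal_pos_iff]
  exact ⟨isOpen_univ.measure_pos _ Set.univ_nonempty, measure_lt_top _ _⟩

omit [MeasurableSpace (KK A)] [BorelSpace (KK A)] in
lemma ev_inj : Function.Injective (ev (A := A)) := by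
  intro a b e
  obtain ⟨m, -, hm⟩ := exists_meas (ball_dl a)
  have h1 : ft m a = ft m b := by simp only [ft, e]
  rw [hm] at h1
  by_contra hne
  simp [dl, Ne.symm hne] at h1

lemma int_ev (a : A) : ∫ x, ev a x ∂(Measure.addHaar : Measure (KK A)) =
    if a = 1 then (mass A : ℂ) else 0 := by
  split_ifs with h
  · simp [h, ev_one, mass]
  · have h1 : ∃ y, ev a y ≠ 1 := by
      by_contra hcon
      push Not at hcon
      refine h (ev_inj ?_)
      ext y
      rw [hcon, ev_one]
    obtain ⟨y, hy⟩ := h1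
    have h2 := integral_add_left_eq_self (μ := (Measure.addHaar : Measure (KK A)))
      (fun x => ev a x) y
    simp only [ev_add, integral_const_mul] at h2
    by_contra h3
    exact hy ((mul_eq_right₀ h3).1 h2)

lemma ft_den_lc (c : A →₀ ℂ) (a : A) : ft (Rad.den fun x => lc c x) a = mass A * c a⁻¹ := by
  rw [ft, Rad.den_apply (int_c0 _)]
  simp only [lc_apply, Finsupp.sum, Finset.sum_mul, mul_assoc, ← ev_mul]
  rw [integral_finsetSum _ fun b _ => (int_c0 _).const_mul _]
  simp only [integral_const_mul, int_ev, mul_eq_one_iff_eq_inv, mul_ite, mul_zero,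
    Finset.sum_ite_eq', Finsupp.mem_support_iff]
  split_ifs with h
  · ring
  · rw [not_not.1 h, mul_zero]

lemma den_dist (f g : C₀(KK A, ℂ)) :
    ‖Rad.den (fun x => f x) - Rad.den (fun x => g x)‖ ≤ ‖f - g‖ * mass A := by
  rw [Rad.den_sub (int_c0 f) (int_c0 g)]
  refine (Rad.den_norm ((int_c0 f).sub (int_c0 g))).trans ?_
  refine (Real.le_norm_self _).trans
    (norm_integral_le_of_norm_le_const (Eventually.of_forall fun x => ?_))
  rw [norm_norm]
  exact Rad.c0_apply_le (f - g) x

omit [MeasurableSpace (KK A)] [BorelSpace (KK A)] in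
lemma neBot_KK [Infinite A] : NeBot (𝓝[≠] (0 : KK A)) := by
  rw [neBot_iff]
  intro hb
  have : DiscreteTopology (KK A) := by
    apply discreteTopology_of_isOpen_singleton_zero
    rw [isOpen_singleton_iff_punctured_nhds]
    exact hb
  have : Finite (KK A) := finite_of_compact_of_discrete
  let e : A → (Multiplicative (KK A) →* ℂ) := fun a =>
    { toFun := fun x => ev a (Multiplicative.toAdd x)
      map_one' := by simp [ev_apply]
      map_mul' := fun x y => ev_add a _ _ }
  have he : Function.Injective e := fun a b h => ev_inj (by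
    ext x
    exact DFunLike.congr_fun h (Multiplicative.ofAdd x))
  have h1 := (linearIndependent_monoidHom (Multiplicative (KK A)) ℂ).comp e he
  have := h1.finite
  exact not_finite A

variable {G : Type} [Group G] {ι : A →* G}

omit [MeasurableSpace (KK A)] [BorelSpace (KK A)] in
lemma norm_le_fsNorm (hι : Function.Injective ι) {w : G → ℂ} (hw : InB w) {m : Rad.Meas (KK A)}
    (hm : ft m = fun a => w (ι a)) : ‖m‖ ≤ fsNorm w := by
  obtain ⟨H, _, _, _, π, ξ, η, hw⟩ := (mem_fs_iff w).2 hw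
  have hbdd : BddAbove {x : ℝ | ∃ c : G →₀ ℂ, CstarUnitBall c ∧
      x = ‖∑ g ∈ c.support, c g * w g‖} := by
    refine ⟨‖η‖ * ‖ξ‖, ?_⟩
    rintro _ ⟨c, hc, rfl⟩
    have e : ∑ g ∈ c.support, c g * w g = inner ℂ η (∑ g ∈ c.support, c g • repApply π g ξ) := by
      simp only [hw, coefficient, repApply, inner_sum, inner_smul_right]
    rw [e]
    exact (norm_inner_le_norm _ _).trans (mul_le_mul_of_nonneg_left (hc H _ _ inferInstance π ξ)
      (norm_nonneg _))
  have h1 : ∀ c : A →₀ ℂ, ‖lc c‖ ≤ 1 → ‖m (lc c)‖ ≤ fsNorm w := by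
    intro c hc
    refine le_csSup hbdd ⟨c.mapDomain ι, ?_, ?_⟩
    · intro H' _ _ _ π' v
      have h2 := gelfand' (((Unitary.linearIsometryEquiv.symm.toMonoidHom).comp π').comp ι) c v
      have h3 : ∑ g ∈ (c.mapDomain ι).support, (c.mapDomain ι) g • repApply π' g v =
          c.sum fun a z => z • repApply π' (ι a) v :=
        Finsupp.sum_mapDomain_index_inj (h := fun g z => z • repApply π' g v) hι
      rw [h3]
      exact h2.trans (mul_le_of_le_one_left (norm_nonneg _) hc)
    · rw [apply_lc, hm]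
      congr 1
      exact (Finsupp.sum_mapDomain_index_inj (h := fun g z => z * w g) hι).symm
  have h0 : 0 ≤ fsNorm w := (norm_nonneg _).trans (h1 0 (by simp))
  refine Rad.Meas.norm_le h0 fun f => ?_
  refine lc_dense.induction_on (p := fun f => ‖m f‖ ≤ fsNorm w * ‖f‖) f
    (isClosed_le (map_continuous m).norm (continuous_const.mul continuous_norm)) fun c => ?_
  rcases (norm_nonneg (lc c)).eq_or_lt with h2 | h2
  · rw [norm_eq_zero.1 h2.symm]
    simp
  · have h3 := h1 (((‖lc c‖⁻¹ : ℝ) : ℂ) • c) (by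
      rw [map_smul, norm_smul, Complex.norm_real, Real.norm_of_nonneg (inv_pos.2 h2).le,
        inv_mul_cancel₀ h2.ne'])
    rw [map_smul, map_smul, norm_smul, Complex.norm_real, Real.norm_of_nonneg (inv_pos.2 h2).le,
      inv_mul_le_iff₀ h2, mul_comm] at h3
    exact h3

lemma mem_L1c (hι : Function.Injective ι) {u : G → ℂ} (hu : u ∈ FourierAlgebra G)
    {m : Rad.Meas (KK A)} (hm : ft m = fun a => u (ι a)) : m ∈ Rad.L1c (KK A) := by
  obtain ⟨ξ, η, hξ, hη, hu⟩ := hu
  have e : u = fun y => ∑' h, conj (η (y * h)) * ξ h := by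
    funext y
    rw [hu, ← (Equiv.mulLeft y).tsum_eq]
    simp
  suffices h : m ∈ closure (Rad.L1c (KK A) : Set (Rad.Meas (KK A))) by
    rwa [Rad.L1c_closed.closure_eq] at h
  rw [Metric.mem_closure_iff]
  intro ε hε
  obtain ⟨E, v, hv, hb⟩ := fa_approx hη hξ (half_pos hε)
  rw [← e] at hb
  obtain ⟨m', hm1, hm2⟩ := exists_meas (hb.comp ι)
  have hm0 : (mass A : ℂ) ≠ 0 := by exact_mod_cast mass_pos.ne'
  let c : A →₀ ℂ := Finsupp.onFinset (E.preimage (fun a => ι a⁻¹)
    (hι.comp inv_injective).injOn) (fun a => v (ι a⁻¹) / mass A) fun a ha => by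
      rw [Finset.mem_preimage]
      by_contra h
      exact ha (by rw [hv _ h, zero_div])
  refine ⟨Rad.den fun x => lc c x, Rad.den_mem' (int_c0 _), ?_⟩
  have h1 : m - Rad.den (fun x => lc c x) = m' := by
    refine ft_inj (funext fun a => ?_)
    change ft m a - ft (Rad.den fun x => lc c x) a = _
    rw [ft_den_lc, hm, hm2]
    simp only [c, Finsupp.onFinset_apply, inv_inv, Pi.sub_apply]
    field_simp
  rw [dist_eq_norm, h1]
  linarith

theorem zaf [Infinite A] (hι : Function.Injective ι) : ∃ f : G → ℂ, InB f ∧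
    (∀ φ : (G → ℂ) → ℂ, IsChar φ → (∀ g, φ (dl g) = 0) → φ f = 0) ∧
    ∀ ν ∈ FourierRadical G, 1 / 50 ≤ fsNorm (f - ν) := by
  have := neBot_KK (A := A)
  obtain ⟨u0, μ, hu0, hpos, hin, hn, hU, hL⟩ := Rad.main_data (G := KK A)
  have hB : ∀ m : Rad.Meas (KK A), Ball ‖m‖ (ex ι (ft m)) := fun m => (ball_ft m).extend ι hι
  have hmul : ∀ m m' : Rad.Meas (KK A), ex ι (ft (m * m')) = ex ι (ft m) * ex ι (ft m') := by
    intro m m'
    refine fun_ext_range (ι := ι) (fun a => ?_) fun g hg => ?_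
    · simp only [Pi.mul_apply, ex_apply hι, ft_mul]
    · simp [ex_not _ hg]
  refine ⟨ex ι (ft μ), (hB μ).inB, fun ψ hψ h0 => ?_, ?_⟩
  · by_cases h1 : ψ (ex ι (ft 1)) = 0
    · rw [← mul_one μ, hmul, hψ.mul (hB _).inB (hB _).inB, h1, mul_zero]
    have h2 : ψ (ex ι (ft 1)) = 1 := by
      have h3 := hψ.mul (hB 1).inB (hB 1).inB
      rw [← hmul, mul_one] at h3
      exact (mul_eq_left₀ h1).1 h3.symm
    let φ0 : Rad.Meas (KK A) →ₗ[ℂ] ℂ :=
      { toFun := fun m => ψ (ex ι (ft m))
        map_add' := fun m m' => by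
          rw [← hψ.add (hB _).inB (hB _).inB]
          congr 1
          refine fun_ext_range (ι := ι) (fun a => ?_) fun g hg => ?_
          · simp only [Pi.add_apply, ex_apply hι]
            rfl
          · simp [ex_not _ hg]
        map_smul' := fun c m => by
          rw [RingHom.id_apply, smul_eq_mul, ← hψ.smul (hB _).inB]
          congr 1
          refine fun_ext_range (ι := ι) (fun a => ?_) fun g hg => ?_
          · simp only [Pi.smul_apply, ex_apply hι]
            rfl
          · simp [ex_not _ hg] }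
    let φ : Rad.Meas (KK A) →ₐ[ℂ] ℂ := AlgHom.ofLinearMap φ0 h2 fun m m' => by
      change ψ (ex ι (ft (m * m'))) = ψ (ex ι (ft m)) * ψ (ex ι (ft m'))
      rw [hmul, hψ.mul (hB _).inB (hB _).inB]
    refine Rad.final_hom hin hU φ fun ξ hξ => ?_
    refine Rad.L1c_induction (P := fun ξ => φ ξ = 0) ?_ (map_zero φ) ?_ ?_ ?_ hξ
    · intro f _
      have h3 : ∀ c : A →₀ ℂ, φ (Rad.den fun x => lc c x) = 0 := by
        intro c
        refine hψ.finsupp h0 (E := c.support.image fun a => ι a⁻¹) fun g hg => ?_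
        by_cases h4 : ∃ a, ι a = g
        · obtain ⟨a, rfl⟩ := h4
          rw [ex_apply hι, ft_den_lc, Finsupp.notMem_support_iff.1 fun h5 =>
            hg (Finset.mem_image.2 ⟨_, h5, by simp⟩), mul_zero]
        · exact ex_not _ h4
      refine norm_le_zero_iff.1 (le_of_forall_pos_le_add fun ε hε => ?_)
      have hm := mass_pos (A := A)
      obtain ⟨c, hc⟩ := Metric.denseRange_iff.1 lc_dense f (ε / mass A) (by positivity)
      have h4 := (Rad.hom_le φ _).trans (den_dist f (lc c))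
      rw [map_sub, h3, sub_zero] at h4
      rw [dist_eq_norm, lt_div_iff₀ hm] at hc
      linarith
    · intro μ ν h1 h2
      rw [map_add, h1, h2, add_zero]
    · intro c μ h
      rw [map_smul, h, smul_zero]
    · exact isClosed_eq (AlgHom.toContinuousLinearMap φ).continuous continuous_const
  · rintro ν ⟨hν, n, hn1, hνn⟩
    obtain ⟨r, hr⟩ := (mem_fs_iff ν).1 hν
    obtain ⟨m, -, hm⟩ := exists_meas (hr.comp ι)
    have h1 : m ^ n ∈ Rad.L1c (KK A) := mem_L1c hι hνn (by rw [ft_pow, hm]; rfl)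
    refine (Rad.final_nil hin hn hL hn1 h1).trans
      (norm_le_fsNorm hι ((hB μ).inB.sub hr.inB) (funext fun a => ?_))
    change ft μ a - ft m a = _
    rw [hm, Pi.sub_apply, ex_apply hι]

end haar

theorem zaf_final {G : Type} [Group G] (A : Subgroup G) (hA : (A : Set G).Infinite)
    (hc : ∀ a ∈ A, ∀ b ∈ A, a * b = b * a) :
    ∃ f ∈ NaturalSpectrum G, Tendsto f cofinite (𝓝 0) ∧
      ∀ ν ∈ FourierRadical G, 1 / 50 ≤ fsNorm (f - ν) := by
  have : Infinite A := hA.to_subtype
  have : Infinite G := Infinite.of_injective _ A.subtype_injective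
  let _ : CommGroup A := { (inferInstance : Group A) with
    mul_comm := fun a b => Subtype.ext (hc a a.2 b b.2) }
  let _ : TopologicalSpace A := ⊥
  have : DiscreteTopology A := ⟨rfl⟩
  let _ : MeasurableSpace (KK A) := borel _
  have : BorelSpace (KK A) := ⟨rfl⟩
  obtain ⟨f, h1, h2, h3⟩ := zaf (ι := A.subtype) A.subtype_injective
  obtain ⟨h4, h5⟩ := zafran h1 h2
  refine ⟨f, ?_, h4, h3⟩
  simp only [NaturalSpectrum, fsSpectrum, mem_fs_iff]
  exact ⟨h1, h5⟩

end

end Pool.Agent.H565Z.Fs
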